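import Pool.Agent.W481.Good

/-!
Functions on the space of classes of paths of a branched cover of the complex line.
-/

open Topology

namespace Pool.Agent.W481

/-- The group of loops at `y₀` up to homotopy, with concatenation as multiplication. -/
def LG {Y : Type} [TopologicalSpace Y] (y₀ : Y) : Type := PH y₀ y₀

section LG

variable {Y : Type} [TopologicalSpace Y] {y₀ : Y}

noncomputable instance : Group (LG y₀) where
  mul p q := Path.Homotopic.Quotient.trans p q
  one := Path.Homotopic.Quotient.refl y₀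
  inv p := Path.Homotopic.Quotient.symm p
  mul_assoc p q r := PH_assoc p q r
  one_mul p := PH_refl_trans p
  mul_one p := PH_trans_refl p
  inv_mul_cancel p := PH_symm_trans p

noncomputable instance (t : Y) : MulAction (LG y₀) (PH y₀ t) where
  smul g q := Path.Homotopic.Quotient.trans g q
  one_smul q := PH_refl_trans q
  mul_smul p q r := PH_assoc p q r

theorem LG_smul_def {t : Y} (g : LG y₀) (q : PH y₀ t) :
    g • q = Path.Homotopic.Quotient.trans (show PH y₀ y₀ from g) q := rfl

theorem LG_mul_def (g g' : LG y₀) :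
    g * g' = Path.Homotopic.Quotient.trans (show PH y₀ y₀ from g) (show PH y₀ y₀ from g') := rfl

theorem LG_smul_trans {t t' : Y} (g : LG y₀) (q : PH y₀ t) (r : PH t t') :
    g • (q.trans r) = (g • q).trans r := (PH_assoc _ _ _).symm

theorem LG_exists_smul {t : Y} (p q : PH y₀ t) : ∃ g : LG y₀, g • p = q := by
  refine ⟨show LG y₀ from q.trans p.symm, ?_⟩
  show (q.trans p.symm).trans p = q
  rw [PH_assoc, PH_symm_trans, PH_trans_refl]

theorem LG_smul_cancel {t : Y} {g g' : LG y₀} {p : PH y₀ t} (h : g • p = g' • p) : g = g' := by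
  have h2 : ∀ k : LG y₀, (k • p).trans p.symm = k := by
    intro k
    rw [LG_smul_def, PH_assoc, PH_trans_symm]
    exact PH_trans_refl _
  have h3 := congrArg (fun r : PH y₀ t => r.trans p.symm) h
  simp only [h2] at h3
  exact h3

theorem LG_fg (h : Group.FG (FundamentalGroup Y y₀)) : Group.FG (LG y₀) := by
  let f : FundamentalGroup Y y₀ →* LG y₀ :=
    { toFun := fun p => (show LG y₀ from p)⁻¹
      map_one' := inv_one (G := LG y₀)
      map_mul' := fun p q => mul_inv_rev (show LG y₀ from q) (show LG y₀ from p) }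
  have hf : Function.Surjective f := fun p => ⟨p⁻¹, inv_inv p⟩
  exact Group.fg_of_surjective hf

end LG

section Sec

variable {Y : Type} [TopologicalSpace Y]

/-- `σ` is a continuous section of `pr` over the convex open set `Δ`. -/
structure Sec (pr : Y → ℂ) (Δ : Set ℂ) (σ : ℂ → Y) : Prop where
  isOpen : IsOpen Δ
  convex : Convex ℝ Δ
  cont : ContinuousOn σ Δ
  sec : ∀ s ∈ Δ, pr (σ s) = s

/-- The function `h` on the path space is holomorphic as a function of `s = pr t`. -/
def Hol (pr : Y → ℂ) {y₀ : Y} (h : ∀ t : Y, PH y₀ t → ℂ) : Prop :=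
  ∀ (Δ : Set ℂ) (σ : ℂ → Y), Sec pr Δ σ → ∀ s₀ ∈ Δ, ∀ q : PH y₀ (σ s₀),
    ∃ H : ℂ → ℂ, DifferentiableOn ℂ H Δ ∧ ∀ s ∈ Δ, ∀ γ : Path (σ s₀) (σ s),
      (∀ τ, γ τ ∈ σ '' Δ) → h (σ s) (q.trans (.mk γ)) = H s

/-- The function `exp h` has polynomial growth, and at most poles at the roots of `b`. -/
def Gro1 (pr : Y → ℂ) (b : Polynomial ℂ) {y₀ : Y} (h : ∀ t : Y, PH y₀ t → ℂ) : Prop :=
  ∃ (C : ℝ) (K K' : ℕ), ∀ t (q : PH y₀ t), b.eval (pr t) ≠ 0 →
    ‖Complex.exp (h t q)‖ * ‖b.eval (pr t)‖ ^ K ≤ C * (1 + ‖pr t‖) ^ K'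

/-- The class of functions on the path space attached to a group `N` of loops: the logarithms of
the algebraic functions without zeros and poles on the cover attached to `N`. -/
def InH (pr : Y → ℂ) (b : Polynomial ℂ) {y₀ : Y} (N : Subgroup (LG y₀))
    (h : ∀ t : Y, PH y₀ t → ℂ) : Prop :=
  Hol pr h ∧ Gro1 pr b h ∧ Gro1 pr b (-h) ∧
    ∀ g ∈ N, ∀ t (q : PH y₀ t), Complex.exp (h t (g • q)) = Complex.exp (h t q)

end Sec

end Pool.Agent.W481
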