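import Mathlib

/-!
Continuity of the roots of monic complex polynomials.
-/

open Polynomial Topology

namespace Pool.Agent.W481

theorem exists_mem_pow_card_le (s : Multiset ℝ) (hs : s ≠ 0) (h0 : ∀ x ∈ s, 0 ≤ x) :
    ∃ x ∈ s, x ^ s.card ≤ s.prod := by
  induction s using Multiset.induction_on with
  | empty => exact absurd rfl hs
  | cons a t ih =>
    by_cases ht : t = 0
    · subst ht
      exact ⟨a, by simp, by simp⟩
    · obtain ⟨x, hx, hxt⟩ := ih ht (fun y hy => h0 y (Multiset.mem_cons_of_mem hy))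
      have ha : 0 ≤ a := h0 a (Multiset.mem_cons_self a t)
      have hx0 : 0 ≤ x := h0 x (Multiset.mem_cons_of_mem hx)
      rw [Multiset.card_cons, Multiset.prod_cons]
      rcases le_total a x with h | h
      · refine ⟨a, Multiset.mem_cons_self a t, ?_⟩
        rw [pow_succ, mul_comm]
        exact mul_le_mul_of_nonneg_left ((pow_le_pow_left₀ ha h _).trans hxt) ha
      · refine ⟨x, Multiset.mem_cons_of_mem hx, ?_⟩
        rw [pow_succ, mul_comm]
        exact mul_le_mul h hxt (pow_nonneg hx0 _) ha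

/-- Every monic complex polynomial has a root which is close to a point where its value is
small. -/
theorem exists_root_near (P : ℂ[X]) (hP : P.Monic) (hd : P.natDegree ≠ 0) (t₀ : ℂ) :
    ∃ t, P.eval t = 0 ∧ ‖t - t₀‖ ^ P.natDegree ≤ ‖P.eval t₀‖ := by
  have hs : P.Splits := IsAlgClosed.splits P
  have hc : P.roots.card = P.natDegree := (splits_iff_card_roots.1 hs)
  have hprod : P.eval t₀ = (P.roots.map (fun a => t₀ - a)).prod := by
    conv_lhs => rw [hs.eq_prod_roots_of_monic hP]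
    rw [eval_multiset_prod, Multiset.map_map]
    congr 1
    refine Multiset.map_congr rfl fun a _ => ?_
    simp
  have hn : ‖P.eval t₀‖ = (P.roots.map (fun a => ‖t₀ - a‖)).prod := by
    rw [hprod]
    induction P.roots using Multiset.induction_on with
    | empty => simp
    | cons a s ih => simp [ih]
  obtain ⟨x, hx, hxp⟩ := exists_mem_pow_card_le (P.roots.map (fun a => ‖t₀ - a‖))
    (by
      intro h
      have := congrArg Multiset.card h
      rw [Multiset.card_map, hc] at this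
      exact hd (by simpa using this)) (by
      intro x hx
      obtain ⟨a, -, rfl⟩ := Multiset.mem_map.1 hx
      exact norm_nonneg _)
  obtain ⟨a, ha, rfl⟩ := Multiset.mem_map.1 hx
  refine ⟨a, (mem_roots'.1 ha).2, ?_⟩
  rw [Multiset.card_map, hc, ← hn] at hxp
  rwa [norm_sub_rev]

theorem root_bound (P : ℂ[X]) (hP : P.Monic) (t : ℂ) (ht : P.eval t = 0) :
    ‖t‖ ≤ 1 + ∑ i ∈ Finset.range P.natDegree, ‖P.coeff i‖ := by
  by_contra hcon
  push Not at hcon
  have hS : 0 ≤ ∑ i ∈ Finset.range P.natDegree, ‖P.coeff i‖ :=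
    Finset.sum_nonneg fun i _ => norm_nonneg _
  have h1 : 1 < ‖t‖ := by linarith
  have hd : P.natDegree ≠ 0 := by
    intro h
    rw [hP.natDegree_eq_zero.1 h] at ht
    simp at ht
  have h2 : t ^ P.natDegree = - ∑ i ∈ Finset.range P.natDegree, P.coeff i * t ^ i := by
    have := ht
    rw [eval_eq_sum_range, Finset.sum_range_succ, hP.coeff_natDegree, one_mul] at this
    linear_combination this
  have h3 : ‖t‖ ^ P.natDegree ≤
      (∑ i ∈ Finset.range P.natDegree, ‖P.coeff i‖) * ‖t‖ ^ (P.natDegree - 1) := by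
    rw [← norm_pow, h2, norm_neg, Finset.sum_mul]
    refine (norm_sum_le _ _).trans (Finset.sum_le_sum fun i hi => ?_)
    rw [norm_mul, norm_pow]
    refine mul_le_mul_of_nonneg_left ?_ (norm_nonneg _)
    exact pow_le_pow_right₀ h1.le (by have := Finset.mem_range.1 hi; omega)
  have h4 : ‖t‖ ^ P.natDegree = ‖t‖ * ‖t‖ ^ (P.natDegree - 1) := by
    rw [← pow_succ']
    congr 1
    omega
  rw [h4] at h3
  have h5 := le_of_mul_le_mul_right h3 (pow_pos (by linarith) _)
  linarith

/-- A family of polynomials with continuous coefficients. -/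
def ContPoly {T : Type*} [TopologicalSpace T] (F : T → ℂ[X]) : Prop :=
  (∀ i, Continuous fun t => (F t).coeff i) ∧ ∃ N, ∀ t, (F t).natDegree ≤ N

theorem ContPoly.continuous_eval {T : Type*} [TopologicalSpace T] {F : T → ℂ[X]}
    (hF : ContPoly F) : Continuous fun z : T × ℂ => (F z.1).eval z.2 := by
  obtain ⟨h, N, hN⟩ := hF
  have : (fun z : T × ℂ => (F z.1).eval z.2) =
      fun z => ∑ i ∈ Finset.range (N + 1), (F z.1).coeff i * z.2 ^ i := by
    ext z
    exact eval_eq_sum_range' (Nat.lt_succ_of_le (hN _)) _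
  rw [this]
  exact continuous_finsetSum _ fun i _ => ((h i).comp continuous_fst).mul (continuous_snd.pow i)

theorem ContPoly.derivative {T : Type*} [TopologicalSpace T] {F : T → ℂ[X]}
    (hF : ContPoly F) : ContPoly fun t => (F t).derivative := by
  obtain ⟨h, N, hN⟩ := hF
  refine ⟨fun i => ?_, N, fun t => (natDegree_derivative_le _).trans ?_⟩
  · simp only [coeff_derivative]
    exact (h (i + 1)).mul continuous_const
  · have := hN t
    omega

/-- Roots of monic polynomials persist. -/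
theorem ContPoly.eventually_exists_root {T : Type*} [TopologicalSpace T] {F : T → ℂ[X]}
    (hF : ContPoly F) (hm : ∀ t, (F t).Monic) (t₀ : T) (z₀ : ℂ) (h0 : (F t₀).eval z₀ = 0)
    {V : Set ℂ} (hV : V ∈ 𝓝 z₀) : ∀ᶠ t in 𝓝 t₀, ∃ z ∈ V, (F t).eval z = 0 := by
  obtain ⟨ε, hε, hεV⟩ := Metric.mem_nhds_iff.1 hV
  obtain ⟨N, hN⟩ := hF.2
  have hc : Continuous fun t => (F t).eval z₀ :=
    hF.continuous_eval.comp (continuous_id.prodMk continuous_const)
  have hd : ∀ᶠ t in 𝓝 t₀, (F t).natDegree ≠ 0 := by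
    have hd0 : (F t₀).natDegree ≠ 0 := by
      intro h
      rw [(hm t₀).natDegree_eq_zero.1 h] at h0
      simp at h0
    have h1 : ∀ᶠ t in 𝓝 t₀, (F t).eval z₀ ≠ 1 := by
      refine hc.continuousAt.eventually_ne ?_
      rw [h0]
      exact zero_ne_one
    filter_upwards [h1] with t ht h
    rw [(hm t).natDegree_eq_zero.1 h] at ht
    simp at ht
  have hsmall : ∀ᶠ t in 𝓝 t₀, ‖(F t).eval z₀‖ < min 1 ε ^ N := by
    have h1 : Filter.Tendsto (fun t => ‖(F t).eval z₀‖) (𝓝 t₀) (𝓝 0) := by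
      have := hc.norm.continuousAt (x := t₀)
      rw [ContinuousAt, h0, norm_zero] at this
      exact this
    exact h1.eventually_lt_const (by positivity)
  filter_upwards [hd, hsmall] with t ht1 ht2
  obtain ⟨z, hz, hzb⟩ := exists_root_near (F t) (hm t) ht1 z₀
  refine ⟨z, hεV ?_, hz⟩
  rw [Metric.mem_ball, dist_eq_norm]
  by_contra hcon
  push Not at hcon
  have h1 : min 1 ε ^ N ≤ min 1 ε ^ (F t).natDegree :=
    pow_le_pow_of_le_one (by positivity) (min_le_left _ _) (hN t)
  have h2 : min 1 ε ^ (F t).natDegree ≤ ‖z - z₀‖ ^ (F t).natDegree :=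
    pow_le_pow_left₀ (by positivity) ((min_le_right _ _).trans hcon) _
  linarith

/-- the divided difference of a polynomial -/
noncomputable def divDiff (P : ℂ[X]) (N : ℕ) (x y : ℂ) : ℂ :=
  ∑ i ∈ Finset.range (N + 1), P.coeff i * ∑ j ∈ Finset.range i, x ^ j * y ^ (i - 1 - j)

theorem divDiff_spec (P : ℂ[X]) (N : ℕ) (hN : P.natDegree ≤ N) (x y : ℂ) :
    P.eval x - P.eval y = divDiff P N x y * (x - y) := by
  rw [eval_eq_sum_range' (Nat.lt_succ_of_le hN), eval_eq_sum_range' (Nat.lt_succ_of_le hN),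
    ← Finset.sum_sub_distrib, divDiff, Finset.sum_mul]
  refine Finset.sum_congr rfl fun i _ => ?_
  rw [← mul_sub, mul_assoc, ← geom_sum₂_mul]

theorem divDiff_self (P : ℂ[X]) (N : ℕ) (hN : P.natDegree ≤ N) (x : ℂ) :
    divDiff P N x x = P.derivative.eval x := by
  rw [divDiff, derivative_eval, sum_over_range' _ _ (N + 1) (Nat.lt_succ_of_le hN)]
  · refine Finset.sum_congr rfl fun i _ => ?_
    have : ∀ j ∈ Finset.range i, x ^ j * x ^ (i - 1 - j) = x ^ (i - 1) := by
      intro j hj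
      rw [← pow_add]
      congr 1
      have := Finset.mem_range.1 hj
      omega
    rw [Finset.sum_congr rfl this, Finset.sum_const, Finset.card_range, nsmul_eq_mul]
    ring
  · intro n
    simp

theorem ContPoly.continuous_divDiff {T : Type*} [TopologicalSpace T] {F : T → ℂ[X]}
    (hF : ContPoly F) (N : ℕ) :
    Continuous fun z : T × ℂ × ℂ => divDiff (F z.1) N z.2.1 z.2.2 := by
  unfold divDiff
  refine continuous_finsetSum _ fun i _ => ((hF.1 i).comp continuous_fst).mul ?_
  fun_prop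

/-- Simple roots are locally unique. -/
theorem ContPoly.eventually_root_unique {T : Type*} [TopologicalSpace T] {F : T → ℂ[X]}
    (hF : ContPoly F) (t₀ : T) (z₀ : ℂ) (h1 : (F t₀).derivative.eval z₀ ≠ 0) :
    ∃ U ∈ 𝓝 t₀, ∃ V ∈ 𝓝 z₀, ∀ t ∈ U, ∀ z ∈ V, ∀ z' ∈ V, (F t).eval z = 0 → (F t).eval z' = 0 →
      z = z' := by
  obtain ⟨N, hN⟩ := hF.2
  have hc := hF.continuous_divDiff N
  have h2 : divDiff (F t₀) N z₀ z₀ ≠ 0 := by rwa [divDiff_self _ _ (hN t₀)]
  have h3 : ∀ᶠ z : T × ℂ × ℂ in 𝓝 (t₀, z₀, z₀), divDiff (F z.1) N z.2.1 z.2.2 ≠ 0 :=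
    hc.continuousAt.eventually_ne h2
  rw [nhds_prod_eq, nhds_prod_eq] at h3
  obtain ⟨U, hU, W, hW, h4⟩ := Filter.mem_prod_iff.1 h3
  obtain ⟨V, hV, V', hV', h5⟩ := Filter.mem_prod_iff.1 hW
  refine ⟨U, hU, V ∩ V', Filter.inter_mem hV hV', fun t ht z hz z' hz' e e' => ?_⟩
  have h6 : divDiff (F t) N z z' ≠ 0 :=
    h4 (Set.mk_mem_prod ht (h5 (Set.mk_mem_prod hz.1 hz'.2)))
  have h7 := divDiff_spec (F t) N (hN t) z z'
  rw [e, e', sub_zero] at h7
  have h8 := (mul_eq_zero.1 h7.symm).resolve_left h6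
  linear_combination h8

end Pool.Agent.W481
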