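import Pool.Agent.W481.SchemeTop
import Pool.Agent.W481.Roots

/-!
Finite étale algebras give finite covering maps on complex points.
-/

open Polynomial Topology

namespace Pool.Agent.W481

section

variable {A B : Type} [CommRing A] [Algebra ℂ A] [CommRing B] [Algebra ℂ B]

instance : T2Space (Sp A) := by
  refine T2Space.of_injective_continuous (f := fun (φ : Sp A) (a : A) => φ.hom a) ?_
    (continuous_pi fun a => continuous_sp_eval a)
  intro φ ψ h
  exact AlgHom.ext fun a => congrFun h a

theorem continuous_comap (f : A →ₐ[ℂ] B) : Continuous (Sp.comap f) :=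
  continuous_to_sp _ fun a => continuous_sp_eval (f a)

theorem sp_map_contPoly (P : A[X]) : ContPoly fun φ : Sp A => P.map φ.hom.toRingHom := by
  refine ⟨fun i => ?_, P.natDegree, fun φ => natDegree_map_le⟩
  simp only [coeff_map]
  exact continuous_sp_eval (P.coeff i)

theorem isProperMap_comap [Algebra A B] [IsScalarTower ℂ A B] [Algebra.IsIntegral A B] :
    IsProperMap (Sp.comap (IsScalarTower.toAlgHom ℂ A B)) := by
  rw [isProperMap_iff_ultrafilter]
  refine ⟨continuous_comap _, fun 𝒰 φ hφ => ?_⟩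
  -- values converge
  have h1 : ∀ b : B, ∃ z : ℂ, Filter.Tendsto (fun χ : Sp B => χ.hom b) 𝒰 (𝓝 z) := by
    intro b
    obtain ⟨P, hP, hPb⟩ := Algebra.IsIntegral.isIntegral (R := A) b
    let c : ℝ := 1 + ∑ i ∈ Finset.range P.natDegree, (‖φ.hom (P.coeff i)‖ + 1)
    have hroot : ∀ χ : Sp B, (P.map (Sp.comap (IsScalarTower.toAlgHom ℂ A B) χ).hom.toRingHom).eval
        (χ.hom b) = 0 := by
      intro χ
      have h2 := congrArg χ.hom hPb
      rw [map_zero] at h2
      rw [eval_map]
      rw [← h2]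
      show _ = χ.hom.toRingHom (eval₂ (algebraMap A B) b P)
      rw [hom_eval₂]
      rfl
    have hev : ∀ᶠ χ : Sp B in (𝒰 : Filter (Sp B)), ‖χ.hom b‖ ≤ c := by
      have h3 : ∀ i, ∀ᶠ χ : Sp B in (𝒰 : Filter (Sp B)),
          ‖(Sp.comap (IsScalarTower.toAlgHom ℂ A B) χ).hom (P.coeff i)‖ <
            ‖φ.hom (P.coeff i)‖ + 1 := by
        intro i
        have h4 : Filter.Tendsto (fun χ : Sp B =>
            ‖(Sp.comap (IsScalarTower.toAlgHom ℂ A B) χ).hom (P.coeff i)‖) 𝒰
            (𝓝 ‖φ.hom (P.coeff i)‖) :=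
          ((continuous_sp_eval (P.coeff i)).norm.continuousAt (x := φ)).tendsto.comp hφ
        exact h4.eventually_lt_const (by linarith)
      have h5 : ∀ᶠ χ : Sp B in (𝒰 : Filter (Sp B)), ∀ i ∈ Finset.range P.natDegree,
          ‖(Sp.comap (IsScalarTower.toAlgHom ℂ A B) χ).hom (P.coeff i)‖ <
            ‖φ.hom (P.coeff i)‖ + 1 :=
        (Finset.eventually_all _).2 fun i _ => h3 i
      filter_upwards [h5] with χ hχ
      have h6 := root_bound _ (hP.map (Sp.comap (IsScalarTower.toAlgHom ℂ A B) χ).hom.toRingHom)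
        _ (hroot χ)
      refine h6.trans ?_
      rw [hP.natDegree_map]
      simp only [coeff_map]
      exact add_le_add le_rfl (Finset.sum_le_sum fun i hi => (hχ i hi).le)
    have hcomp : IsCompact (Metric.closedBall (0 : ℂ) c) := isCompact_closedBall _ _
    obtain ⟨z, -, hz⟩ := hcomp.ultrafilter_le_nhds (𝒰.map fun χ : Sp B => χ.hom b) (by
      rw [Filter.le_principal_iff]
      show ∀ᶠ χ : Sp B in (𝒰 : Filter (Sp B)), χ.hom b ∈ Metric.closedBall (0 : ℂ) c
      filter_upwards [hev] with χ hχ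
      simpa using hχ)
    exact ⟨z, hz⟩
  choose ψ hψ using h1
  have hmap : ∀ a : A, ψ (algebraMap A B a) = φ.hom a := by
    intro a
    refine tendsto_nhds_unique (hψ (algebraMap A B a)) ?_
    exact ((continuous_sp_eval a).continuousAt (x := φ)).tendsto.comp hφ
  let Ψ : B →ₐ[ℂ] ℂ :=
    { toFun := ψ
      map_one' := tendsto_nhds_unique (hψ 1) (by
        simp only [map_one]
        exact tendsto_const_nhds)
      map_mul' := fun a b => tendsto_nhds_unique (hψ (a * b)) (by
        simp only [map_mul]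
        exact (hψ a).mul (hψ b))
      map_zero' := tendsto_nhds_unique (hψ 0) (by
        simp only [map_zero]
        exact tendsto_const_nhds)
      map_add' := fun a b => tendsto_nhds_unique (hψ (a + b)) (by
        simp only [map_add]
        exact (hψ a).add (hψ b))
      commutes' := fun z => by
        show ψ (algebraMap ℂ B z) = z
        rw [IsScalarTower.algebraMap_apply ℂ A B, hmap]
        exact φ.hom.commutes z }
  let Ψ' : Sp B := Ψ
  refine ⟨Ψ', ?_, ?_⟩
  · exact AlgHom.ext fun a => hmap a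
  · have hind : IsInducing (fun (φ : Sp B) (a : B) => φ.hom a) := ⟨rfl⟩
    rw [hind.nhds_eq_comap, ← Filter.tendsto_iff_comap]
    exact tendsto_pi_nhds.2 fun b => hψ b

/-- A standard étale neighbourhood of a point. -/
theorem exists_standard_nhd [Algebra A B] [IsScalarTower ℂ A B] [Algebra.Etale A B] (ψ₀ : Sp B) :
    ∃ (f : B) (_ : StandardEtalePresentation A (Localization.Away f)), ψ₀.hom f ≠ 0 := by
  let Q : Ideal B := RingHom.ker ψ₀.hom.toRingHom
  have hQ : Q.IsPrime := RingHom.ker_isPrime _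
  obtain ⟨f, hf, hS⟩ := Algebra.IsEtaleAt.exists_isStandardEtale (R := A) Q
  exact ⟨f, hS.nonempty_standardEtalePresentation.some, hf⟩

/-- extension of a point to a localisation -/
noncomputable def extAway (f : B) (χ : Sp B) (h : χ.hom f ≠ 0) : Localization.Away f →ₐ[ℂ] ℂ :=
  IsLocalization.liftAlgHom (M := Submonoid.powers f) (f := χ.hom) (by
    rintro ⟨_, n, rfl⟩
    simpa using fun h' => absurd h' h)

theorem extAway_algebraMap (f : B) (χ : Sp B) (h : χ.hom f ≠ 0) (b : B) :
    extAway f χ h (algebraMap B (Localization.Away f) b) = χ.hom b := by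
  rw [extAway, IsLocalization.liftAlgHom_apply, IsLocalization.lift_eq]
  rfl

theorem exists_point_above [Algebra A B] [IsScalarTower ℂ A B] (f : B)
    (P : StandardEtalePresentation A (Localization.Away f)) (φ : Sp A) (t : ℂ)
    (h0 : (P.f.map φ.hom.toRingHom).eval t = 0) (h1 : (P.g.map φ.hom.toRingHom).eval t ≠ 0) :
    ∃ χ : Sp B, Sp.comap (IsScalarTower.toAlgHom ℂ A B) χ = φ ∧
      ∀ (b : B) (q : A[X]) (n : ℕ), algebraMap B (Localization.Away f) b * (aeval P.x P.g) ^ n =
        aeval P.x q → χ.hom b * ((P.g.map φ.hom.toRingHom).eval t) ^ n =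
          (q.map φ.hom.toRingHom).eval t := by
  let alg : Algebra A ℂ := φ.hom.toRingHom.toAlgebra
  have hal : algebraMap A ℂ = φ.hom.toRingHom := rfl
  have hae : ∀ q : A[X], aeval t q = (q.map φ.hom.toRingHom).eval t := by
    intro q
    rw [aeval_def, eval_map, hal]
  have hmap : P.P.HasMap t := by
    refine ⟨?_, ?_⟩
    · rw [hae]
      exact h0
    · rw [hae]
      exact isUnit_iff_ne_zero.2 h1
  let r : Localization.Away f →ₐ[A] ℂ := (P.P.lift t hmap).comp P.equivRing.toAlgHom
  have hrx : r P.x = t := by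
    show P.P.lift t hmap (P.equivRing P.x) = t
    rw [P.equivRing_x, P.P.lift_X]
  let χ : B →ₐ[ℂ] ℂ :=
    { r.toRingHom.comp (algebraMap B (Localization.Away f)) with
      commutes' := fun z => by
        show r (algebraMap B (Localization.Away f) (algebraMap ℂ B z)) = z
        rw [IsScalarTower.algebraMap_apply ℂ A B, ← IsScalarTower.algebraMap_apply A B
          (Localization.Away f), r.commutes, hal]
        exact φ.hom.commutes z }
  have hχ : ∀ b, χ b = r (algebraMap B (Localization.Away f) b) := fun b => rfl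
  let χ' : Sp B := χ
  refine ⟨χ', ?_, ?_⟩
  · refine AlgHom.ext fun a => ?_
    show χ (algebraMap A B a) = φ.hom a
    rw [hχ, ← IsScalarTower.algebraMap_apply A B (Localization.Away f), r.commutes]
    rfl
  · intro b q n h
    have h2 := congrArg r h
    rw [map_mul, map_pow, ← aeval_algHom_apply, ← aeval_algHom_apply, hrx, hae, hae] at h2
    exact h2

theorem isLocalHomeomorph_comap [Algebra A B] [IsScalarTower ℂ A B] [Algebra.Etale A B] :
    IsLocalHomeomorph (Sp.comap (IsScalarTower.toAlgHom ℂ A B)) := by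
  set p : Sp B → Sp A := Sp.comap (IsScalarTower.toAlgHom ℂ A B) with hp
  have hpc : Continuous p := continuous_comap _
  -- local injectivity
  have hinj : ∀ ψ₀ : Sp B, ∃ N ∈ 𝓝 ψ₀, Set.InjOn p N := by
    intro ψ₀
    obtain ⟨f, P, hf⟩ := exists_standard_nhd (A := A) ψ₀
    obtain ⟨⟨b, ⟨_, n, rfl⟩⟩, hb⟩ := IsLocalization.surj (Submonoid.powers f) P.x
    let τ : Sp B → ℂ := fun χ => χ.hom b / χ.hom f ^ n
    have hτ : ∀ (χ : Sp B) (h : χ.hom f ≠ 0), extAway f χ h P.x = τ χ := by
      intro χ h
      have h1 := congrArg (extAway f χ h) hb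
      rw [map_mul, extAway_algebraMap, extAway_algebraMap] at h1
      rw [eq_div_iff (pow_ne_zero n h), ← h1]
      simp
    have hroot : ∀ (χ : Sp B) (h : χ.hom f ≠ 0), (P.f.map (p χ).hom.toRingHom).eval (τ χ) = 0 := by
      intro χ h
      rw [← hτ χ h, eval_map]
      have h1 := congrArg (extAway f χ h) P.hasMap.1
      rw [map_zero, aeval_def] at h1
      rw [← h1]
      show _ = (extAway f χ h).toRingHom (eval₂ _ _ _)
      rw [hom_eval₂]
      congr 1
      ext a
      show χ.hom (algebraMap A B a) = extAway f χ h (algebraMap A (Localization.Away f) a)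
      rw [IsScalarTower.algebraMap_apply A B (Localization.Away f), extAway_algebraMap]
    have hder : (P.f.map (p ψ₀).hom.toRingHom).derivative.eval (τ ψ₀) ≠ 0 := by
      rw [derivative_map, ← hτ ψ₀ hf, eval_map]
      have h1 := P.hasMap.isUnit_derivative_f.map (extAway f ψ₀ hf)
      have h2 : (extAway f ψ₀ hf) (aeval P.x P.f.derivative) =
          eval₂ (p ψ₀).hom.toRingHom (extAway f ψ₀ hf P.x) P.f.derivative := by
        rw [aeval_def]
        show (extAway f ψ₀ hf).toRingHom (eval₂ _ _ _) = _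
        rw [hom_eval₂]
        congr 1
        ext a
        show extAway f ψ₀ hf (algebraMap A (Localization.Away f) a) = ψ₀.hom (algebraMap A B a)
        rw [IsScalarTower.algebraMap_apply A B (Localization.Away f), extAway_algebraMap]
      rw [← h2]
      exact h1.ne_zero
    obtain ⟨U, hU, V, hV, huniq⟩ := (sp_map_contPoly P.f).eventually_root_unique (p ψ₀) (τ ψ₀) hder
    have hτc : ContinuousAt τ ψ₀ := ((continuous_sp_eval b).continuousAt).div
      ((continuous_sp_eval f).pow n).continuousAt (pow_ne_zero n hf)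
    refine ⟨{χ | χ.hom f ≠ 0} ∩ (p ⁻¹' U ∩ τ ⁻¹' V), ?_, ?_⟩
    · refine Filter.inter_mem ((continuous_sp_eval f).continuousAt.eventually_ne hf)
        (Filter.inter_mem (hpc.continuousAt hU) (hτc hV))
    · rintro χ ⟨h1, h2, h3⟩ χ' ⟨h1', h2', h3'⟩ h
      have h4 : τ χ = τ χ' := by
        refine huniq (p χ) h2 _ h3 _ h3' (hroot χ h1) ?_
        rw [h]
        exact hroot χ' h1'
      -- the two extensions agree
      have h5 : extAway f χ h1 = extAway f χ' h1' := by
        let alg : Algebra A ℂ := (p χ).hom.toRingHom.toAlgebra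
        have e1 : ∀ a, extAway f χ h1 (algebraMap A (Localization.Away f) a) = (p χ).hom a := by
          intro a
          rw [IsScalarTower.algebraMap_apply A B (Localization.Away f), extAway_algebraMap]
          rfl
        have e2 : ∀ a, extAway f χ' h1' (algebraMap A (Localization.Away f) a) = (p χ).hom a := by
          intro a
          rw [IsScalarTower.algebraMap_apply A B (Localization.Away f), extAway_algebraMap, h]
          rfl
        let g1 : Localization.Away f →ₐ[A] ℂ := { (extAway f χ h1).toRingHom with commutes' := e1 }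
        let g2 : Localization.Away f →ₐ[A] ℂ :=
          { (extAway f χ' h1').toRingHom with commutes' := e2 }
        have h6 : g1 = g2 := P.hom_ext (by
          show extAway f χ h1 P.x = extAway f χ' h1' P.x
          rw [hτ, hτ, h4])
        refine AlgHom.ext fun z => ?_
        exact congrArg (fun g : Localization.Away f →ₐ[A] ℂ => g z) h6
      refine AlgHom.ext fun c => ?_
      show χ.hom c = χ'.hom c
      rw [← extAway_algebraMap f χ h1, h5, extAway_algebraMap]
  -- openness
  have hopen : IsOpenMap p := by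
    refine isOpenMap_iff_nhds_le.2 fun ψ₀ => ?_
    obtain ⟨f, P, hf⟩ := exists_standard_nhd (A := A) ψ₀
    let φ₀ := p ψ₀
    let t₀ := extAway f ψ₀ hf P.x
    have hev : ∀ q : A[X], extAway f ψ₀ hf (aeval P.x q) =
        (q.map φ₀.hom.toRingHom).eval t₀ := by
      intro q
      rw [aeval_def, eval_map]
      show (extAway f ψ₀ hf).toRingHom (eval₂ _ _ _) = _
      rw [hom_eval₂]
      congr 1
      ext a
      show extAway f ψ₀ hf (algebraMap A (Localization.Away f) a) = ψ₀.hom (algebraMap A B a)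
      rw [IsScalarTower.algebraMap_apply A B (Localization.Away f), extAway_algebraMap]
    have h00 : (P.f.map φ₀.hom.toRingHom).eval t₀ = 0 := by
      rw [← hev, P.hasMap.1, map_zero]
    have h01 : (P.g.map φ₀.hom.toRingHom).eval t₀ ≠ 0 := by
      rw [← hev]
      exact (P.hasMap.2.map (extAway f ψ₀ hf)).ne_zero
    have hex : ∀ z : {z : Sp A × ℂ // (P.f.map z.1.hom.toRingHom).eval z.2 = 0 ∧
        (P.g.map z.1.hom.toRingHom).eval z.2 ≠ 0}, ∃ χ : Sp B, p χ = z.1.1 ∧
      ∀ (b : B) (q : A[X]) (n : ℕ), algebraMap B (Localization.Away f) b * (aeval P.x P.g) ^ n =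
        aeval P.x q → χ.hom b * ((P.g.map z.1.1.hom.toRingHom).eval z.1.2) ^ n =
          (q.map z.1.1.hom.toRingHom).eval z.1.2 := fun z =>
      exists_point_above f P z.1.1 z.1.2 z.2.1 z.2.2
    choose s hs1 hs2 using hex
    have hsc : Continuous s := by
      refine continuous_to_sp s fun b => ?_
      obtain ⟨q, n, hq⟩ := P.exists_mul_aeval_x_g_pow_eq_aeval_x (algebraMap B _ b)
      have h2 : ∀ z, (s z).hom b = (q.map z.1.1.hom.toRingHom).eval z.1.2 /
          ((P.g.map z.1.1.hom.toRingHom).eval z.1.2) ^ n := by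
        intro z
        rw [eq_div_iff (pow_ne_zero n z.2.2)]
        exact hs2 z b q n hq
      refine Continuous.congr ?_ fun z => (h2 z).symm
      exact ((sp_map_contPoly q).continuous_eval.comp continuous_subtype_val).div
        (((sp_map_contPoly P.g).continuous_eval.comp continuous_subtype_val).pow n)
        (fun z => pow_ne_zero n z.2.2)
    let z₀ : {z : Sp A × ℂ // (P.f.map z.1.hom.toRingHom).eval z.2 = 0 ∧
        (P.g.map z.1.hom.toRingHom).eval z.2 ≠ 0} := ⟨(φ₀, t₀), h00, h01⟩
    have hs0 : s z₀ = ψ₀ := by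
      refine AlgHom.ext fun b => ?_
      obtain ⟨q, n, hq⟩ := P.exists_mul_aeval_x_g_pow_eq_aeval_x (algebraMap B _ b)
      have h2 := hs2 z₀ b q n hq
      have h3 := congrArg (extAway f ψ₀ hf) hq
      rw [map_mul, map_pow, hev, hev, extAway_algebraMap] at h3
      exact mul_right_cancel₀ (pow_ne_zero n h01) (h2.trans h3.symm)
    intro N hN
    rw [Filter.mem_map] at hN
    have h4 : s ⁻¹' (p ⁻¹' N) ∈ 𝓝 z₀ := by
      apply hsc.continuousAt
      rw [hs0]
      exact hN
    rw [nhds_subtype_eq_comap, Filter.mem_comap] at h4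
    obtain ⟨W, hW, hWs⟩ := h4
    have h5 : ∀ᶠ z : Sp A × ℂ in 𝓝 (φ₀, t₀), (P.g.map z.1.hom.toRingHom).eval z.2 ≠ 0 :=
      (sp_map_contPoly P.g).continuous_eval.continuousAt.eventually_ne h01
    have h6 := Filter.inter_mem hW h5
    rw [nhds_prod_eq] at h6
    obtain ⟨U, hU, V, hV, hUV⟩ := Filter.mem_prod_iff.1 h6
    filter_upwards [hU, (sp_map_contPoly P.f).eventually_exists_root
      (fun φ => P.monic_f.map _) φ₀ t₀ h00 hV] with φ hφ hφ'
    obtain ⟨t, htV, ht⟩ := hφ'
    have h7 := hUV (Set.mk_mem_prod hφ htV)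
    have h8 : (⟨(φ, t), ht, h7.2⟩ : {z : Sp A × ℂ // (P.f.map z.1.hom.toRingHom).eval z.2 = 0 ∧
        (P.g.map z.1.hom.toRingHom).eval z.2 ≠ 0}) ∈ s ⁻¹' (p ⁻¹' N) := hWs h7.1
    have h9 : p (s ⟨(φ, t), ht, h7.2⟩) ∈ N := h8
    rwa [hs1] at h9
  rw [isLocalHomeomorph_iff_isOpenEmbedding_restrict]
  intro ψ₀
  obtain ⟨N, hN, hNi⟩ := hinj ψ₀
  refine ⟨interior N, interior_mem_nhds.2 hN, ?_⟩
  exact .of_continuous_injective_isOpenMap (hpc.comp continuous_subtype_val)
    (Set.injOn_iff_injective.1 (hNi.mono interior_subset)) (hopen.domRestrict isOpen_interior)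

theorem etale_covering [Algebra A B] [IsScalarTower ℂ A B] [Algebra.Etale A B]
    [Algebra.IsIntegral A B] :
    IsCoveringMap (Sp.comap (IsScalarTower.toAlgHom ℂ A B)) ∧
      ∀ x, (Sp.comap (IsScalarTower.toAlgHom ℂ A B) ⁻¹' {x}).Finite := by
  have h1 : IsProperMap (Sp.comap (IsScalarTower.toAlgHom ℂ A B)) := isProperMap_comap
  have h2 : IsLocalHomeomorph (Sp.comap (IsScalarTower.toAlgHom ℂ A B)) :=
    isLocalHomeomorph_comap
  have h3 : ∀ x, (Sp.comap (IsScalarTower.toAlgHom ℂ A B) ⁻¹' {x}).Finite := by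
    intro x
    have hc : IsCompact (Sp.comap (IsScalarTower.toAlgHom ℂ A B) ⁻¹' {x}) :=
      h1.isCompact_preimage isCompact_singleton
    refine hc.finite ?_
    exact IsDiscrete.of_openPartialHomeomorph _ subset_rfl fun e _ => by
      obtain ⟨φ, hφ, h⟩ := h2 e
      exact ⟨φ, hφ, h.symm⟩
  refine ⟨?_, h3⟩
  rw [isCoveringMap_iff_isCoveringMapOn_univ]
  refine h1.isClosedMap.isCoveringMapOn_of_isLocalHomeomorphOn (fun x _ => h3 x) ?_
  intro e _
  exact h2 e

end

end Pool.Agent.W481
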