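import Pool.Agent.W481.SchemeTop

/-!
The complex points of a product of complex schemes.
-/

open CategoryTheory CategoryTheory.Limits AlgebraicGeometry Topology
open scoped TensorProduct

namespace Pool.Agent.W481

theorem exists_affine_chart (X : Over SpecC) (x : Pt X) (O : X.left.Opens) (hO : x.Mem O) :
    ∃ (A : Type) (_ : CommRing A) (_ : Algebra ℂ A) (i : specOver A ⟶ X)
      (_ : IsOpenImmersion i.left),
      i.left.opensRange ≤ O ∧ ∃ φ : Sp A, (spPt φ).push i = x := by
  obtain ⟨U, hU, hxU, hUO⟩ := (X.left.isBasis_affineOpens.exists_subset_of_mem_open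
    (mem_iff_pt.1 hO) O.isOpen)
  obtain ⟨U, hU, rfl⟩ := hU
  have hU' : IsAffineOpen U := hU
  let g : CommRingCat.of ℂ ⟶ Γ(X.left, U) := Spec.preimage (hU'.fromSpec ≫ X.hom)
  have hg : Spec.map g = hU'.fromSpec ≫ X.hom := Spec.map_preimage _
  let alg : Algebra ℂ Γ(X.left, U) := g.hom.toAlgebra
  let i : specOver Γ(X.left, U) ⟶ X := Over.homMk hU'.fromSpec hg.symm
  have hi : IsOpenImmersion i.left := hU'.isOpenImmersion_fromSpec
  have hr : i.left.opensRange = U := hU'.opensRange_fromSpec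
  refine ⟨Γ(X.left, U), inferInstance, alg, i, hi, ?_, ?_⟩
  · rw [hr]
    exact hUO
  · obtain ⟨y, hy⟩ := exists_push_of_mem i x (by rw [hr]; exact mem_iff_pt.2 hxU)
    obtain ⟨φ, hφ⟩ := isHomeomorph_spPt.surjective y
    exact ⟨φ, by rw [hφ, hy]⟩

theorem sp_tensor_isOpenMap (A B : Type) [CommRing A] [Algebra ℂ A] [CommRing B] [Algebra ℂ B] :
    IsOpenMap (fun χ : Sp (A ⊗[ℂ] B) =>
      ((Sp.comap Algebra.TensorProduct.includeLeft χ : Sp A),
        (Sp.comap Algebra.TensorProduct.includeRight χ : Sp B))) := by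
  let g : Sp A × Sp B → Sp (A ⊗[ℂ] B) := fun z =>
    Algebra.TensorProduct.lift (Sp.hom z.1) (Sp.hom z.2)
      (fun _ _ => Commute.all _ _)
  have hg : Continuous g := by
    refine continuous_to_sp g fun t => ?_
    induction t using TensorProduct.induction_on with
    | zero =>
      have : (fun z : Sp A × Sp B => (Sp.hom (g z)) 0) = fun z => 0 := by
        ext z
        exact map_zero _
      rw [this]
      exact continuous_const
    | tmul a b =>
      have : (fun z : Sp A × Sp B => (Sp.hom (g z)) (a ⊗ₜ b)) =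
          fun z => (Sp.hom z.1) a * (Sp.hom z.2) b := by
        ext z
        exact Algebra.TensorProduct.lift_tmul _ _ (fun _ _ => Commute.all _ _) a b
      rw [this]
      exact ((continuous_sp_eval a).comp continuous_fst).mul
        ((continuous_sp_eval b).comp continuous_snd)
    | add t t' h h' =>
      have := h.add h'
      convert this using 2
      exact map_add _ t t'
  refine IsOpenMap.of_inverse hg ?_ ?_
  · intro z
    refine Prod.ext ?_ ?_
    · exact Algebra.TensorProduct.lift_comp_includeLeft _ _ (fun _ _ => Commute.all _ _)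
    · exact Algebra.TensorProduct.lift_comp_includeRight _ _ (fun _ _ => Commute.all _ _)
  · intro χ
    refine Algebra.TensorProduct.ext ?_ ?_
    · exact Algebra.TensorProduct.lift_comp_includeLeft _ _ (fun _ _ => Commute.all _ _)
    · exact Algebra.TensorProduct.lift_comp_includeRight _ _ (fun _ _ => Commute.all _ _)


theorem exists_tensor_pullback {A B : Type} [CommRing A] [Algebra ℂ A] [CommRing B] [Algebra ℂ B]
    {XL YL : Scheme.{0}} (f : XL ⟶ SpecC) (g : YL ⟶ SpecC) (i : Spec (.of A) ⟶ XL)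
    (j : Spec (.of B) ⟶ YL) [IsOpenImmersion i] [IsOpenImmersion j]
    (hi : Spec.map (CommRingCat.ofHom (algebraMap ℂ A)) = i ≫ f)
    (hj : Spec.map (CommRingCat.ofHom (algebraMap ℂ B)) = j ≫ g) :
    ∃ m : Spec (.of (A ⊗[ℂ] B)) ⟶ pullback f g, IsOpenImmersion m ∧
      m ≫ pullback.fst f g = Spec.map (CommRingCat.ofHom
        (Algebra.TensorProduct.includeLeft : A →ₐ[ℂ] A ⊗[ℂ] B).toRingHom) ≫ i ∧
      m ≫ pullback.snd f g = Spec.map (CommRingCat.ofHom
        (Algebra.TensorProduct.includeRight : B →ₐ[ℂ] A ⊗[ℂ] B).toRingHom) ≫ j ∧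
      m ≫ pullback.fst f g ≫ f = Spec.map (CommRingCat.ofHom (algebraMap ℂ (A ⊗[ℂ] B))) := by
  have hi' : Spec.map (CommRingCat.ofHom (algebraMap ℂ A)) ≫ 𝟙 _ = i ≫ f := by
    rw [Category.comp_id, hi]
  have hj' : Spec.map (CommRingCat.ofHom (algebraMap ℂ B)) ≫ 𝟙 _ = j ≫ g := by
    rw [Category.comp_id, hj]
  refine ⟨(pullbackSpecIso ℂ A B).inv ≫ pullback.map _ _ _ _ i j (𝟙 _) hi' hj',
    inferInstance, ?_, ?_, ?_⟩
  · rw [Category.assoc, pullback.lift_fst, pullbackSpecIso_inv_fst_assoc]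
    rfl
  · rw [Category.assoc, pullback.lift_snd, pullbackSpecIso_inv_snd_assoc]
    rfl
  · rw [Category.assoc, pullback.lift_fst_assoc, Category.assoc, pullbackSpecIso_inv_fst_assoc,
      ← hi, ← Spec.map_comp, ← CommRingCat.ofHom_comp]

theorem prod_homeo {X Y P : Over SpecC} (p : P ⟶ X) (q : P ⟶ Y)
    (hP : IsLimit (BinaryFan.mk p q)) :
    IsHomeomorph (fun a : Pt P => (a.push p, a.push q)) := by
  have hinj : Function.Injective (fun a : Pt P => (a.push p, a.push q)) := by
    intro s t h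
    exact BinaryFan.IsLimit.hom_ext hP (congrArg Prod.fst h) (congrArg Prod.snd h)
  have hsurj : Function.Surjective (fun a : Pt P => (a.push p, a.push q)) := by
    rintro ⟨x, y⟩
    let l := BinaryFan.IsLimit.lift' hP (show Over.mk (𝟙 SpecC) ⟶ X from x)
      (show Over.mk (𝟙 SpecC) ⟶ Y from y)
    exact ⟨l.1, Prod.ext l.2.1 l.2.2⟩
  refine ⟨(continuous_push p).prodMk (continuous_push q), ?_, hinj, hsurj⟩
  -- the fibre product
  let W : Over SpecC := Over.mk (pullback.fst X.hom Y.hom ≫ X.hom)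
  let a : W ⟶ X := Over.homMk (pullback.fst X.hom Y.hom) rfl
  let b : W ⟶ Y := Over.homMk (pullback.snd X.hom Y.hom) pullback.condition.symm
  let c : P ⟶ W := Over.homMk (pullback.lift p.left q.left (by rw [Over.w, Over.w])) (by
    show pullback.lift _ _ _ ≫ pullback.fst _ _ ≫ _ = _
    rw [← Category.assoc, pullback.lift_fst, Over.w])
  let d : W ⟶ P := (BinaryFan.IsLimit.lift' hP a b).1
  have hda : d ≫ p = a := (BinaryFan.IsLimit.lift' hP a b).2.1
  have hdb : d ≫ q = b := (BinaryFan.IsLimit.lift' hP a b).2.2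
  have hca : c ≫ a = p := by
    ext1
    exact pullback.lift_fst _ _ _
  have hcb : c ≫ b = q := by
    ext1
    exact pullback.lift_snd _ _ _
  have hcd : c ≫ d = 𝟙 P := by
    apply BinaryFan.IsLimit.hom_ext hP
    · show (c ≫ d) ≫ p = 𝟙 P ≫ p
      rw [Category.assoc, hda, hca, Category.id_comp]
    · show (c ≫ d) ≫ q = 𝟙 P ≫ q
      rw [Category.assoc, hdb, hcb, Category.id_comp]
  have hdc : d ≫ c = 𝟙 W := by
    ext1
    apply pullback.hom_ext
    · have h1 : (d ≫ c) ≫ a = a := by rw [Category.assoc, hca, hda]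
      have h2 : (d ≫ c).left ≫ pullback.fst X.hom Y.hom = pullback.fst X.hom Y.hom :=
        congrArg CommaMorphism.left h1
      rw [h2]
      exact (Category.id_comp _).symm
    · have h1 : (d ≫ c) ≫ b = b := by rw [Category.assoc, hcb, hdb]
      have h2 : (d ≫ c).left ≫ pullback.snd X.hom Y.hom = pullback.snd X.hom Y.hom :=
        congrArg CommaMorphism.left h1
      rw [h2]
      exact (Category.id_comp _).symm
  have hd : IsIso d := ⟨c, hdc, hcd⟩
  have hd' : IsIso d.left := by
    refine ⟨c.left, ?_, ?_⟩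
    · exact congrArg CommaMorphism.left hdc
    · exact congrArg CommaMorphism.left hcd
  refine isOpenMap_iff_nhds_le.2 fun z => ?_
  obtain ⟨A, _, _, i, hi, -, φ, hφ⟩ := exists_affine_chart X (z.push p) ⊤ (mem_top _)
  obtain ⟨B, _, _, j, hj, -, ψ, hψ⟩ := exists_affine_chart Y (z.push q) ⊤ (mem_top _)
  obtain ⟨m', hm', hm1, hm2, hm3⟩ := @exists_tensor_pullback A B _ _ _ _ _ _ X.hom Y.hom
    i.left j.left hi hj (Over.w i).symm (Over.w j).symm
  let n : specOver (A ⊗[ℂ] B) ⟶ W := Over.homMk m' hm3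
  let m : specOver (A ⊗[ℂ] B) ⟶ P := n ≫ d
  have hm : IsOpenImmersion m.left := by
    have : m.left = m' ≫ d.left := rfl
    rw [this]
    exact @IsOpenImmersion.comp _ _ _ _ _ hm' inferInstance
  have hmp : m ≫ p = specMap Algebra.TensorProduct.includeLeft ≫ i := by
    rw [show m ≫ p = n ≫ (d ≫ p) from Category.assoc _ _ _, hda]
    ext1
    exact hm1
  have hmq : m ≫ q = specMap Algebra.TensorProduct.includeRight ≫ j := by
    rw [show m ≫ q = n ≫ (d ≫ q) from Category.assoc _ _ _, hdb]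
    ext1
    exact hm2
  let G : Sp (A ⊗[ℂ] B) → Pt P := fun χ => (spPt χ).push m
  have hG : Continuous G := (continuous_push m).comp isHomeomorph_spPt.continuous
  have pc : ∀ {X Y Z : Over SpecC} (f : X ⟶ Y) (g : Y ⟶ Z) (x : Pt X),
    (x.push f).push g = x.push (f ≫ g) := fun {X _ _} f g x =>
      Category.assoc (show Over.mk (𝟙 SpecC) ⟶ X from x) f g
  have hFG : ((fun a : Pt P => (a.push p, a.push q)) ∘ G) =
      (Prod.map (fun φ : Sp A => (spPt φ).push i) (fun ψ : Sp B => (spPt ψ).push j)) ∘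
      (fun χ : Sp (A ⊗[ℂ] B) => ((Sp.comap Algebra.TensorProduct.includeLeft χ : Sp A),
        (Sp.comap Algebra.TensorProduct.includeRight χ : Sp B))) := by
    funext χ
    refine Prod.ext ?_ ?_
    · show ((spPt χ).push m).push p = (spPt (Sp.comap _ χ)).push i
      rw [pc, hmp, spPt_comap, pc]
    · show ((spPt χ).push m).push q = (spPt (Sp.comap _ χ)).push j
      rw [pc, hmq, spPt_comap, pc]
  have hopen : IsOpenMap ((fun a : Pt P => (a.push p, a.push q)) ∘ G) := by
    rw [hFG]
    exact ((((isOpenEmbedding_push i).isOpenMap.comp isHomeomorph_spPt.isOpenMap)).prodMap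
      ((isOpenEmbedding_push j).isOpenMap.comp isHomeomorph_spPt.isOpenMap)).comp
      (sp_tensor_isOpenMap A B)
  let χ : Sp (A ⊗[ℂ] B) := Algebra.TensorProduct.lift (Sp.hom φ)
    (Sp.hom ψ) (fun _ _ => Commute.all _ _)
  have hχ1 : Sp.comap Algebra.TensorProduct.includeLeft χ = φ :=
    Algebra.TensorProduct.lift_comp_includeLeft _ _ (fun _ _ => Commute.all _ _)
  have hχ2 : Sp.comap Algebra.TensorProduct.includeRight χ = ψ :=
    Algebra.TensorProduct.lift_comp_includeRight _ _ (fun _ _ => Commute.all _ _)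
  have hz : G χ = z := by
    apply hinj
    have := congrFun hFG χ
    refine this.trans (Prod.ext ?_ ?_)
    · show (spPt (Sp.comap _ χ)).push i = _
      rw [hχ1, hφ]
    · show (spPt (Sp.comap _ χ)).push j = _
      rw [hχ2, hψ]
  rw [← hz]
  calc 𝓝 (((fun a : Pt P => (a.push p, a.push q)) ∘ G) χ)
      ≤ Filter.map ((fun a : Pt P => (a.push p, a.push q)) ∘ G) (𝓝 χ) := hopen.nhds_le χ
    _ = Filter.map (fun a : Pt P => (a.push p, a.push q)) (Filter.map G (𝓝 χ)) :=
        (Filter.map_map).symm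
    _ ≤ _ := Filter.map_mono hG.continuousAt

end Pool.Agent.W481
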