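import Pool.Agent.W481.Paths
import Pool.Agent.W481.EtaleCov
import Pool.Agent.W481.Prod

/-!
Finite étale morphisms of complex schemes give finite covering maps on complex points.
-/

open CategoryTheory CategoryTheory.Limits AlgebraicGeometry Topology

namespace Pool.Agent.W481

theorem isCoveringMapOn_of_square {E X E' X' : Type} [TopologicalSpace E] [TopologicalSpace X]
    [TopologicalSpace E'] [TopologicalSpace X'] (F : E → X) (c : E' → X') (a : X' → X)
    (b : E' → E) (ha : IsOpenEmbedding a) (hb : IsOpenEmbedding b) (h : a ∘ c = F ∘ b)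
    (hr : Set.range b = F ⁻¹' Set.range a) (hc : IsCoveringMap c) :
    IsCoveringMapOn F (Set.range a) := by
  have h1 : IsOpen (F ⁻¹' Set.range a) := hr ▸ hb.isOpen_range
  refine IsCoveringMapOn.of_isCoveringMap_restrictPreimage _ ha.isOpen_range h1 ?_
  let α : X' ≃ₜ Set.range a := ha.toIsEmbedding.toHomeomorph
  let β : E' ≃ₜ F ⁻¹' Set.range a := hb.toIsEmbedding.toHomeomorph.trans (Homeomorph.setCongr hr)
  have h2 : (Set.range a).restrictPreimage F = (α ∘ c) ∘ β.symm := by
    funext e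
    obtain ⟨e', rfl⟩ := β.surjective e
    simp only [Function.comp_apply, Homeomorph.symm_apply_apply]
    refine Subtype.ext ?_
    exact (congrFun h e').symm
  rw [h2]
  exact (hc.homeomorph_comp α).comp_homeomorph β.symm

theorem exists_cover_chart_aux {ZL XL : Scheme.{0}} (s : XL ⟶ SpecC) (f : ZL ⟶ XL)
    (hf : IsFinite f) (A : Type) [CommRing A] [Algebra ℂ A] (i : Spec (.of A) ⟶ XL)
    (hi : IsOpenImmersion i) (his : i ≫ s = Spec.map (CommRingCat.ofHom (algebraMap ℂ A))) :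
    ∃ (B : Type) (_ : CommRing B) (_ : Algebra ℂ B) (_ : Algebra A B) (_ : IsScalarTower ℂ A B)
      (j : Spec (.of B) ⟶ ZL) (_ : IsOpenImmersion j),
      j ≫ f = Spec.map (CommRingCat.ofHom (algebraMap A B)) ≫ i ∧
      j ≫ f ≫ s = Spec.map (CommRingCat.ofHom (algebraMap ℂ B)) ∧
      Module.Finite A B ∧ (Etale f → Algebra.Etale A B) ∧
      ∀ (a : SpecC ⟶ ZL) (b : SpecC ⟶ Spec (.of A)), a ≫ f = b ≫ i →
        ∃ c : SpecC ⟶ Spec (.of B), c ≫ j = a := by
  let W : Scheme.{0} := pullback f i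
  let p1 : W ⟶ ZL := pullback.fst f i
  let p2 : W ⟶ Spec (.of A) := pullback.snd f i
  have hp2 : IsFinite p2 := inferInstanceAs (IsFinite (pullback.snd f i))
  have hW : IsAffine W := isAffine_of_isAffineHom p2
  let e : W ≅ Spec Γ(W, ⊤) := W.isoSpec
  let φ : CommRingCat.of A ⟶ Γ(W, ⊤) := Spec.preimage (e.inv ≫ p2)
  have hφ : Spec.map φ = e.inv ≫ p2 := Spec.map_preimage _
  let _ : Algebra A Γ(W, ⊤) := φ.hom.toAlgebra
  let _ : Algebra ℂ Γ(W, ⊤) := (φ.hom.comp (algebraMap ℂ A)).toAlgebra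
  have hst : IsScalarTower ℂ A Γ(W, ⊤) := IsScalarTower.of_algebraMap_eq' rfl
  have hcond : p1 ≫ f = p2 ≫ i := pullback.condition
  have h1 : (e.inv ≫ p1) ≫ f = Spec.map φ ≫ i := by
    rw [hφ, Category.assoc, hcond, Category.assoc]
  refine ⟨Γ(W, ⊤), inferInstance, inferInstance, inferInstance, hst, e.inv ≫ p1, ?_, h1, ?_, ?_,
    ?_, ?_⟩
  · exact inferInstanceAs (IsOpenImmersion (e.inv ≫ pullback.fst f i))
  · rw [← Category.assoc, h1, Category.assoc, his, ← Spec.map_comp]
    rfl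
  · have h2 : IsFinite (Spec.map φ) := by
      rw [hφ]
      infer_instance
    exact (IsFinite.SpecMap_iff φ).1 h2
  · intro hE
    have h3 : Etale p2 := inferInstanceAs (Etale (pullback.snd f i))
    have h2 : Etale (Spec.map φ) := by
      rw [hφ]
      infer_instance
    exact (HasRingHomProperty.Spec_iff (P := @Etale)).1 h2
  · intro a b hab
    refine ⟨pullback.lift a b hab ≫ e.hom, ?_⟩
    rw [Category.assoc, e.hom_inv_id_assoc]
    exact pullback.lift_fst _ _ _

theorem exists_cover_chart {Z X : Over SpecC} (f : Z ⟶ X) (hf : IsFinite f.left) (A : Type)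
    [CommRing A] [Algebra ℂ A] (i : specOver A ⟶ X) (hi : IsOpenImmersion i.left) :
    ∃ (B : Type) (_ : CommRing B) (_ : Algebra ℂ B) (_ : Algebra A B) (_ : IsScalarTower ℂ A B)
      (j : specOver B ⟶ Z) (_ : IsOpenImmersion j.left),
      specMap (IsScalarTower.toAlgHom ℂ A B) ≫ i = j ≫ f ∧ Module.Finite A B ∧
      (Etale f.left → Algebra.Etale A B) ∧
      ∀ (y : Pt Z) (x' : Pt (specOver A)), y.push f = x'.push i →
        ∃ w : Pt (specOver B), w.push j = y := by
  obtain ⟨B, _, _, _, hst, j0, hj0, h1, h2, h3, h4, h5⟩ := exists_cover_chart_aux X.hom f.left hf A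
    i.left hi (Over.w i)
  have hfX : f.left ≫ X.hom = Z.hom := Over.w f
  rw [hfX] at h2
  refine ⟨B, inferInstance, inferInstance, inferInstance, hst, Over.homMk j0 h2, hj0, ?_, h3, h4,
    ?_⟩
  · ext1
    exact h1.symm
  · intro y x' h
    obtain ⟨c, hc⟩ := h5 y.mor x'.mor (congrArg Pt.mor h)
    refine ⟨Pt.mk' c ?_, ?_⟩
    · show c ≫ Spec.map _ = _
      rw [← h2, ← Category.assoc, hc]
      exact pt_mor_hom y
    · exact Pt.ext_mor hc

theorem cover_main {Z X : Over SpecC} (f : Z ⟶ X) (h : Etale f.left) (h' : IsFinite f.left) :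
    IsCoveringMap (pushC f) ∧ ∀ x : Pt X, (pushC f ⁻¹' {x}).Finite := by
  have key : ∀ x : Pt X, ∃ s : Set (Pt X), x ∈ s ∧ IsCoveringMapOn (pushC f) s ∧
      (pushC f ⁻¹' {x}).Finite := by
    intro x
    obtain ⟨A, _, _, i, hi, -, φ, hφ⟩ := exists_affine_chart X x ⊤ (mem_top _)
    obtain ⟨B, _, _, _, hst, j, hj, h1, h2, h3, h4⟩ := exists_cover_chart f h' A i hi
    have := h3 h
    obtain ⟨hc, hfin⟩ := etale_covering (A := A) (B := B)
    let a : Sp A → Pt X := fun φ => (spPt φ).push i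
    let b : Sp B → Pt Z := fun φ => (spPt φ).push j
    have ha : IsOpenEmbedding a := (isOpenEmbedding_push i).comp
      isHomeomorph_spPt.isOpenEmbedding
    have hb : IsOpenEmbedding b := (isOpenEmbedding_push j).comp
      isHomeomorph_spPt.isOpenEmbedding
    have pc : ∀ {X Y Z : Over SpecC} (f : X ⟶ Y) (g : Y ⟶ Z) (x : Pt X),
      (x.push f).push g = x.push (f ≫ g) := fun {X _ _} f g x =>
        Category.assoc (show Over.mk (𝟙 SpecC) ⟶ X from x) f g
    have hab : a ∘ Sp.comap (IsScalarTower.toAlgHom ℂ A B) = (pushC f) ∘ b := by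
      funext ψ
      show (spPt (Sp.comap _ ψ)).push i = ((spPt ψ).push j).push f
      rw [spPt_comap, pc, pc, h1]
    have hr : Set.range b = (pushC f) ⁻¹' Set.range a := by
      ext y
      constructor
      · rintro ⟨ψ, rfl⟩
        exact ⟨_, congrFun hab ψ⟩
      · rintro ⟨φ', hφ'⟩
        obtain ⟨w, hw⟩ := h4 y (spPt φ') hφ'.symm
        obtain ⟨ψ, rfl⟩ := isHomeomorph_spPt.surjective w
        exact ⟨ψ, hw⟩
    refine ⟨Set.range a, ⟨φ, hφ⟩, isCoveringMapOn_of_square _ _ a b ha hb hab hr hc, ?_⟩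
    refine ((hfin φ).image b).subset ?_
    intro y hy
    have hy' : pushC f y = x := hy
    have : y ∈ Set.range b := by
      rw [hr]
      exact ⟨φ, hφ.trans hy'.symm⟩
    obtain ⟨ψ, rfl⟩ := this
    refine ⟨ψ, ?_, rfl⟩
    apply ha.injective
    exact (congrFun hab ψ).trans (hy'.trans hφ.symm)
  refine ⟨?_, fun x => (key x).choose_spec.2.2⟩
  intro x
  obtain ⟨s, hxs, hs, -⟩ := key x
  exact hs x hxs

end Pool.Agent.W481
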