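import Pool.Agent.W481.SecLem
import Pool.Agent.W378.F4C

/-!
The existence of simultaneously divisible classes of paths on a branched cover of the line.
-/

open Topology

namespace Pool.Agent.W481

theorem const_of_exp {Δ : Set ℂ} (hΔ : IsOpen Δ) (hΔ' : IsPreconnected Δ) {F : ℂ → ℂ}
    (hF : DifferentiableOn ℂ F Δ) (c : ℂ) (h : ∀ s ∈ Δ, Complex.exp (F s) = c) {s s' : ℂ}
    (hs : s ∈ Δ) (hs' : s' ∈ Δ) : F s = F s' := by
  refine hΔ.is_const_of_deriv_eq_zero hΔ' hF ?_ hs hs'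
  intro t ht
  have h1 : HasDerivAt F (deriv F t) t := (hF.differentiableAt (hΔ.mem_nhds ht)).hasDerivAt
  have h2 := h1.cexp
  have h3 : HasDerivAt (fun s => Complex.exp (F s)) 0 t := by
    refine (hasDerivAt_const t c).congr_of_eventuallyEq ?_
    filter_upwards [hΔ.mem_nhds ht] with s hs using h s hs
  have h4 := h2.unique h3
  rcases mul_eq_zero.1 h4 with h5 | h5
  · exact absurd h5 (Complex.exp_ne_zero _)
  · exact h5

section Hol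

variable {Y : Type} [TopologicalSpace Y] {pr : Y → ℂ} {y₀ : Y}

theorem Hol.zero : Hol pr (0 : ∀ t : Y, PH y₀ t → ℂ) := by
  intro Δ σ hs s₀ h₀ q
  exact ⟨0, differentiableOn_const _, fun s _ γ _ => rfl⟩

theorem Hol.add {h h' : ∀ t : Y, PH y₀ t → ℂ} (hh : Hol pr h) (hh' : Hol pr h') :
    Hol pr (h + h') := by
  intro Δ σ hs s₀ h₀ q
  obtain ⟨H, H1, H2⟩ := hh Δ σ hs s₀ h₀ q
  obtain ⟨H', H1', H2'⟩ := hh' Δ σ hs s₀ h₀ q
  exact ⟨H + H', H1.add H1', fun s hs γ hγ => congrArg₂ (· + ·) (H2 s hs γ hγ) (H2' s hs γ hγ)⟩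

theorem Hol.neg {h : ∀ t : Y, PH y₀ t → ℂ} (hh : Hol pr h) : Hol pr (-h) := by
  intro Δ σ hs s₀ h₀ q
  obtain ⟨H, H1, H2⟩ := hh Δ σ hs s₀ h₀ q
  exact ⟨-H, H1.neg, fun s hs γ hγ => congrArg Neg.neg (H2 s hs γ hγ)⟩

theorem Hol.div {h : ∀ t : Y, PH y₀ t → ℂ} (hh : Hol pr h) (c : ℂ) :
    Hol pr (fun t q => h t q / c) := by
  intro Δ σ hs s₀ h₀ q
  obtain ⟨H, H1, H2⟩ := hh Δ σ hs s₀ h₀ q
  exact ⟨fun s => H s / c, H1.div_const c, fun s hs γ hγ => congrArg (· / c) (H2 s hs γ hγ)⟩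

theorem Gro1.zero {b : Polynomial ℂ} : Gro1 pr b (0 : ∀ t : Y, PH y₀ t → ℂ) :=
  ⟨1, 0, 0, fun t q _ => by simp⟩

theorem Gro1.add {b : Polynomial ℂ} {h h' : ∀ t : Y, PH y₀ t → ℂ} (hh : Gro1 pr b h)
    (hh' : Gro1 pr b h') : Gro1 pr b (h + h') := by
  obtain ⟨C, K, K', H⟩ := hh
  obtain ⟨D, L, L', H'⟩ := hh'
  refine ⟨C * D, K + L, K' + L', fun t q ht => ?_⟩
  have h1 := H t q ht
  have h2 := H' t q ht
  have h3 : ‖Complex.exp ((h + h') t q)‖ = ‖Complex.exp (h t q)‖ * ‖Complex.exp (h' t q)‖ := by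
    rw [Pi.add_apply, Pi.add_apply, Complex.exp_add, norm_mul]
  rw [h3]
  calc ‖Complex.exp (h t q)‖ * ‖Complex.exp (h' t q)‖ * ‖b.eval (pr t)‖ ^ (K + L)
      = (‖Complex.exp (h t q)‖ * ‖b.eval (pr t)‖ ^ K) *
        (‖Complex.exp (h' t q)‖ * ‖b.eval (pr t)‖ ^ L) := by ring
    _ ≤ (C * (1 + ‖pr t‖) ^ K') * (D * (1 + ‖pr t‖) ^ L') :=
        mul_le_mul h1 h2 (by positivity) (le_trans (by positivity) h1)
    _ = C * D * (1 + ‖pr t‖) ^ (K' + L') := by ring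

theorem eval_bound (b : Polynomial ℂ) : ∃ C : ℝ, 0 ≤ C ∧
    ∀ s : ℂ, ‖b.eval s‖ ≤ C * (1 + ‖s‖) ^ b.natDegree := by
  refine ⟨∑ i ∈ Finset.range (b.natDegree + 1), ‖b.coeff i‖, by positivity, fun s => ?_⟩
  rw [Polynomial.eval_eq_sum_range, Finset.sum_mul]
  refine (norm_sum_le _ _).trans (Finset.sum_le_sum fun i hi => ?_)
  rw [norm_mul, norm_pow]
  refine mul_le_mul_of_nonneg_left ?_ (norm_nonneg _)
  have h1 : i ≤ b.natDegree := Nat.lt_succ_iff.1 (Finset.mem_range.1 hi)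
  calc ‖s‖ ^ i ≤ (1 + ‖s‖) ^ i := by gcongr; linarith [norm_nonneg s]
    _ ≤ (1 + ‖s‖) ^ b.natDegree := pow_le_pow_right₀ (by linarith [norm_nonneg s]) h1

theorem Gro1.div {b : Polynomial ℂ} {h : ∀ t : Y, PH y₀ t → ℂ} (hh : Gro1 pr b h) (ℓ : ℕ)
    (hl : ℓ ≠ 0) : Gro1 pr b (fun t q => h t q / ℓ) := by
  obtain ⟨C, K, K', H⟩ := hh
  obtain ⟨D, hD, HD⟩ := eval_bound b
  refine ⟨|C| + D ^ K, K, K' + b.natDegree * K, fun t q ht => ?_⟩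
  have h1 := H t q ht
  have h2 : ‖Complex.exp (h t q / ℓ)‖ ≤ 1 + ‖Complex.exp (h t q)‖ := by
    have h3 : ‖Complex.exp (h t q)‖ = ‖Complex.exp (h t q / ℓ)‖ ^ ℓ := by
      rw [← norm_pow, ← Complex.exp_nat_mul]
      congr 2
      field_simp
    rw [h3]
    rcases le_total ‖Complex.exp (h t q / ℓ)‖ 1 with h4 | h4
    · have : 0 ≤ ‖Complex.exp (h t q / ℓ)‖ ^ ℓ := by positivity
      linarith
    · have := le_self_pow₀ h4 hl
      linarith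
  have h5 : (1:ℝ) ≤ 1 + ‖pr t‖ := by linarith [norm_nonneg (pr t)]
  calc ‖Complex.exp (h t q / ℓ)‖ * ‖b.eval (pr t)‖ ^ K
      ≤ (1 + ‖Complex.exp (h t q)‖) * ‖b.eval (pr t)‖ ^ K := by gcongr
    _ = ‖Complex.exp (h t q)‖ * ‖b.eval (pr t)‖ ^ K + ‖b.eval (pr t)‖ ^ K := by ring
    _ ≤ |C| * (1 + ‖pr t‖) ^ K' + (D * (1 + ‖pr t‖) ^ b.natDegree) ^ K := by
        refine add_le_add (h1.trans ?_) ?_
        · exact mul_le_mul_of_nonneg_right (le_abs_self C) (by positivity)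
        · exact pow_le_pow_left₀ (norm_nonneg _) (HD _) K
    _ = |C| * (1 + ‖pr t‖) ^ K' + D ^ K * (1 + ‖pr t‖) ^ (b.natDegree * K) := by
        rw [mul_pow, ← pow_mul]
    _ ≤ |C| * (1 + ‖pr t‖) ^ (K' + b.natDegree * K) +
        D ^ K * (1 + ‖pr t‖) ^ (K' + b.natDegree * K) := by
        refine add_le_add (mul_le_mul_of_nonneg_left (pow_le_pow_right₀ h5 (by omega))
          (abs_nonneg _)) (mul_le_mul_of_nonneg_left (pow_le_pow_right₀ h5 (by omega))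
          (by positivity))
    _ = (|C| + D ^ K) * (1 + ‖pr t‖) ^ (K' + b.natDegree * K) := by ring

theorem exists_theta (hpr : IsLocalHomeomorph pr) {h : ∀ t : Y, PH y₀ t → ℂ} (hh : Hol pr h)
    (g : LG y₀) (hg : ∀ t (q : PH y₀ t), Complex.exp (h t (g • q)) = Complex.exp (h t q)) :
    ∃ k : ℤ, ∀ t (q : PH y₀ t), h t (g • q) = h t q + 2 * Real.pi * Complex.I * k := by
  have key := W378.F4C.path_space_const (ι := {p : Set ℂ × (ℂ → Y) // Sec pr p.1 p.2})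
    (fun i => i.1.2 '' i.1.1) (fun i => i.2.isOpen_image hpr)
    (fun y => by
      obtain ⟨Δ, σ, hs, h1, h2⟩ := exists_sec hpr y
      exact ⟨⟨(Δ, σ), hs⟩, ⟨_, h1, h2⟩⟩) y₀
    (fun t q => h t (g • q) - h t q) ?_
  · have h1 := hg y₀ (.refl y₀)
    rw [Complex.exp_eq_exp_iff_exists_int] at h1
    obtain ⟨k, hk⟩ := h1
    refine ⟨k, fun t q => ?_⟩
    have h2 : h t (g • q) - h t q = h y₀ (g • (.refl y₀)) - h y₀ (.refl y₀) := key t q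
    rw [hk] at h2
    linear_combination h2
  · rintro ⟨⟨Δ, σ⟩, hs⟩ t t' q γ hγ
    simp only at hγ hs ⊢
    obtain ⟨s₀, h₀, rfl⟩ : t ∈ σ '' Δ := by simpa using hγ 0
    obtain ⟨s₁, h₁, rfl⟩ : t' ∈ σ '' Δ := by simpa using hγ 1
    obtain ⟨H, H1, H2⟩ := hh Δ σ hs s₀ h₀ q
    obtain ⟨H', H1', H2'⟩ := hh Δ σ hs s₀ h₀ (g • q)
    have e1 : h (σ s₁) (g • (q.trans (.mk γ))) - h (σ s₁) (q.trans (.mk γ)) = (H' - H) s₁ := by
      rw [LG_smul_trans, H2 s₁ h₁ γ hγ, H2' s₁ h₁ γ hγ, Pi.sub_apply]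
    have hr : ∀ τ, (Path.refl (σ s₀)) τ ∈ σ '' Δ := fun τ => ⟨s₀, h₀, rfl⟩
    have e2 : h (σ s₀) (g • q) - h (σ s₀) q = (H' - H) s₀ := by
      have h3 := H2 s₀ h₀ (Path.refl _) hr
      have h3' := H2' s₀ h₀ (Path.refl _) hr
      rw [Path.Homotopic.Quotient.mk_refl, PH_trans_refl] at h3 h3'
      rw [h3, h3', Pi.sub_apply]
    rw [e1, e2]
    refine const_of_exp hs.isOpen hs.convex.isPreconnected (H1'.sub H1) 1 ?_ h₁ h₀
    intro s hss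
    obtain ⟨δ, hδ⟩ := hs.exists_path h₀ hss
    rw [Pi.sub_apply, ← H2 s hss δ hδ, ← H2' s hss δ hδ, ← LG_smul_trans, Complex.exp_sub, hg]
    exact div_self (Complex.exp_ne_zero _)

end Hol

end Pool.Agent.W481
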