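import Pool.Agent.W481.LocalLine

open CategoryTheory CategoryTheory.Limits AlgebraicGeometry Topology

namespace Pool.Agent.W481

theorem conn_main (X : Over SpecC) (hX : Smooth X.hom) (hc : ConnectedSpace X.left)
    (x y : Pt X) : ∃ p : ℕ → PH x y, Good p := by
  have hpre : PreconnectedSpace (Pt X) := W327.F4.pt_preconnected X hX hc
  have hcl : IsClopen {y : Pt X | ∃ p : ℕ → PH x y, Good p} := by
    constructor
    · rw [← isOpen_compl_iff, isOpen_iff_mem_nhds]
      intro y hy
      filter_upwards [local_good X hX y] with y' hy' hy''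
      obtain ⟨p, hp⟩ := hy'
      obtain ⟨p', hp'⟩ := hy''
      exact hy ⟨_, good_trans hp' (good_symm hp)⟩
    · rw [isOpen_iff_mem_nhds]
      intro y hy
      filter_upwards [local_good X hX y] with y' hy'
      obtain ⟨p, hp⟩ := hy'
      obtain ⟨p', hp'⟩ := hy
      exact ⟨_, good_trans hp' hp⟩
  have h := hcl.eq_univ ⟨x, _, good_refl x⟩
  have h2 : y ∈ {y : Pt X | ∃ p : ℕ → PH x y, Good p} := by
    rw [h]
    trivial
  exact h2

end Pool.Agent.W481
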