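import Pool.Agent.W481.Analytic
import Pool.Agent.W327.F4.AbsMain
import Pool.Agent.W327.F4.CurveFG
import Pool.Agent.W327.F4.CovLog
import Pool.Agent.W327.F4.InHConst

/-!
The existence of simultaneously divisible classes of paths on a branched cover of the line.
-/

open Topology

namespace Pool.Agent.W481

variable {Y : Type} [TopologicalSpace Y] {y₀ : Y}

/-- The group of functions `InH`. -/
def HN (pr : Y → ℂ) (b : Polynomial ℂ) (N : Subgroup (LG y₀)) :
    AddSubgroup (∀ t : Y, PH y₀ t → ℂ) where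
  carrier := {h | InH pr b N h}
  zero_mem' := ⟨Hol.zero, Gro1.zero, by rw [neg_zero]; exact Gro1.zero, fun g _ t q => rfl⟩
  add_mem' := by
    rintro h h' ⟨a1, a2, a3, a4⟩ ⟨b1, b2, b3, b4⟩
    refine ⟨a1.add b1, a2.add b2, by rw [neg_add]; exact a3.add b3, fun g hg t q => ?_⟩
    show Complex.exp (h t (g • q) + h' t (g • q)) = Complex.exp (h t q + h' t q)
    rw [Complex.exp_add, Complex.exp_add, a4 g hg, b4 g hg]
  neg_mem' := by
    rintro h ⟨a1, a2, a3, a4⟩
    refine ⟨a1.neg, a3, by rw [neg_neg]; exact a2, fun g hg t q => ?_⟩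
    show Complex.exp (-h t (g • q)) = Complex.exp (-h t q)
    rw [Complex.exp_neg, Complex.exp_neg, a4 g hg]

theorem mem_HN {pr : Y → ℂ} {b : Polynomial ℂ} {N : Subgroup (LG y₀)}
    {h : ∀ t : Y, PH y₀ t → ℂ} : h ∈ HN pr b N ↔ InH pr b N h := Iff.rfl

/-- The variation of a function on the path space, as a rational number. -/
noncomputable def LL {y₁ : Y} (p : PH y₀ y₁) : (∀ t : Y, PH y₀ t → ℂ) →+ ℚ where
  toFun h := lam (h y₁ p - h y₀ (.refl y₀))
  map_zero' := by simp
  map_add' h h' := by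
    rw [← map_add]
    congr 1
    simp only [Pi.add_apply]
    ring

theorem LL_apply {y₁ : Y} (p : PH y₀ y₁) (h : ∀ t : Y, PH y₀ t → ℂ) :
    LL p h = lam (h y₁ p - h y₀ (.refl y₀)) := rfl

theorem lam_int (k : ℤ) : lam (2 * Real.pi * Complex.I * k) = k := by
  have : (2 * Real.pi * Complex.I * k : ℂ) = (k : ℤ) • (2 * Real.pi * Complex.I) := by
    rw [zsmul_eq_mul]
    ring
  rw [this, map_zsmul, lam_two_pi_I]
  simp

theorem LL_smul {y₁ : Y} (p : PH y₀ y₁) (h : ∀ t : Y, PH y₀ t → ℂ) (g : LG y₀) (k : ℤ)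
    (hk : ∀ t (q : PH y₀ t), h t (g • q) = h t q + 2 * Real.pi * Complex.I * k) :
    LL (g • p) h = LL p h + k := by
  rw [LL_apply, LL_apply, hk, ← lam_int k, ← map_add]
  congr 1
  ring

theorem HN_fg [T2Space Y] (pr : Y → ℂ)
    (hpr : IsLocalHomeomorph pr) (b : Polynomial ℂ) (hb : b ≠ 0)
    (hcov : IsCoveringMapOn pr {s | b.eval s ≠ 0}) (hfin : ∀ s, (pr ⁻¹' {s}).Finite)
    [Group.FG (LG y₀)] (N : Subgroup (LG y₀)) [N.FiniteIndex] (y₁ : Y) :
    ∃ S : Finset (∀ t : Y, PH y₀ t → ℂ), (S : Set (∀ t : Y, PH y₀ t → ℂ)) ⊆ HN pr b N ∧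
      ∀ h ∈ HN pr b N, ∃ h' ∈ AddSubgroup.closure (S : Set (∀ t : Y, PH y₀ t → ℂ)),
        ∀ p : PH y₀ y₁, LL p h = LL p h' := by
  classical
  obtain ⟨T, hT⟩ : N.FG := (Group.fg_iff_subgroup_fg N).1 (Subgroup.fg_of_index_ne_zero N)
  have hTN : ∀ g ∈ T, g ∈ N := fun g hg => by
    rw [← hT]
    exact Subgroup.subset_closure hg
  have hth : ∀ (h : HN pr b N) (g : T), ∃ k : ℤ, ∀ t (q : PH y₀ t),
      h.1 t (g.1 • q) = h.1 t q + 2 * Real.pi * Complex.I * k := fun h g =>
    exists_theta hpr h.2.1 g.1 (h.2.2.2.2 g.1 (hTN g.1 g.2))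
  choose th hth using hth
  have huniq : ∀ (h : ∀ t : Y, PH y₀ t → ℂ) (g : LG y₀) (k k' : ℤ),
      (∀ t (q : PH y₀ t), h t (g • q) = h t q + 2 * Real.pi * Complex.I * k) →
      (∀ t (q : PH y₀ t), h t (g • q) = h t q + 2 * Real.pi * Complex.I * k') → k = k' := by
    intro h g k k' h1 h2
    have h3 := (h1 y₀ (.refl y₀)).symm.trans (h2 y₀ (.refl y₀))
    have h4 := mul_left_cancel₀ Complex.two_pi_I_ne_zero (add_left_cancel h3)
    exact_mod_cast h4
  let Θ : HN pr b N →+ (T → ℤ) :=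
    { toFun := fun h g => th h g
      map_zero' := by
        funext g
        refine huniq 0 g.1 _ _ (hth 0 g) ?_
        intro t q
        simp
      map_add' := by
        intro h h'
        funext g
        refine huniq (h.1 + h'.1) g.1 _ _ (hth (h + h') g) ?_
        intro t q
        simp only [Pi.add_apply]
        rw [hth h g t q, hth h' g t q]
        push_cast
        ring }
  have hrange : Θ.range.FG := by
    have h1 : (AddSubgroup.toIntSubmodule Θ.range).FG := IsNoetherian.noetherian _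
    exact (Submodule.fg_iff_addSubgroup_fg _).1 h1
  obtain ⟨R, hR⟩ := hrange
  have hpre : ∀ r : R, ∃ h : HN pr b N, Θ h = r.1 := fun r => by
    have : r.1 ∈ Θ.range := by
      rw [← hR]
      exact AddSubgroup.subset_closure r.2
    exact this
  choose f hf using hpre
  refine ⟨Finset.univ.image (fun r : R => (f r).1), ?_, ?_⟩
  · intro h hh
    simp only [Finset.coe_image, Finset.coe_univ, Set.image_univ, Set.mem_range] at hh
    obtain ⟨r, rfl⟩ := hh
    exact (f r).2
  · intro h hh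
    have h1 : Θ ⟨h, hh⟩ ∈ AddSubgroup.closure (Θ '' (Set.range f)) := by
      have h2 : Θ '' (Set.range f) = (R : Set (T → ℤ)) := by
        ext x
        constructor
        · rintro ⟨_, ⟨r, rfl⟩, rfl⟩
          rw [hf]
          exact r.2
        · intro hx
          exact ⟨f ⟨x, hx⟩, ⟨_, rfl⟩, hf ⟨x, hx⟩⟩
      rw [h2, hR]
      exact ⟨_, rfl⟩
    rw [← AddMonoidHom.map_closure] at h1
    obtain ⟨h', h1', h2'⟩ := h1
    refine ⟨h'.1, ?_, ?_⟩
    · have h3 := AddSubgroup.mem_map_of_mem (HN pr b N).subtype h1'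
      rw [AddMonoidHom.map_closure] at h3
      have h5 : ((Finset.univ.image (fun r : R => (f r).1) : Finset _) :
          Set (∀ t : Y, PH y₀ t → ℂ)) = (HN pr b N).subtype '' Set.range f := by
        rw [Finset.coe_image, Finset.coe_univ, Set.image_univ, ← Set.range_comp]
        rfl
      rw [h5]
      exact h3
    · intro p
      let d : HN pr b N := ⟨h, hh⟩ - h'
      have hd : Θ d = 0 := by rw [map_sub, h2', sub_self]
      have hd2 : ∀ g ∈ N, ∀ t (q : PH y₀ t), d.1 t (g • q) = d.1 t q := by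
        intro g hg
        rw [← hT] at hg
        induction hg using Subgroup.closure_induction with
        | mem g hg =>
          intro t q
          have h4 := hth d ⟨g, hg⟩ t q
          have h5 : th d ⟨g, hg⟩ = 0 := congrFun hd ⟨g, hg⟩
          rw [h5] at h4
          simpa using h4
        | one => intro t q; rw [one_smul]
        | mul a b _ _ ha hb => intro t q; rw [mul_smul, ha, hb]
        | inv a _ ha =>
          intro t q
          have h6 := ha t (a⁻¹ • q)
          rw [smul_inv_smul] at h6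
          exact h6.symm
      have hc := W327.F4.InH_const pr hpr b hb hcov hfin N d.1 d.2 hd2
      have h7 : LL p d.1 = 0 := by
        rw [LL_apply, hc y₁ p, sub_self, map_zero]
      have h8 : d.1 = h - h'.1 := rfl
      rw [h8, map_sub, sub_eq_zero] at h7
      exact h7

theorem curve_analytic [T2Space Y] (pr : Y → ℂ)
    (hpr : IsLocalHomeomorph pr) (b : Polynomial ℂ) (hb : b ≠ 0)
    (hcov : IsCoveringMapOn pr {s | b.eval s ≠ 0}) (hfin : ∀ s, (pr ⁻¹' {s}).Finite)
    (y₁ : Y) (hne : Nonempty (PH y₀ y₁)) :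
    ∃ p : ℕ → PH y₀ y₁, ∀ (E : Type) [TopologicalSpace E] (π : C(E, Y)) (_ : IsCoveringMap π)
      (_ : ∀ y, (π ⁻¹' {y}).Finite) (u : C(E, Cx)) (P P' : Polynomial (Polynomial ℂ)) (k k' : ℕ)
      (_ : P.leadingCoeff = b ^ k) (_ : P'.leadingCoeff = b ^ k')
      (_ : ∀ e, (P.map (Polynomial.evalRingHom (pr (π e)))).eval (u e).1 = 0)
      (_ : ∀ e, (P'.map (Polynomial.evalRingHom (pr (π e)))).eval ((u e).1⁻¹) = 0)
      (z : E) (hz : π z = y₀), ∃ K : ℕ, ∀ ℓ : ℕ, ℓ.Prime → K ≤ ℓ → ∀ j, ℓ ≤ j →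
        ∀ (w : E) (hw : π w = y₁) (q : PH z w), PHmap π hz hw q = p j →
          Dv ℓ (lam (dl u q)) := by
  have hfg0 : Group.FG (FundamentalGroup Y y₀) := by
    refine W327.F4.curve_fg pr hpr {s | b.eval s = 0} ?_ ?_ hfin y₀
    · exact (b.roots.toFinset.finite_toSet).subset fun s hs => by
        simpa [hb] using hs
    · exact hcov
  have hfg1 : Group.FG (LG y₀) := LG_fg hfg0
  obtain ⟨p, hp⟩ := W327.F4.abs_main (G := LG y₀) (P := PH y₀ y₁) LG_exists_smul
    (HN pr b) (fun N N' hNN h hh => ⟨hh.1, hh.2.1, hh.2.2.1, fun g hg => hh.2.2.2 g (hNN hg)⟩)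
    LL (fun N _ _ h hh g hg => by
      obtain ⟨k, hk⟩ := exists_theta hpr hh.1 g (hh.2.2.2 g hg)
      exact ⟨k, fun p => LL_smul p h g k hk⟩)
    (fun N _ _ => HN_fg pr hpr b hb hcov hfin N y₁)
    (fun N _ _ ℓ hl h hh hdiv => by
      have hl0 : (ℓ : ℂ) ≠ 0 := by exact_mod_cast hl.ne_zero
      refine ⟨fun t q => h t q / ℓ, ⟨hh.1.div ℓ, hh.2.1.div ℓ hl.ne_zero, ?_, ?_⟩, ?_⟩
      · have := hh.2.2.1.div ℓ hl.ne_zero
        convert this using 1
        funext t q
        simp [neg_div]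
      · intro g hg t q
        obtain ⟨k, hk⟩ := hdiv g hg
        obtain ⟨m, hm⟩ := exists_theta hpr hh.1 g (hh.2.2.2 g hg)
        have h1 : m = ℓ * k := by
          obtain ⟨p⟩ := hne
          have h2 := LL_smul p h g m hm
          rw [hk p] at h2
          have h3 := add_left_cancel h2
          exact_mod_cast h3.symm
        show Complex.exp (h t (g • q) / ℓ) = Complex.exp (h t q / ℓ)
        rw [hm, h1, Complex.exp_eq_exp_iff_exists_int]
        refine ⟨k, ?_⟩
        push_cast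
        field_simp
      · funext t q
        show h t q = ℓ • (h t q / ℓ)
        rw [nsmul_eq_mul]
        field_simp)
  refine ⟨p, ?_⟩
  intro E _ π hπ hπf u P P' k k' hP hP' h h' z hz
  obtain ⟨N, f, hN1, hN2, hf, hf0, hf1⟩ :=
    W327.F4.InH_of_cover pr hpr b hb E π hπ hπf u P P' k k' hP hP' h h' z hz
  obtain ⟨K, hK⟩ := hp N hN1 hN2
  refine ⟨K, fun ℓ hl hKl j hj w hw q hq => ?_⟩
  have h1 := hK ℓ hl hKl j hj f hf
  rw [LL_apply, hf0, ← hq, hf1, sub_zero] at h1
  exact h1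

end Pool.Agent.W481
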