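import Mathlib

/-!
Smooth quasi-projective complex varieties, their complex points with the classical topology,
`π₁`-like functors and the topological fundamental groupoid.
-/

open CategoryTheory CategoryTheory.Limits AlgebraicGeometry

namespace Pool.Agent.W481

/-- The spectrum of the field of complex numbers. -/
noncomputable abbrev SpecC : Scheme.{0} := Spec (.of ℂ)

attribute [local instance] MvPolynomial.gradedAlgebra in
/-- Projective `n`-space over the integers. -/
noncomputable def ProjZ (n : ℕ) : Scheme.{0} :=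
  Proj (MvPolynomial.homogeneousSubmodule (Fin (n + 1)) ℤ)

/-- Complex projective `n`-space. -/
noncomputable abbrev ProjC (n : ℕ) : Scheme.{0} :=
  pullback (terminal.from (ProjZ n)) (terminal.from SpecC)

/-- A complex scheme is quasi-projective if it admits an immersion (over `ℂ`) into a complex
projective space. -/
def IsQuasiProjective (X : Over SpecC) : Prop :=
  ∃ (n : ℕ) (i : X.left ⟶ ProjC n), IsImmersion i ∧ i ≫ pullback.snd _ _ = X.hom

/-- A smooth quasi-projective variety over `ℂ`. -/
structure CVar where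
  /-- the underlying complex scheme -/
  sch : Over SpecC
  smooth : Smooth sch.hom
  quasiProj : IsQuasiProjective sch

/-- The set `X(ℂ)` of complex points of a complex scheme. -/
noncomputable def Pt (X : Over SpecC) : Type := Over.mk (𝟙 SpecC) ⟶ X

namespace Pt

/-- The map `X(ℂ) → Y(ℂ)` induced by a morphism. -/
noncomputable def push {X Y : Over SpecC} (f : X ⟶ Y) (x : Pt X) : Pt Y :=
  (show Over.mk (𝟙 SpecC) ⟶ X from x) ≫ f

/-- The morphism `Spec ℂ ⟶ X` underlying a complex point. -/
noncomputable def mor {X : Over SpecC} (x : Pt X) : SpecC ⟶ X.left :=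
  CommaMorphism.left (show Over.mk (𝟙 SpecC) ⟶ X from x)

/-- The complex point `x` lies in the open subscheme `U`. -/
def Mem {X : Over SpecC} (x : Pt X) (U : X.left.Opens) : Prop := ⊤ ≤ x.mor ⁻¹ᵁ U

/-- The value at the complex point `x` of a regular function defined on an open set `U` which
contains `x`. -/
noncomputable def value {X : Over SpecC} (x : Pt X) {U : X.left.Opens} (h : x.Mem U) :
    Γ(X.left, U) →+* ℂ :=
  (x.mor.appLE U ⊤ h ≫ (Scheme.ΓSpecIso (.of ℂ)).hom).hom

end Pt

/-- The classical topology on `X(ℂ)`: it is generated by the sets of points `x` of `U` with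
`f x ∈ V`, for `U` Zariski open in `X`, `f` regular on `U` and `V ⊆ ℂ` open. -/
instance (X : Over SpecC) : TopologicalSpace (Pt X) :=
  TopologicalSpace.generateFrom
    {A | ∃ (U : X.left.Opens) (f : Γ(X.left, U)) (V : Set ℂ), IsOpen V ∧
      A = {x | ∃ h : x.Mem U, x.value h f ∈ V}}

theorem mor_push {X Y : Over SpecC} (f : X ⟶ Y) (x : Pt X) :
    (x.push f).mor = x.mor ≫ f.left := rfl

theorem mem_push {X Y : Over SpecC} (f : X ⟶ Y) (x : Pt X) (U : Y.left.Opens) :
    (x.push f).Mem U ↔ x.Mem (f.left ⁻¹ᵁ U) := Iff.rfl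

theorem value_push {X Y : Over SpecC} (f : X ⟶ Y) (x : Pt X) (U : Y.left.Opens)
    (h : (x.push f).Mem U) (g : Γ(Y.left, U)) :
    (x.push f).value h g = x.value ((mem_push f x U).1 h) (f.left.app U g) := by
  simp only [Pt.value, mor_push]
  rw [Scheme.Hom.comp_appLE]
  rfl

theorem continuous_push {X Y : Over SpecC} (f : X ⟶ Y) : Continuous (Pt.push f) := by
  refine continuous_generateFrom_iff.2 ?_
  rintro _ ⟨U, g, V, hV, rfl⟩
  refine TopologicalSpace.isOpen_generateFrom_of_mem ⟨f.left ⁻¹ᵁ U, f.left.app U g, V, hV, ?_⟩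
  ext x
  constructor
  · rintro ⟨h, h'⟩
    exact ⟨(mem_push f x U).1 h, by rwa [value_push] at h'⟩
  · rintro ⟨h, h'⟩
    refine ⟨(mem_push f x U).2 h, ?_⟩
    rwa [value_push f x U ((mem_push f x U).2 h) g]

/-- The continuous map `X(ℂ) → Y(ℂ)` induced by a morphism. -/
noncomputable def pushC {X Y : Over SpecC} (f : X ⟶ Y) : C(Pt X, Pt Y) := ⟨Pt.push f, continuous_push f⟩

/-- The homotopy classes (with fixed end points) of paths from `x` to `y` in a topological
space: the morphisms of its fundamental groupoid. -/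
abbrev PH {T : Type} [TopologicalSpace T] (x y : T) : Type := Path.Homotopic.Quotient x y

/-- A `π₁`-like functor: a functor from smooth quasi-projective complex varieties to groupoids
with the properties (0), (1), (2), (3). -/
structure Pi1Like where
  /-- the morphisms `x ⟶ y` of the groupoid attached to `X`, whose set of objects is `X(ℂ)` -/
  Hom (X : CVar) (x y : Pt X.sch) : Type
  /-- identities -/
  refl {X : CVar} (x : Pt X.sch) : Hom X x x
  /-- composition -/
  trans {X : CVar} {x y z : Pt X.sch} : Hom X x y → Hom X y z → Hom X x z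
  /-- inverses -/
  symm {X : CVar} {x y : Pt X.sch} : Hom X x y → Hom X y x
  refl_trans {X : CVar} {x y : Pt X.sch} (p : Hom X x y) : trans (refl x) p = p
  trans_refl {X : CVar} {x y : Pt X.sch} (p : Hom X x y) : trans p (refl y) = p
  trans_assoc {X : CVar} {x y z w : Pt X.sch} (p : Hom X x y) (q : Hom X y z) (r : Hom X z w) :
    trans (trans p q) r = trans p (trans q r)
  trans_symm {X : CVar} {x y : Pt X.sch} (p : Hom X x y) : trans p (symm p) = refl x
  symm_trans {X : CVar} {x y : Pt X.sch} (p : Hom X x y) : trans (symm p) p = refl y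
  /-- the functor of groupoids attached to a morphism `f`; on objects it is `X(ℂ) → Y(ℂ)` -/
  map {X Y : CVar} (f : X.sch ⟶ Y.sch) {x y : Pt X.sch} {x' y' : Pt Y.sch}
    (hx : x.push f = x') (hy : y.push f = y') : Hom X x y → Hom Y x' y'
  map_refl {X Y : CVar} (f : X.sch ⟶ Y.sch) {x : Pt X.sch} {x' : Pt Y.sch}
    (hx : x.push f = x') : map f hx hx (refl x) = refl x'
  map_trans {X Y : CVar} (f : X.sch ⟶ Y.sch) {x y z : Pt X.sch} {x' y' z' : Pt Y.sch}
    (hx : x.push f = x') (hy : y.push f = y') (hz : z.push f = z') (p : Hom X x y)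
    (q : Hom X y z) : map f hx hz (trans p q) = trans (map f hx hy p) (map f hy hz q)
  map_id {X : CVar} {x y : Pt X.sch} (hx : x.push (𝟙 X.sch) = x) (hy : y.push (𝟙 X.sch) = y)
    (p : Hom X x y) : map (𝟙 X.sch) hx hy p = p
  map_comp {X Y Z : CVar} (f : X.sch ⟶ Y.sch) (g : Y.sch ⟶ Z.sch) {x y : Pt X.sch}
    {x' y' : Pt Y.sch} {x'' y'' : Pt Z.sch} (hx : x.push f = x') (hy : y.push f = y')
    (hx' : x'.push g = x'') (hy' : y'.push g = y'') (hx'' : x.push (f ≫ g) = x'')
    (hy'' : y.push (f ≫ g) = y'') (p : Hom X x y) :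
    map (f ≫ g) hx'' hy'' p = map g hx' hy' (map f hx hy p)
  /-- (1) the functor preserves binary products -/
  prod {X Y P : CVar} (p : P.sch ⟶ X.sch) (q : P.sch ⟶ Y.sch)
    (hP : Nonempty (IsLimit (BinaryFan.mk p q))) (a b : Pt P.sch) :
    Function.Bijective fun γ : Hom P a b =>
      ((map p rfl rfl γ : Hom X (a.push p) (b.push p)),
        (map q rfl rfl γ : Hom Y (a.push q) (b.push q)))
  /-- (1) the functor preserves the empty product -/
  terminal {P : CVar} (hP : Nonempty (IsTerminal P.sch)) (a b : Pt P.sch) :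
    Nonempty (Hom P a b) ∧ Subsingleton (Hom P a b)
  /-- (2) the groupoid attached to a connected variety is connected -/
  connected {X : CVar} (hX : ConnectedSpace X.sch.left) (x y : Pt X.sch) : Nonempty (Hom X x y)
  /-- (3) unique path lifting for finite étale morphisms -/
  lifting {X Y : CVar} (f : X.sch ⟶ Y.sch) (hf : Etale f.left) (hf' : IsFinite f.left)
    (x : Pt X.sch) (y : Pt Y.sch) (γ : Hom Y (x.push f) y) :
    ∃! w : Σ z : Pt X.sch, Hom X x z, ∃ h : w.1.push f = y, map f rfl h w.2 = γ

/-- The automorphism of `Spec ℂ` defined by a field automorphism `σ` of `ℂ`. -/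
noncomputable def specAut (σ : ℂ ≃+* ℂ) : SpecC ⟶ SpecC :=
  Spec.map (CommRingCat.ofHom (σ : ℂ →+* ℂ))

theorem specAut_comp (σ : ℂ ≃+* ℂ) : specAut σ ≫ specAut σ.symm = 𝟙 SpecC := by
  rw [specAut, specAut, ← Spec.map_comp, ← CommRingCat.ofHom_comp]
  have : ((σ : ℂ →+* ℂ).comp (σ.symm : ℂ →+* ℂ)) = RingHom.id ℂ := by
    ext
    simp
  rw [this]
  exact Spec.map_id _

instance (σ : ℂ ≃+* ℂ) : IsIso (specAut σ) :=
  ⟨specAut σ.symm, specAut_comp σ, by simpa using specAut_comp σ.symm⟩

/-- The conjugate `X^σ` of a complex scheme by a field automorphism `σ` of `ℂ`: the same scheme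
with the structure morphism composed with the automorphism of `Spec ℂ` given by `σ⁻¹`. -/
noncomputable def conj (σ : ℂ ≃+* ℂ) (X : Over SpecC) : Over SpecC :=
  Over.mk (X.hom ≫ specAut σ.symm)

/-- The conjugate `f^σ` of a morphism. -/
noncomputable def conjHom (σ : ℂ ≃+* ℂ) {X Y : Over SpecC} (f : X ⟶ Y) :
    conj σ X ⟶ conj σ Y :=
  Over.homMk f.left (by simp [conj])

/-- The bijection `σ_X : X(ℂ) → X^σ(ℂ)`. -/
noncomputable def conjPt (σ : ℂ ≃+* ℂ) {X : Over SpecC} (x : Pt X) : Pt (conj σ X) :=
  Over.homMk (U := Over.mk (𝟙 SpecC)) (V := conj σ X) (specAut σ ≫ x.mor) (by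
    have h : x.mor ≫ X.hom = 𝟙 SpecC :=
      Over.w (show Over.mk (𝟙 SpecC) ⟶ X from x)
    simp only [conj, Over.mk_hom, Over.mk_left, Category.assoc]
    rw [← Category.assoc x.mor, h, Category.id_comp]
    exact specAut_comp σ)

theorem conjPt_push (σ : ℂ ≃+* ℂ) {X Y : Over SpecC} (f : X ⟶ Y) (x : Pt X) :
    (conjPt σ x).push (conjHom σ f) = conjPt σ (x.push f) := by
  apply Over.OverMorphism.ext
  exact Category.assoc _ _ _

/-- The conjugate of a smooth quasi-projective complex variety. -/
noncomputable def CVar.conj (σ : ℂ ≃+* ℂ) (X : CVar) : CVar where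
  sch := W481.conj σ X.sch
  smooth := by
    have := X.smooth
    simp only [W481.conj, Over.mk_hom]
    infer_instance
  quasiProj := by
    obtain ⟨n, i, hi, h⟩ := X.quasiProj
    have h1 : terminal.from (ProjZ n) ≫ 𝟙 _ = 𝟙 _ ≫ terminal.from (ProjZ n) := by simp
    have h2 : terminal.from SpecC ≫ 𝟙 _ = specAut σ.symm ≫ terminal.from SpecC := by
      simp
    let j : ProjC n ⟶ ProjC n := pullback.map _ _ _ _ (𝟙 _) (specAut σ.symm) (𝟙 _) h1 h2
    have hj : IsIso j := inferInstance
    have hj' : IsImmersion j := inferInstance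
    have key : ∃ i' : X.sch.left ⟶ ProjC n, IsImmersion i' ∧
        i' ≫ pullback.snd _ _ = X.sch.hom ≫ specAut σ.symm := by
      refine ⟨i ≫ j, IsImmersion.comp _ _, ?_⟩
      rw [Category.assoc, show j ≫ pullback.snd _ _ = pullback.snd _ _ ≫ specAut σ.symm from
        pullback.lift_snd _ _ _, ← Category.assoc, h]
    exact ⟨n, key⟩

/-- A natural transformation from the topological fundamental groupoid functor to the twist
`π^σ` of a `π₁`-like functor `π` which is the identity on objects, that is, on complex points: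
a morphism `x ⟶ y` of `π^σ(X)` is a morphism `σ_X(x) ⟶ σ_X(y)` of `π(X^σ)`. -/
structure TopNat (π : Pi1Like) (σ : ℂ ≃+* ℂ) where
  /-- the functor of groupoids `π₁^top(X) ⟶ π^σ(X)`, the identity on objects -/
  app (X : CVar) {x y : Pt X.sch} :
    PH x y → π.Hom (X.conj σ) (conjPt σ x) (conjPt σ y)
  app_refl (X : CVar) (x : Pt X.sch) :
    app X (Path.Homotopic.Quotient.refl x) = π.refl (X := X.conj σ) (conjPt σ x)
  app_trans (X : CVar) {x y z : Pt X.sch} (p : PH x y) (q : PH y z) :
    app X (p.trans q) = π.trans (app X p) (app X q)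
  naturality {X Y : CVar} (f : X.sch ⟶ Y.sch) {x y : Pt X.sch} (p : PH x y) :
    π.map (X := X.conj σ) (Y := Y.conj σ) (conjHom σ f) (conjPt_push σ f x)
      (conjPt_push σ f y) (app X p) = app Y (p.map (pushC f))

end Pool.Agent.W481
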