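import Pool.Agent.W868.FI.Stms

/-! Project FI: one coding step. -/

set_option autoImplicit false

open MeasureTheory Set

namespace Pool.Agent.W481.FIStep

open Pool.Agent.W868.FI

theorem toReal_preimage {Ω Z : Type} [MeasurableSpace Ω] (M : Measure Ω) [IsFiniteMeasure M]
    (v : Ω → Z) (hv : ∀ q, MeasurableSet (v ⁻¹' {q})) (R : Finset Z) :
    (M (v ⁻¹' (R : Set Z))).toReal = ∑ q ∈ R, (M (v ⁻¹' {q})).toReal := by
  rw [← sum_measure_preimage_singleton R (fun q _ => hv q),
    ENNReal.toReal_sum fun q _ => measure_ne_top _ _]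

theorem meas_preimage {Ω Z : Type} [MeasurableSpace Ω] [Finite Z]
    (v : Ω → Z) (hv : ∀ q, MeasurableSet (v ⁻¹' {q})) (R : Set Z) : MeasurableSet (v ⁻¹' R) := by
  have : v ⁻¹' R = ⋃ q ∈ R, v ⁻¹' {q} := by
    ext x; simp
  rw [this]
  exact MeasurableSet.biUnion R.to_countable fun q _ => hv q

section

variable {ι : Type} (D : Finset ι)

/-- restriction -/
def rs (y : ι → Bool) : D → Bool := fun i => y i

theorem rs_meas : Measurable (rs D) := measurable_pi_lambda _ fun i => measurable_pi_apply _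

open Classical in
/-- extension by `false` -/
noncomputable def ex (b : D → Bool) : ι → Bool := fun i => if h : i ∈ D then b ⟨i, h⟩ else false

theorem ex_rs (y : ι → Bool) : ∀ k ∈ (D : Set ι), y k = ex D (rs D y) k := by
  intro k hk
  have hk' : k ∈ D := hk
  simp [ex, rs, hk']

theorem alpha_nonneg (ν : Measure Bool) [IsProbabilityMeasure ν] (α : ℝ)
    (h : ∀ b, ν {b} ≤ ENNReal.ofReal α) : 0 ≤ α := by
  by_contra hneg
  push Not at hneg
  have h0 : ENNReal.ofReal α = 0 := ENNReal.ofReal_eq_zero.mpr hneg.le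
  have h1 : ν univ ≤ ∑ b : Bool, ν {b} := by
    have : (univ : Set Bool) = ⋃ b ∈ (Finset.univ : Finset Bool), {b} := by
      ext x; simp
    rw [this]
    exact measure_biUnion_finset_le _ _
  have h2 : ∑ b : Bool, ν {b} ≤ 0 := by
    refine le_of_eq (Finset.sum_eq_zero fun b _ => ?_)
    have := h b
    rw [h0] at this
    exact le_antisymm this bot_le
  have h3 := h1.trans h2
  rw [measure_univ] at h3
  exact absurd h3 (by norm_num)

theorem w_le (ν : Measure Bool) [IsProbabilityMeasure ν] (α : ℝ)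
    (h : ∀ b, ν {b} ≤ ENNReal.ofReal α) (b : D → Bool) :
    (iid ι ν (rs D ⁻¹' {b})).toReal ≤ α ^ D.card := by
  classical
  have hα := alpha_nonneg ν α h
  have e : rs D ⁻¹' {b} = Set.pi (D : Set ι) (fun i => {ex D b i}) := by
    ext y
    simp only [mem_preimage, mem_singleton_iff, Set.mem_pi, Finset.mem_coe]
    constructor
    · rintro rfl i hi
      exact ex_rs D y i hi
    · intro hy
      funext i
      have := hy i.1 i.2
      simpa [ex, rs] using this
  have e2 : iid ι ν (rs D ⁻¹' {b}) = ∏ i ∈ D, ν {ex D b i} := by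
    rw [e]
    unfold iid
    exact Measure.infinitePi_pi (μ := fun _ : ι => ν) fun i _ => measurableSet_singleton _
  rw [e2]
  have h3 : ∏ i ∈ D, ν {ex D b i} ≤ ENNReal.ofReal (α ^ D.card) := by
    calc ∏ i ∈ D, ν {ex D b i} ≤ ∏ _i ∈ D, ENNReal.ofReal α :=
          Finset.prod_le_prod' fun i _ => h _
      _ = ENNReal.ofReal (α ^ D.card) := by
          rw [Finset.prod_const, ENNReal.ofReal_pow hα]
  exact ENNReal.toReal_le_of_le_ofReal (by positivity) h3

end

theorem step (h₁ : S_REAL) (h₂ : S_GLUE) : S_STEP := by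
  classical
  intro ι O Z₁ Z₂ _ _ _ _ _ ν _ α hα Q _ L hL1 hL2 D z hz u hu
  have hα0 := alpha_nonneg ν α hα
  set κ : ℝ := α ^ D.card with hκ
  have hκ0 : 0 ≤ κ := by positivity
  haveI hLp : IsProbabilityMeasure L := by
    constructor
    have : (L.map Prod.fst) univ = 1 := by rw [hL1]; exact measure_univ
    rwa [Measure.map_apply measurable_fst MeasurableSet.univ, preimage_univ] at this
  -- the finite model
  set z₀ : (D → Bool) → Z₁ := fun b => z (ex D b) with hz₀
  have hzz : ∀ y, z y = z₀ (rs D y) := fun y => hz _ _ (ex_rs D y)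
  set w : (D → Bool) → ℝ := fun b => (iid ι ν (rs D ⁻¹' {b})).toReal with hw
  set J : Z₁ × Z₂ → ℝ := fun q => (L ((fun p => (z p.1, u p.2)) ⁻¹' {q})).toReal with hJ
  have hrsm : ∀ q : D → Bool, MeasurableSet (rs D ⁻¹' {q}) := fun q =>
    rs_meas D (measurableSet_singleton q)
  have hzm : ∀ s : Set Z₁, MeasurableSet (z ⁻¹' s) := by
    intro s
    have : z ⁻¹' s = rs D ⁻¹' (z₀ ⁻¹' s) := by
      ext y; simp [hzz]
    rw [this]
    exact meas_preimage (rs D) hrsm _
  have hvm : ∀ q : Z₁ × Z₂, MeasurableSet ((fun p : (ι → Bool) × O => (z p.1, u p.2)) ⁻¹' {q}) := by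
    rintro ⟨q1, q2⟩
    have : (fun p : (ι → Bool) × O => (z p.1, u p.2)) ⁻¹' {(q1, q2)} =
        (Prod.fst ⁻¹' (z ⁻¹' {q1})) ∩ (Prod.snd ⁻¹' (u ⁻¹' {q2})) := by
      ext p; simp
    rw [this]
    exact (measurable_fst (hzm _)).inter (measurable_snd (hu q2))
  -- sums over the finite model
  have hsum : ∀ (P : (D → Bool) → Prop) [DecidablePred P],
      (∑ b, if P b then w b else 0) = (iid ι ν (rs D ⁻¹' {b | P b})).toReal := by
    intro P _
    have h := toReal_preimage (iid ι ν) (rs D) hrsm (Finset.univ.filter P)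
    rw [Finset.sum_filter] at h
    rw [← h]
    congr 3
    ext b; simp
  obtain ⟨ψ₀, hψ⟩ := h₁ (D → Bool) Z₁ Z₂ w (fun b => ENNReal.toReal_nonneg) κ
    (fun b => w_le D ν α hα b) z₀ J (fun q => ENNReal.toReal_nonneg) (by
      intro z₁
      rw [hsum]
      have e1 : rs D ⁻¹' {b | z₀ b = z₁} = z ⁻¹' {z₁} := by
        ext y; simp [hzz]
      rw [e1]
      have e2 : iid ι ν (z ⁻¹' {z₁}) = L (Prod.fst ⁻¹' (z ⁻¹' {z₁})) := by
        rw [← hL1, Measure.map_apply measurable_fst (hzm _)]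
      rw [e2]
      have e3 : Prod.fst ⁻¹' (z ⁻¹' {z₁}) = (fun p : (ι → Bool) × O => (z p.1, u p.2)) ⁻¹'
          (((Finset.univ : Finset Z₂).image fun z₂ => (z₁, z₂) : Finset (Z₁ × Z₂)) :
            Set (Z₁ × Z₂)) := by
        ext p
        simp [eq_comm]
      rw [e3, toReal_preimage L _ hvm, Finset.sum_image]
      intro a _ b _ hab
      exact (Prod.mk.inj hab).2)
  refine ⟨fun y => ψ₀ (rs D y), ?_, ?_⟩
  · intro x y hxy
    have : rs D x = rs D y := funext fun i => hxy i.1 i.2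
    simp only [this]
  have hψm : ∀ s : Set Z₂, MeasurableSet ((fun y => ψ₀ (rs D y)) ⁻¹' s) := by
    intro s
    exact meas_preimage (rs D) hrsm (ψ₀ ⁻¹' s)
  have hc : κ * Fintype.card Z₁ * Fintype.card Z₂ ≤
      2 * Fintype.card Z₁ * Fintype.card Z₂ * κ := by
    have : 0 ≤ κ * Fintype.card Z₁ * Fintype.card Z₂ := by positivity
    nlinarith
  have hmain : ∀ R : Set (Z₁ × Z₂), iid ι ν {b | (z b, ψ₀ (rs D b)) ∈ R} ≤
      L {p | (z p.1, u p.2) ∈ R} +
        ENNReal.ofReal (2 * Fintype.card Z₁ * Fintype.card Z₂ * κ) := by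
    intro R
    have h3 := hψ R.toFinite.toFinset
    have e1 : (∑ b, if (z₀ b, ψ₀ b) ∈ R.toFinite.toFinset then w b else 0) =
        (iid ι ν {b | (z b, ψ₀ (rs D b)) ∈ R}).toReal := by
      rw [hsum]
      congr 2
      ext y
      simp [hzz]
    have e2 : ∑ q ∈ R.toFinite.toFinset, J q = (L {p | (z p.1, u p.2) ∈ R}).toReal := by
      rw [← toReal_preimage L _ hvm]
      congr 2
      ext p
      simp
    rw [e1, e2] at h3
    have h4 := (abs_le.mp h3).2
    have h5 : (iid ι ν {b | (z b, ψ₀ (rs D b)) ∈ R}).toReal ≤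
        (L {p | (z p.1, u p.2) ∈ R}).toReal + 2 * Fintype.card Z₁ * Fintype.card Z₂ * κ := by
      linarith
    have h6 : iid ι ν {b | (z b, ψ₀ (rs D b)) ∈ R} =
        ENNReal.ofReal (iid ι ν {b | (z b, ψ₀ (rs D b)) ∈ R}).toReal :=
      (ENNReal.ofReal_toReal (measure_ne_top _ _)).symm
    rw [h6]
    refine (ENNReal.ofReal_le_ofReal h5).trans ?_
    rw [ENNReal.ofReal_add ENNReal.toReal_nonneg (by positivity),
      ENNReal.ofReal_toReal (measure_ne_top _ _)]
  refine ⟨hmain, ?_⟩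
  refine h₂ (ι → Bool) O Z₂ (iid ι ν) Q (fun y => ψ₀ (rs D y)) (fun s => hψm _) u hu _ fun R => ?_
  have h7 := hmain {q | q.2 ∈ R}
  have e3 : L {p : (ι → Bool) × O | (z p.1, u p.2) ∈ {q : Z₁ × Z₂ | q.2 ∈ R}} = Q (u ⁻¹' R) := by
    rw [← hL2, Measure.map_apply measurable_snd (meas_preimage u hu R)]
    rfl
  rw [e3] at h7
  exact h7

end Pool.Agent.W481.FIStep

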