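import Pool.Agent.W481.Conn
import Pool.Agent.W481.Prod

/-!
The functor of germs of good sequences of classes of paths.
-/

open CategoryTheory CategoryTheory.Limits AlgebraicGeometry Topology

namespace Pool.Agent.W481

theorem PH_prod_bijective {T S R : Type} [TopologicalSpace T] [TopologicalSpace S]
    [TopologicalSpace R] (f : C(T, S)) (g : C(T, R)) (h : IsHomeomorph fun t => (f t, g t))
    (a b : T) : Function.Bijective fun γ : PH a b =>
      ((PHmap f rfl rfl γ : PH (f a) (f b)), (PHmap g rfl rfl γ : PH (g a) (g b))) := by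
  let Ψ : C(S × R, T) := ⟨(h.homeomorph _).symm, (h.homeomorph _).symm.continuous⟩
  let Φ : C(T, S × R) := ⟨fun t => (f t, g t), by fun_prop⟩
  have h1 : ∀ t, Ψ (f t, g t) = t := fun t => (h.homeomorph _).symm_apply_apply t
  have h2 : ∀ z, f (Ψ z) = z.1 := fun z =>
    congrArg Prod.fst ((h.homeomorph _).apply_symm_apply z)
  have h3 : ∀ z, g (Ψ z) = z.2 := fun z =>
    congrArg Prod.snd ((h.homeomorph _).apply_symm_apply z)
  constructor
  · intro γ γ' hh
    have key : ∀ γ : PH a b, PHmap Ψ (h1 a) (h1 b) (Path.Homotopic.prod (PHmap f rfl rfl γ)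
        (PHmap g rfl rfl γ)) = γ := by
      intro γ
      induction γ using Path.Homotopic.Quotient.ind with | mk γ
      rw [PHmap_mk, PHmap_mk, ← Path.Homotopic.Quotient.mk'_eq_mk,
        ← Path.Homotopic.Quotient.mk'_eq_mk]
      show PHmap Ψ (h1 a) (h1 b) (.mk (Path.prod _ _)) = _
      rw [PHmap_mk]
      congr 1
      ext t
      exact h1 (γ t)
    have h4 : PHmap f rfl rfl γ = PHmap f rfl rfl γ' := congrArg Prod.fst hh
    have h5 : PHmap g rfl rfl γ = PHmap g rfl rfl γ' := congrArg Prod.snd hh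
    rw [← key γ, ← key γ', h4, h5]
  · rintro ⟨α, β⟩
    refine ⟨PHmap Ψ (h1 a) (h1 b) (Path.Homotopic.prod α β), ?_⟩
    induction α using Path.Homotopic.Quotient.ind with | mk α
    induction β using Path.Homotopic.Quotient.ind with | mk β
    refine Prod.ext ?_ ?_
    · show PHmap f rfl rfl (PHmap Ψ (h1 a) (h1 b) (.mk (Path.prod α β))) = _
      rw [PHmap_mk, PHmap_mk]
      show Path.Homotopic.Quotient.mk _ = Path.Homotopic.Quotient.mk _
      congr 1
      ext t
      exact h2 (α t, β t)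
    · show PHmap g rfl rfl (PHmap Ψ (h1 a) (h1 b) (.mk (Path.prod α β))) = _
      rw [PHmap_mk, PHmap_mk]
      show Path.Homotopic.Quotient.mk _ = Path.Homotopic.Quotient.mk _
      congr 1
      ext t
      exact h3 (α t, β t)

/-- The germs of good sequences. -/
def GHom (X : Over SpecC) (x y : Pt X) : Type :=
  {γ : Filter.Germ UU (PH x y) // ∃ p : ℕ → PH x y, Good p ∧ (p : Filter.Germ UU (PH x y)) = γ}

theorem GHom.ext_coe {X : Over SpecC} {x y : Pt X} {p q : ℕ → PH x y} (hp hq)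
    (h : ∀ᶠ j in UU, p j = q j) :
    (⟨(p : Filter.Germ UU (PH x y)), hp⟩ : GHom X x y) = ⟨(q : Filter.Germ UU (PH x y)), hq⟩ :=
  Subtype.ext (Filter.Germ.coe_eq.2 h)

theorem push_comp {X Y Z : Over SpecC} (f : X ⟶ Y) (g : Y ⟶ Z) (x : Pt X) :
    (x.push f).push g = x.push (f ≫ g) :=
  Category.assoc (show Over.mk (𝟙 SpecC) ⟶ X from x) f g

theorem pushC_comp {X Y Z : Over SpecC} (f : X ⟶ Y) (g : Y ⟶ Z) :
    (pushC g).comp (pushC f) = pushC (f ≫ g) := by
  ext x
  exact push_comp f g x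

theorem pushC_id (X : Over SpecC) : pushC (𝟙 X) = ContinuousMap.id (Pt X) := by
  ext x
  exact Category.comp_id (show Over.mk (𝟙 SpecC) ⟶ X from x)

/-- the constant morphism -/
noncomputable def constHom (X : Over SpecC) {Y : Over SpecC} (y : Pt Y) : X ⟶ Y :=
  Over.homMk (U := X) (V := Over.mk (𝟙 SpecC)) X.hom (by simp) ≫
    (show Over.mk (𝟙 SpecC) ⟶ Y from y)

theorem push_constHom {X Y : Over SpecC} (y : Pt Y) (x : Pt X) : x.push (constHom X y) = y := by
  have h : (show Over.mk (𝟙 SpecC) ⟶ X from x) ≫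
      Over.homMk (U := X) (V := Over.mk (𝟙 SpecC)) X.hom (by simp) = 𝟙 (Over.mk (𝟙 SpecC)) := by
    ext1
    exact Over.w (show Over.mk (𝟙 SpecC) ⟶ X from x)
  show (show Over.mk (𝟙 SpecC) ⟶ X from x) ≫ (_ ≫ _) = _
  rw [← Category.assoc, h, Category.id_comp]

theorem PHmap_const {T S : Type} [TopologicalSpace T] [TopologicalSpace S] (f : C(T, S)) {s : S}
    (hf : ∀ t, f t = s) {x y : T} (p : PH x y) : PHmap f (hf x) (hf y) p = .refl s := by
  induction p using Path.Homotopic.Quotient.ind with | mk p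
  rw [PHmap_mk, ← Path.Homotopic.Quotient.mk_refl]
  congr 1
  ext t
  exact hf _

theorem PHmap_PHmap_of_id {T S : Type} [TopologicalSpace T] [TopologicalSpace S] (i : C(S, T))
    (p : C(T, S)) (h : ∀ x, p (i x) = x) {x y : S} {x' y' : T} (hx : i x = x') (hy : i y = y')
    (hx' : p x' = x) (hy' : p y' = y) (α : PH x y) : PHmap p hx' hy' (PHmap i hx hy α) = α := by
  subst hx hy
  rw [PHmap_comp, PHmap_congr (g := ContinuousMap.id _) (ContinuousMap.ext h)]
  exact PHmap_id _

theorem PHmap_PHmap_of_const {T S R : Type} [TopologicalSpace T] [TopologicalSpace S]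
    [TopologicalSpace R] (i : C(S, T)) (p : C(T, R)) {r : R} (h : ∀ x, p (i x) = r) {x y : S}
    {x' y' : T} (hx : i x = x') (hy : i y = y') (hx' : p x' = r) (hy' : p y' = r) (α : PH x y) :
    PHmap p hx' hy' (PHmap i hx hy α) = .refl r := by
  subst hx hy
  rw [PHmap_comp]
  exact PHmap_const (p.comp i) h α

theorem good_prod {X Y P : Over SpecC} (p : P ⟶ X) (q : P ⟶ Y)
    (hP : IsLimit (BinaryFan.mk p q)) {a b : Pt P} (r : ℕ → PH a b)
    (h1 : Good (fun j => (PHmap (pushC p) rfl rfl (r j) : PH (a.push p) (b.push p))))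
    (h2 : Good (fun j => (PHmap (pushC q) rfl rfl (r j) : PH (a.push q) (b.push q)))) :
    Good r := by
  let i₁ : X ⟶ P := (BinaryFan.IsLimit.lift' hP (𝟙 X) (constHom X (a.push q))).1
  have hi₁ : i₁ ≫ p = 𝟙 X := (BinaryFan.IsLimit.lift' hP (𝟙 X) (constHom X (a.push q))).2.1
  have hi₁' : i₁ ≫ q = constHom X (a.push q) :=
    (BinaryFan.IsLimit.lift' hP (𝟙 X) (constHom X (a.push q))).2.2
  let i₂ : Y ⟶ P := (BinaryFan.IsLimit.lift' hP (constHom Y (b.push p)) (𝟙 Y)).1
  have hi₂ : i₂ ≫ p = constHom Y (b.push p) :=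
    (BinaryFan.IsLimit.lift' hP (constHom Y (b.push p)) (𝟙 Y)).2.1
  have hi₂' : i₂ ≫ q = 𝟙 Y := (BinaryFan.IsLimit.lift' hP (constHom Y (b.push p)) (𝟙 Y)).2.2
  have hb := (prod_homeo p q hP).bijective
  have hinj : ∀ s t : Pt P, s.push p = t.push p → s.push q = t.push q → s = t :=
    fun s t h h' => hb.1 (Prod.ext h h')
  have k1 : ∀ x : Pt X, (x.push i₁).push p = x := fun x => by
    rw [push_comp, hi₁]; exact Category.comp_id _
  have k2 : ∀ x : Pt X, (x.push i₁).push q = a.push q := fun x => by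
    rw [push_comp, hi₁']; exact push_constHom _ _
  have k3 : ∀ y : Pt Y, (y.push i₂).push q = y := fun y => by
    rw [push_comp, hi₂']; exact Category.comp_id _
  have k4 : ∀ y : Pt Y, (y.push i₂).push p = b.push p := fun y => by
    rw [push_comp, hi₂]; exact push_constHom _ _
  have e1 : (a.push p).push i₁ = a := hinj _ _ (k1 _) (k2 _)
  have hm : (b.push p).push i₁ = (a.push q).push i₂ :=
    hinj _ _ ((k1 _).trans (k4 _).symm) ((k2 _).trans (k3 _).symm)
  have e2 : (b.push q).push i₂ = b := hinj _ _ (k4 _) (k3 _)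
  have g1 := good_map i₁ e1 hm h1
  have g2 := good_map i₂ rfl e2 h2
  have g3 := good_trans g1 g2
  refine good_congr (Filter.Eventually.of_forall fun j => ?_) g3
  have e1' : pushC i₁ (pushC p a) = a := e1
  have hm' : pushC i₁ (pushC p b) = pushC i₂ (pushC q a) := hm
  have e2' : pushC i₂ (pushC q b) = b := e2
  apply (PH_prod_bijective (pushC p) (pushC q) (prod_homeo p q hP) a b).1
  have hmm : pushC p (pushC i₂ (pushC q a)) = pushC p b := k4 _
  have hmm' : pushC q (pushC i₂ (pushC q a)) = pushC q a := k3 _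
  have k4' : ∀ y, pushC p (pushC i₂ y) = pushC p b := k4
  have k2' : ∀ x, pushC q (pushC i₁ x) = pushC q a := k2
  refine Prod.ext ?_ ?_
  · show PHmap (pushC p) rfl rfl ((PHmap (pushC i₁) e1' hm'
      (PHmap (pushC p) rfl rfl (r j))).trans
      (PHmap (pushC i₂) rfl e2' (PHmap (pushC q) rfl rfl (r j)))) = PHmap (pushC p) rfl rfl (r j)
    rw [PHmap_trans (pushC p) rfl hmm rfl, PHmap_PHmap_of_id (pushC i₁) (pushC p) k1,
      PHmap_PHmap_of_const (pushC i₂) (pushC p) k4', PH_trans_refl]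
  · show PHmap (pushC q) rfl rfl ((PHmap (pushC i₁) e1' hm'
      (PHmap (pushC p) rfl rfl (r j))).trans
      (PHmap (pushC i₂) rfl e2' (PHmap (pushC q) rfl rfl (r j)))) = PHmap (pushC q) rfl rfl (r j)
    rw [PHmap_trans (pushC q) rfl hmm' rfl, PHmap_PHmap_of_id (pushC i₂) (pushC q) k3,
      PHmap_PHmap_of_const (pushC i₁) (pushC q) k2', PH_refl_trans]

/-- The functor. -/
noncomputable def piGood : Pi1Like where
  Hom X x y := GHom X.sch x y
  refl x := ⟨((fun _ => Path.Homotopic.Quotient.refl x : ℕ → _) : Filter.Germ UU _), _,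
    good_refl x, rfl⟩
  trans γ δ := ⟨Filter.Germ.map₂ (fun p q => p.trans q) γ.1 δ.1, by
    obtain ⟨_, p, hp, rfl⟩ := γ
    obtain ⟨_, q, hq, rfl⟩ := δ
    exact ⟨_, good_trans hp hq, rfl⟩⟩
  symm γ := ⟨Filter.Germ.map (fun p => p.symm) γ.1, by
    obtain ⟨_, p, hp, rfl⟩ := γ
    exact ⟨_, good_symm hp, rfl⟩⟩
  refl_trans := by
    rintro X x y ⟨_, p, hp, rfl⟩
    exact GHom.ext_coe _ _ (Filter.Eventually.of_forall fun j => PH_refl_trans _)
  trans_refl := by
    rintro X x y ⟨_, p, hp, rfl⟩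
    exact GHom.ext_coe _ _ (Filter.Eventually.of_forall fun j => PH_trans_refl _)
  trans_assoc := by
    rintro X x y z w ⟨_, p, hp, rfl⟩ ⟨_, q, hq, rfl⟩ ⟨_, r, hr, rfl⟩
    exact GHom.ext_coe _ _ (Filter.Eventually.of_forall fun j => PH_assoc _ _ _)
  trans_symm := by
    rintro X x y ⟨_, p, hp, rfl⟩
    exact GHom.ext_coe _ _ (Filter.Eventually.of_forall fun j => PH_trans_symm _)
  symm_trans := by
    rintro X x y ⟨_, p, hp, rfl⟩
    exact GHom.ext_coe _ _ (Filter.Eventually.of_forall fun j => PH_symm_trans _)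
  map {_ _} f {_ _ _ _} hx hy γ := ⟨Filter.Germ.map (PHmap (pushC f) hx hy) γ.1, by
    obtain ⟨_, p, hp, rfl⟩ := γ
    exact ⟨_, good_map f hx hy hp, rfl⟩⟩
  map_refl := by
    intro X Y f x x' hx
    exact GHom.ext_coe _ _ (Filter.Eventually.of_forall fun j => PHmap_refl _ _)
  map_trans := by
    rintro X Y f x y z x' y' z' hx hy hz ⟨_, p, hp, rfl⟩ ⟨_, q, hq, rfl⟩
    exact GHom.ext_coe _ _ (Filter.Eventually.of_forall fun j => PHmap_trans _ _ _ _ _ _)
  map_id := by
    rintro X x y hx hy ⟨_, p, hp, rfl⟩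
    refine GHom.ext_coe _ _ (Filter.Eventually.of_forall fun j => ?_)
    exact (PHmap_congr (pushC_id X.sch) hx hy (p j)).trans (PHmap_id _)
  map_comp := by
    rintro X Y Z f g x y x' y' x'' y'' hx hy hx' hy' hx'' hy'' ⟨_, p, hp, rfl⟩
    refine GHom.ext_coe _ _ (Filter.Eventually.of_forall fun j => ?_)
    exact (PHmap_congr (pushC_comp f g).symm hx'' hy'' (p j)).trans
      (PHmap_comp (pushC f) (pushC g) hx hy hx' hy' (p j)).symm
  prod := by
    rintro X Y P p q ⟨hP⟩ a b
    constructor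
    · rintro ⟨_, r, hr, rfl⟩ ⟨_, s, hs, rfl⟩ h
      have h1 := congrArg Subtype.val (congrArg Prod.fst h)
      have h2 := congrArg Subtype.val (congrArg Prod.snd h)
      have h1' : ∀ᶠ j in UU, PHmap (pushC p) rfl rfl (r j) = PHmap (pushC p) rfl rfl (s j) :=
        Filter.Germ.coe_eq.1 h1
      have h2' : ∀ᶠ j in UU, PHmap (pushC q) rfl rfl (r j) = PHmap (pushC q) rfl rfl (s j) :=
        Filter.Germ.coe_eq.1 h2
      refine GHom.ext_coe _ _ ?_
      filter_upwards [h1', h2'] with j hj hj'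
      exact (PH_prod_bijective (pushC p) (pushC q) (prod_homeo p q hP) a b).1 (Prod.ext hj hj')
    · rintro ⟨⟨_, α, hα, rfl⟩, ⟨_, β, hβ, rfl⟩⟩
      choose r hr using fun j => (PH_prod_bijective (pushC p) (pushC q) (prod_homeo p q hP) a b).2
        (α j, β j)
      have hr1 : ∀ j, PHmap (pushC p) rfl rfl (r j) = α j := fun j => congrArg Prod.fst (hr j)
      have hr2 : ∀ j, PHmap (pushC q) rfl rfl (r j) = β j := fun j => congrArg Prod.snd (hr j)
      refine ⟨⟨(r : Filter.Germ UU _), r, good_prod p q hP r ?_ ?_, rfl⟩, ?_⟩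
      · exact good_congr (Filter.Eventually.of_forall fun j => (hr1 j).symm) hα
      · exact good_congr (Filter.Eventually.of_forall fun j => (hr2 j).symm) hβ
      · refine Prod.ext ?_ ?_
        · exact GHom.ext_coe _ _ (Filter.Eventually.of_forall fun j => hr1 j)
        · exact GHom.ext_coe _ _ (Filter.Eventually.of_forall fun j => hr2 j)
  terminal := by
    rintro P ⟨hP⟩ a b
    have hs : Subsingleton (Pt P.sch) := ⟨fun a b => hP.hom_ext a b⟩
    obtain rfl : a = b := Subsingleton.elim _ _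
    refine ⟨⟨⟨_, _, good_refl a, rfl⟩⟩, ⟨?_⟩⟩
    rintro ⟨_, p, hp, rfl⟩ ⟨_, q, hq, rfl⟩
    refine GHom.ext_coe _ _ (Filter.Eventually.of_forall fun j => ?_)
    generalize p j = p'
    generalize q j = q'
    induction p' using Path.Homotopic.Quotient.ind with | mk p'
    induction q' using Path.Homotopic.Quotient.ind with | mk q'
    congr 1
    ext t
    exact Subsingleton.elim _ _
  connected := by
    intro X hX x y
    obtain ⟨p, hp⟩ := conn_main X.sch X.smooth hX x y
    exact ⟨⟨_, p, hp, rfl⟩⟩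
  lifting := by
    rintro X Y f hf hf' x y ⟨_, p, hp, rfl⟩
    obtain ⟨hc, hfin⟩ := cover_main f hf hf'
    choose e he r hr using fun j => PH_lift_exists (pushC f) hc (e := x) rfl (p j)
    obtain ⟨w₀, hw₀⟩ : ∃ w₀, ∀ᶠ j in UU, e j = w₀ := by
      have h3 : ∀ᶠ j in UU, e j ∈ pushC f ⁻¹' {y} := Filter.Eventually.of_forall he
      have h4 := (Ultrafilter.eventually_exists_mem_iff (f := Filter.hyperfilter ℕ)
        (hfin y) (P := fun w j => e j = w)).1 (h3.mono fun j hj => ⟨e j, hj, rfl⟩)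
      obtain ⟨w, -, hw⟩ := h4
      exact ⟨w, hw⟩
    have hw₀' : pushC f w₀ = y := by
      obtain ⟨j, hj⟩ := hw₀.exists
      rw [← hj]
      exact he j
    obtain ⟨j₀, hj₀⟩ := hw₀.exists
    have hex : ∀ j, ∃ s : PH x w₀, e j = w₀ → PHmap (pushC f) rfl hw₀' s = p j := by
      intro j
      by_cases h : e j = w₀
      · subst h
        exact ⟨r j, fun _ => hr j⟩
      · subst hj₀
        exact ⟨r j₀, fun h' => absurd h' h⟩
    choose s hs using hex
    have hgood : Good s := by
      intro Z g h1 h2 u z hz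
      have h1' : Etale (g ≫ f).left := by
        rw [Over.comp_left]
        infer_instance
      have h2' : IsFinite (g ≫ f).left := by
        rw [Over.comp_left]
        infer_instance
      obtain ⟨K, hK⟩ := hp Z (g ≫ f) h1' h2' u z (by rw [← push_comp, hz])
      refine ⟨K, fun ℓ hl hKl => ?_⟩
      filter_upwards [hK ℓ hl hKl, hw₀] with j hj hj' w hw q hq
      refine hj w (by rw [← push_comp, hw]; exact hw₀') q ?_
      have hz' : pushC g z = x := hz
      have hw' : pushC g w = w₀ := hw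
      have hq' : PHmap (pushC g) hz' hw' q = s j := hq
      rw [← hs j hj', ← hq', PHmap_comp]
      exact PHmap_congr (pushC_comp g f).symm _ _ _
    refine ⟨⟨w₀, ⟨_, s, hgood, rfl⟩⟩, ⟨hw₀', ?_⟩, ?_⟩
    · refine GHom.ext_coe _ _ ?_
      filter_upwards [hw₀] with j hj
      exact hs j hj
    · rintro ⟨w, ⟨_, s', hs', rfl⟩⟩ ⟨hw, h⟩
      have h' : ∀ᶠ j in UU, PHmap (pushC f) rfl hw (s' j) = p j :=
        Filter.Germ.coe_eq.1 (congrArg Subtype.val h)
      have h3 : ∀ᶠ j in UU, (⟨w, s' j⟩ : Σ z, PH x z) = ⟨w₀, s j⟩ := by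
        filter_upwards [h', hw₀] with j hj hj'
        exact PH_lift_unique (pushC f) hc rfl hw hw₀' (s' j) (s j) (hj.trans (hs j hj').symm)
      obtain ⟨j, hj⟩ := h3.exists
      have h4 : w = w₀ := congrArg Sigma.fst hj
      subst h4
      congr 1
      refine GHom.ext_coe _ _ ?_
      filter_upwards [h3] with j hj
      exact eq_of_heq (Sigma.mk.inj_iff.1 hj).2

end Pool.Agent.W481
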