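import Pool.Agent.W481.SchemeTop

/-!
The multiplicative group as a smooth quasi-projective variety.
-/

open CategoryTheory CategoryTheory.Limits AlgebraicGeometry Topology

namespace Pool.Agent.W481

/-- The coordinate ring of the multiplicative group. -/
abbrev GmRing : Type := Localization.Away (Polynomial.X : Polynomial ℂ)

/-- The coordinate. -/
noncomputable def GmRing.T : GmRing := algebraMap (Polynomial ℂ) GmRing Polynomial.X

theorem GmRing.isUnit_T : IsUnit GmRing.T :=
  IsLocalization.Away.algebraMap_isUnit (S := GmRing) (Polynomial.X : Polynomial ℂ)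

instance : Algebra.Smooth ℂ GmRing := by
  have h1 : Algebra.Smooth ℂ (Polynomial ℂ) := ⟨inferInstance, inferInstance⟩
  have h2 : Algebra.Smooth (Polynomial ℂ) GmRing :=
    Algebra.Smooth.of_isLocalization_Away (Polynomial.X : Polynomial ℂ)
  exact Algebra.Smooth.comp ℂ (Polynomial ℂ) GmRing

theorem smooth_specOver (A : Type) [CommRing A] [Algebra ℂ A] [h : Algebra.Smooth ℂ A] :
    Smooth (specOver A).hom := by
  show Smooth (Spec.map (CommRingCat.ofHom (algebraMap ℂ A)))
  rw [HasRingHomProperty.Spec_iff (P := @Smooth)]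
  exact RingHom.smooth_algebraMap.2 h

open HomogeneousLocalization in
theorem exists_immersion_Gm : ∃ i : Spec (.of GmRing) ⟶ ProjC 1, IsImmersion i ∧
    i ≫ pullback.snd _ _ = Spec.map (CommRingCat.ofHom (algebraMap ℂ GmRing)) := by
  let _ := MvPolynomial.gradedAlgebra (σ := Fin 2) (R := ℤ)
  let 𝒜 := MvPolynomial.homogeneousSubmodule (Fin 2) ℤ
  let f : MvPolynomial (Fin 2) ℤ := MvPolynomial.X 0 * MvPolynomial.X 1
  have hf : f ∈ 𝒜 2 := (MvPolynomial.isHomogeneous_X ℤ (0 : Fin 2)).mul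
    (MvPolynomial.isHomogeneous_X ℤ (1 : Fin 2))
  have h0 : (MvPolynomial.X 0 ^ 2 : MvPolynomial (Fin 2) ℤ) ∈ 𝒜 2 :=
    (MvPolynomial.isHomogeneous_X ℤ (0 : Fin 2)).pow 2
  have h1 : (MvPolynomial.X 1 ^ 2 : MvPolynomial (Fin 2) ℤ) ∈ 𝒜 2 :=
    (MvPolynomial.isHomogeneous_X ℤ (1 : Fin 2)).pow 2
  let e : MvPolynomial (Fin 2) ℤ →+* GmRing :=
    (MvPolynomial.aeval (R := ℤ) ![1, GmRing.T]).toRingHom
  have he0 : e (MvPolynomial.X 0) = 1 := by simp [e]
  have he1 : e (MvPolynomial.X 1) = GmRing.T := by simp [e]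
  have hu : IsUnit (e f) := by
    rw [map_mul, he0, he1, one_mul]
    exact GmRing.isUnit_T
  let φ : Away 𝒜 f →+* GmRing :=
    (Localization.awayLift e f hu).comp (algebraMap (Away 𝒜 f) (Localization.Away f))
  have key : ∀ (x : MvPolynomial (Fin 2) ℤ) (hx : x ∈ 𝒜 (1 • 2)),
      φ (Away.mk 𝒜 hf 1 x hx) * GmRing.T = e x := by
    intro x hx
    have h2 : (Away.mk 𝒜 hf 1 x hx).val * algebraMap _ (Localization.Away f) f =
        algebraMap _ (Localization.Away f) x := by
      rw [Away.val_mk]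
      simp [Localization.mk_eq_mk']
    have h3 := congrArg (Localization.awayLift e f hu) h2
    rw [map_mul] at h3
    have h4 : ∀ y, Localization.awayLift e f hu (algebraMap _ (Localization.Away f) y) = e y :=
      fun y => IsLocalization.lift_eq _ _
    rw [h4, h4] at h3
    have h5 : e f = GmRing.T := by rw [map_mul, he0, he1, one_mul]
    rw [h5] at h3
    exact h3
  have hT : GmRing.T ∈ φ.range := by
    refine ⟨Away.mk 𝒜 hf 1 (MvPolynomial.X 1 ^ 2) (by simpa using h1), ?_⟩
    apply GmRing.isUnit_T.mul_right_cancel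
    rw [key, map_pow, he1, pow_two]
  have hT' : ∃ v ∈ φ.range, v * GmRing.T = 1 := by
    refine ⟨_, ⟨Away.mk 𝒜 hf 1 (MvPolynomial.X 0 ^ 2) (by simpa using h0), rfl⟩, ?_⟩
    rw [key, map_pow, he0, one_pow]
  let Z : Scheme.{0} := Spec (.of (Away 𝒜 f))
  let j : Z ⟶ ProjZ 1 := Proj.awayι 𝒜 f hf two_pos
  let m : Spec (.of GmRing) ⟶ Z := Spec.map (CommRingCat.ofHom φ)
  let c : Spec (.of GmRing) ⟶ SpecC := Spec.map (CommRingCat.ofHom (algebraMap ℂ GmRing))
  let W : Scheme.{0} := pullback (terminal.from Z) (terminal.from SpecC)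
  let k : Spec (.of GmRing) ⟶ W := pullback.lift m c (Subsingleton.elim _ _)
  have hW : IsAffine W := inferInstance
  have hk1 : k ≫ pullback.fst _ _ = m := pullback.lift_fst _ _ _
  have hk2 : k ≫ pullback.snd _ _ = c := pullback.lift_snd _ _ _
  let Q : Subring GmRing := (k.appTop.hom.range).comap (Scheme.ΓSpecIso (.of GmRing)).inv.hom
  have hQ1 : ∀ a, φ a ∈ Q := by
    intro a
    refine ⟨(pullback.fst (terminal.from Z) (terminal.from SpecC)).appTop
      ((Scheme.ΓSpecIso (.of (Away 𝒜 f))).inv a), ?_⟩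
    have h2 := congrArg (fun g => g.hom a) (Scheme.ΓSpecIso_inv_naturality (CommRingCat.ofHom φ))
    have h3 : m.appTop = (pullback.fst (terminal.from Z) (terminal.from SpecC)).appTop ≫
        k.appTop := by
      rw [← hk1]
      rfl
    refine Eq.trans ?_ h2.symm
    show _ = m.appTop ((Scheme.ΓSpecIso (.of (Away 𝒜 f))).inv a)
    rw [h3]
    rfl
  have hQ2 : ∀ a : ℂ, algebraMap ℂ GmRing a ∈ Q := by
    intro a
    refine ⟨(pullback.snd (terminal.from Z) (terminal.from SpecC)).appTop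
      ((Scheme.ΓSpecIso (.of ℂ)).inv a), ?_⟩
    have h2 := congrArg (fun g => g.hom a)
      (Scheme.ΓSpecIso_inv_naturality (CommRingCat.ofHom (algebraMap ℂ GmRing)))
    have h3 : c.appTop = (pullback.snd (terminal.from Z) (terminal.from SpecC)).appTop ≫
        k.appTop := by
      rw [← hk2]
      rfl
    refine Eq.trans ?_ h2.symm
    show _ = c.appTop ((Scheme.ΓSpecIso (.of ℂ)).inv a)
    rw [h3]
    rfl
  have hQT : GmRing.T ∈ Q := by
    obtain ⟨a, ha⟩ := hT
    rw [← ha]
    exact hQ1 a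
  have hQ3 : ∀ p : Polynomial ℂ, algebraMap (Polynomial ℂ) GmRing p ∈ Q := by
    intro p
    induction p using Polynomial.induction_on' with
    | add p q hp hq => rw [map_add]; exact Q.add_mem hp hq
    | monomial n a =>
      rw [← Polynomial.C_mul_X_pow_eq_monomial, map_mul, map_pow]
      exact Q.mul_mem (hQ2 a) (Q.pow_mem hQT n)
  have hQ4 : ∀ g, g ∈ Q := by
    intro g
    obtain ⟨v, ⟨a, rfl⟩, hv⟩ := hT'
    obtain ⟨⟨p, ⟨_, n, rfl⟩⟩, hp⟩ := IsLocalization.surj
      (Submonoid.powers (Polynomial.X : Polynomial ℂ)) g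
    have h2 : g = algebraMap (Polynomial ℂ) GmRing p * φ a ^ n := by
      rw [← hp]
      simp only [map_pow]
      have h3 : algebraMap (Polynomial ℂ) GmRing Polynomial.X ^ n * φ a ^ n = 1 := by
        rw [← mul_pow, mul_comm, show algebraMap (Polynomial ℂ) GmRing Polynomial.X = GmRing.T
          from rfl, hv, one_pow]
      rw [mul_assoc, h3, mul_one]
    rw [h2]
    exact Q.mul_mem (hQ3 p) (Q.pow_mem (hQ1 a) n)
  have hk : IsClosedImmersion k := by
    refine IsClosedImmersion.of_surjective_of_isAffine k ?_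
    intro y
    obtain ⟨z, hz⟩ := hQ4 ((Scheme.ΓSpecIso (.of GmRing)).hom y)
    refine ⟨z, ?_⟩
    rw [show k.appTop z = _ from hz]
    show ((Scheme.ΓSpecIso (.of GmRing)).hom ≫ (Scheme.ΓSpecIso (.of GmRing)).inv) y = y
    simp
  have hj1 : terminal.from Z ≫ 𝟙 _ = j ≫ terminal.from (ProjZ 1) := Subsingleton.elim _ _
  have hj2 : terminal.from SpecC ≫ 𝟙 _ = 𝟙 SpecC ≫ terminal.from SpecC := Subsingleton.elim _ _
  have hjo : IsOpenImmersion j := inferInstanceAs (IsOpenImmersion (Proj.awayι 𝒜 f hf two_pos))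
  let l : W ⟶ ProjC 1 := pullback.map _ _ _ _ j (𝟙 _) (𝟙 _) hj1 hj2
  have hl : IsOpenImmersion l := inferInstance
  refine ⟨k ≫ l, inferInstance, ?_⟩
  rw [Category.assoc, pullback.lift_snd, Category.comp_id, hk2]


/-- The multiplicative group. -/
noncomputable def Gm : CVar where
  sch := specOver GmRing
  smooth := smooth_specOver GmRing
  quasiProj := by
    obtain ⟨i, hi, h⟩ := exists_immersion_Gm
    exact ⟨1, i, hi, h⟩

/-- Evaluation of Laurent polynomials. -/
noncomputable def gmEval (z : {z : ℂ // z ≠ 0}) : Sp GmRing :=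
  IsLocalization.liftAlgHom (M := Submonoid.powers (Polynomial.X : Polynomial ℂ))
    (f := Polynomial.aeval z.1) (by
      rintro ⟨_, n, rfl⟩
      simpa using fun h => absurd h z.2)

theorem gmEval_algebraMap (z : {z : ℂ // z ≠ 0}) (p : Polynomial ℂ) :
    (Sp.hom (gmEval z)) (algebraMap (Polynomial ℂ) GmRing p) = p.eval z.1 := by
  show IsLocalization.liftAlgHom _ _ = _
  rw [IsLocalization.liftAlgHom_apply, IsLocalization.lift_eq]
  simp

theorem gmEval_T (z : {z : ℂ // z ≠ 0}) :
    (Sp.hom (gmEval z)) GmRing.T = z.1 := by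
  rw [GmRing.T, gmEval_algebraMap, Polynomial.eval_X]

theorem continuous_gmEval : Continuous gmEval := by
  refine continuous_induced_rng.2 (continuous_pi fun a => ?_)
  obtain ⟨⟨p, ⟨_, n, rfl⟩⟩, hp⟩ := IsLocalization.surj
    (Submonoid.powers (Polynomial.X : Polynomial ℂ)) a
  have h : ∀ z : {z : ℂ // z ≠ 0}, (Sp.hom (gmEval z)) a =
      p.eval z.1 / z.1 ^ n := by
    intro z
    have h1 := congrArg (Sp.hom (gmEval z)) hp
    rw [map_mul, gmEval_algebraMap, gmEval_algebraMap] at h1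
    rw [eq_div_iff (pow_ne_zero n z.2), ← h1]
    simp
  refine Continuous.congr ?_ (fun z => (h z).symm)
  exact (p.continuous.comp continuous_subtype_val).div (continuous_subtype_val.pow n)
    (fun z => pow_ne_zero n z.2)

theorem gm_algHom_ext {A : Type} [CommRing A] [Algebra ℂ A] {f g : GmRing →ₐ[ℂ] A}
    (h : f GmRing.T = g GmRing.T) : f = g := by
  refine IsLocalization.algHom_ext (Submonoid.powers (Polynomial.X : Polynomial ℂ)) ?_
  exact Polynomial.algHom_ext h

/-- The complex point of the multiplicative group. -/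
noncomputable def gmPt (z : {z : ℂ // z ≠ 0}) : Pt Gm.sch := spPt (gmEval z)

theorem continuous_gmPt : Continuous gmPt := isHomeomorph_spPt.continuous.comp continuous_gmEval

/-- The power map on the coordinate ring. -/
noncomputable def gmPowHom (n : ℕ) : GmRing →ₐ[ℂ] GmRing :=
  IsLocalization.liftAlgHom (M := Submonoid.powers (Polynomial.X : Polynomial ℂ))
    (f := Polynomial.aeval (GmRing.T ^ n)) (by
      rintro ⟨_, m, rfl⟩
      simpa using (GmRing.isUnit_T.pow n).pow m)

theorem gmPowHom_T (n : ℕ) : gmPowHom n GmRing.T = GmRing.T ^ n := by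
  show IsLocalization.liftAlgHom _ (algebraMap (Polynomial ℂ) GmRing Polynomial.X) = _
  rw [IsLocalization.liftAlgHom_apply, IsLocalization.lift_eq]
  simp

/-- The power map on the multiplicative group. -/
noncomputable def gmPow (n : ℕ) : Gm.sch ⟶ Gm.sch := specMap (gmPowHom n)

theorem gmPt_push (n : ℕ) (z : {z : ℂ // z ≠ 0}) :
    (gmPt z).push (gmPow n) = gmPt ⟨z.1 ^ n, pow_ne_zero n z.2⟩ := by
  have h : Sp.comap (gmPowHom n) (gmEval z) = gmEval ⟨z.1 ^ n, pow_ne_zero n z.2⟩ := by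
    refine gm_algHom_ext ?_
    refine Eq.trans ?_ (gmEval_T _).symm
    show (Sp.hom (gmEval z)) (gmPowHom n GmRing.T) = _
    rw [gmPowHom_T, map_pow, gmEval_T]
  rw [gmPt, gmPt, ← h]
  exact (spPt_comap _ _).symm

/-- The coordinate function as a global unit. -/
noncomputable def gmT : Γ(Gm.sch.left, ⊤)ˣ :=
  (Units.map (RingHom.toMonoidHom (Scheme.ΓSpecIso (.of GmRing)).inv.hom)
    GmRing.isUnit_T.unit : Γ(Spec (.of GmRing), ⊤)ˣ)

end Pool.Agent.W481
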