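import Pool.Agent.W481.Defs

/-!
The classical topology on the complex points of affine open subschemes.
-/

open CategoryTheory CategoryTheory.Limits AlgebraicGeometry Topology

namespace Pool.Agent.W481

theorem Mem.mono {X : Over SpecC} {x : Pt X} {U V : X.left.Opens} (h : x.Mem U) (hUV : U ≤ V) :
    x.Mem V := h.trans fun _ hz => hUV hz

/-- The point of the scheme underlying a complex point. -/
noncomputable def Pt.pt {X : Over SpecC} (x : Pt X) : X.left :=
  x.mor (default : PrimeSpectrum ℂ)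

theorem mem_iff_pt {X : Over SpecC} {x : Pt X} {U : X.left.Opens} : x.Mem U ↔ x.pt ∈ U := by
  constructor
  · intro h
    exact h (Set.mem_univ _)
  · intro h z _
    have : z = (default : PrimeSpectrum ℂ) := Subsingleton.elim (α := PrimeSpectrum ℂ) _ _
    rw [this]
    exact h

theorem mem_top {X : Over SpecC} (x : Pt X) : x.Mem ⊤ := le_refl _

theorem mem_inf {X : Over SpecC} {x : Pt X} {U V : X.left.Opens} (h : x.Mem U) (h' : x.Mem V) :
    x.Mem (U ⊓ V) := by
  rw [mem_iff_pt] at *
  exact ⟨h, h'⟩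

theorem value_res {X : Over SpecC} (x : Pt X) {U V : X.left.Opens} (hV : x.Mem V)
    (i : V ⟶ U) (f : Γ(X.left, U)) :
    x.value hV (X.left.presheaf.map i.op f) = x.value (Mem.mono hV i.le) f := by
  have h := Scheme.Hom.map_appLE x.mor (U := V) (V := ⊤) hV (i.op)
  simp only [Pt.value]
  rw [← h]
  rfl

theorem isUnit_iff_top_le (X : Scheme.{0}) (f : Γ(X, ⊤)) : ⊤ ≤ X.basicOpen f ↔ IsUnit f := by
  constructor
  · intro h
    have h1 := RingedSpace.isUnit_res_basicOpen _ f
    have h2 := h1.map (X.presheaf.map (homOfLE h).op).hom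
    have h3 : (X.presheaf.map (homOfLE h).op).hom
        ((X.presheaf.map (homOfLE (X.basicOpen_le f)).op).hom f) = f := by
      rw [← CommRingCat.comp_apply, ← Functor.map_comp]
      have : (homOfLE (X.basicOpen_le f)).op ≫ (homOfLE h).op = 𝟙 _ := Subsingleton.elim _ _
      rw [this, X.presheaf.map_id]
      rfl
    rw [← h3]
    exact h2
  · intro h
    rw [X.basicOpen_of_isUnit h]

theorem mem_basicOpen {X : Over SpecC} (x : Pt X) {U : X.left.Opens} (hU : x.Mem U)
    (f : Γ(X.left, U)) : x.Mem (X.left.basicOpen f) ↔ x.value hU f ≠ 0 := by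
  have h := Scheme.basicOpen_appLE x.mor ⊤ U hU f
  rw [top_inf_eq] at h
  have h2 : x.Mem (X.left.basicOpen f) ↔ IsUnit (x.mor.appLE U ⊤ hU f) := by
    rw [Pt.Mem, ← h]
    exact isUnit_iff_top_le _ _
  rw [h2, ← isUnit_iff_ne_zero]
  have h3 : x.value hU f = (Scheme.ΓSpecIso (.of ℂ)).hom (x.mor.appLE U ⊤ hU f) := rfl
  rw [h3]
  exact (isUnit_map_iff (Scheme.ΓSpecIso (.of ℂ)).commRingCatIsoToRingEquiv _).symm


theorem isOpen_mem {X : Over SpecC} (U : X.left.Opens) : IsOpen {x : Pt X | x.Mem U} := by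
  refine TopologicalSpace.isOpen_generateFrom_of_mem ⟨U, 0, Set.univ, isOpen_univ, ?_⟩
  ext x
  simp

theorem isOpen_value {X : Over SpecC} (U : X.left.Opens) (f : Γ(X.left, U)) {V : Set ℂ}
    (hV : IsOpen V) : IsOpen {x : Pt X | ∃ h : x.Mem U, x.value h f ∈ V} :=
  TopologicalSpace.isOpen_generateFrom_of_mem ⟨U, f, V, hV, rfl⟩

/-- evaluation at the points of an open subscheme -/
noncomputable def evU {X : Over SpecC} (U : X.left.Opens) (x : {x : Pt X // x.Mem U})
    (f : Γ(X.left, U)) : ℂ := x.1.value x.2 f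

theorem continuous_evU {X : Over SpecC} (U : X.left.Opens) : Continuous (evU U) := by
  refine continuous_pi fun f => ⟨fun V hV => ?_⟩
  have h := (isOpen_value U f hV).preimage (continuous_subtype_val (p := fun x : Pt X => x.Mem U))
  convert h using 1
  ext x
  exact ⟨fun h => ⟨x.2, h⟩, fun ⟨_, h⟩ => h⟩

theorem isInducing_evU {X : Over SpecC} {U : X.left.Opens} (hU : IsAffineOpen U) :
    IsInducing (evU U) := by
  refine ⟨le_antisymm (continuous_iff_le_induced.1 (continuous_evU U)) ?_⟩
  -- the weak topology is finer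
  rw [← continuous_id_iff_le]
  let t : TopologicalSpace {x : Pt X // x.Mem U} :=
    TopologicalSpace.induced (evU U) inferInstance
  have hev : Continuous[t, _] (evU U) := continuous_induced_dom
  have hev' : ∀ f, Continuous[t, _] fun x => evU U x f := fun f =>
    (continuous_apply f).comp hev
  refine continuous_induced_rng.2 (continuous_generateFrom_iff.2 ?_)
  rintro _ ⟨W, g, V, hV, rfl⟩
  rw [isOpen_iff_mem_nhds]
  rintro x ⟨hxW, hxV⟩
  obtain ⟨r, hr, hxr⟩ := hU.exists_basicOpen_le ⟨x.1.pt, mem_iff_pt.1 hxW⟩ (mem_iff_pt.1 x.2)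
  have := hU.isLocalization_basicOpen r
  have hxr' : x.1.Mem (X.left.basicOpen r) := mem_iff_pt.2 hxr
  have hrU : X.left.basicOpen r ≤ U := X.left.basicOpen_le r
  obtain ⟨⟨a, ⟨_, n, rfl⟩⟩, ha⟩ := IsLocalization.surj (Submonoid.powers r)
    (X.left.presheaf.map (homOfLE hr).op g)
  have key : ∀ y : {x : Pt X // x.Mem U}, evU U y r ≠ 0 → ∃ h : y.1.Mem W,
      y.1.value h g = evU U y a / evU U y r ^ n := by
    intro y hy
    have hyr : y.1.Mem (X.left.basicOpen r) := (mem_basicOpen y.1 y.2 r).2 hy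
    refine ⟨Mem.mono hyr hr, ?_⟩
    have h1 := congrArg (y.1.value hyr) ha
    rw [map_mul, value_res] at h1
    have h2 : ∀ b : Γ(X.left, U), y.1.value hyr (algebraMap Γ(X.left, U)
        Γ(X.left, X.left.basicOpen r) b) = evU U y b := fun b =>
      value_res y.1 hyr (homOfLE hrU) b
    simp only [h2] at h1
    rw [eq_div_iff (pow_ne_zero n hy), ← h1, show evU U y (r ^ n) = evU U y r ^ n from
      map_pow (y.1.value y.2) r n]
  have hx0 : evU U x r ≠ 0 := (mem_basicOpen x.1 x.2 r).1 hxr'
  have hO : {y : {x : Pt X // x.Mem U} | evU U y r ≠ 0 ∧ evU U y a / evU U y r ^ n ∈ V} ∈ 𝓝 x := by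
    have h1 : ∀ᶠ y in 𝓝 x, evU U y r ≠ 0 := (hev' r).continuousAt.eventually_ne hx0
    have h2 : ContinuousAt (fun y => evU U y a / evU U y r ^ n) x :=
      ((hev' a).continuousAt).div (((hev' r).pow n).continuousAt) (pow_ne_zero n hx0)
    have h3 : ∀ᶠ y in 𝓝 x, evU U y a / evU U y r ^ n ∈ V := by
      refine h2.eventually_mem (hV.mem_nhds ?_)
      obtain ⟨h, h'⟩ := key x hx0
      rw [← h']
      exact hxV
    exact h1.and h3
  filter_upwards [hO] with y hy
  obtain ⟨h, h'⟩ := key y hy.1
  refine ⟨h, ?_⟩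
  have h'' := hy.2
  rw [← h'] at h''
  exact h''


/-! ### Open immersions -/

theorem pt_mor_hom {X : Over SpecC} (x : Pt X) : x.mor ≫ X.hom = 𝟙 SpecC :=
  Over.w (show Over.mk (𝟙 SpecC) ⟶ X from x)

theorem Pt.ext_mor {X : Over SpecC} {x y : Pt X} (h : x.mor = y.mor) : x = y :=
  Over.OverMorphism.ext h

/-- A complex point from a morphism. -/
noncomputable def Pt.mk' {X : Over SpecC} (m : SpecC ⟶ X.left) (h : m ≫ X.hom = 𝟙 SpecC) : Pt X :=
  Over.homMk (U := Over.mk (𝟙 SpecC)) (V := X) m h

theorem Pt.mk'_mor {X : Over SpecC} (m : SpecC ⟶ X.left) (h : m ≫ X.hom = 𝟙 SpecC) :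
    (Pt.mk' m h).mor = m := rfl

theorem exists_push_of_mem {X Y : Over SpecC} (f : X ⟶ Y) [IsOpenImmersion f.left] (y : Pt Y)
    (hy : y.Mem f.left.opensRange) : ∃ x : Pt X, x.push f = y := by
  have hr : Set.range y.mor ⊆ Set.range f.left := by
    rintro _ ⟨z, rfl⟩
    exact hy (Set.mem_univ z)
  refine ⟨Pt.mk' (IsOpenImmersion.lift f.left y.mor hr) ?_, ?_⟩
  · rw [← Over.w f, ← Category.assoc, IsOpenImmersion.lift_fac]
    exact pt_mor_hom y
  · apply Pt.ext_mor
    exact IsOpenImmersion.lift_fac _ _ _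

theorem push_injective {X Y : Over SpecC} (f : X ⟶ Y) [Mono f.left] :
    Function.Injective (Pt.push f) := by
  intro x y h
  apply Pt.ext_mor
  have h' : x.mor ≫ f.left = y.mor ≫ f.left := congrArg Pt.mor h
  exact (cancel_mono f.left).1 h'

theorem range_push {X Y : Over SpecC} (f : X ⟶ Y) [IsOpenImmersion f.left] :
    Set.range (Pt.push f) = {y | y.Mem f.left.opensRange} := by
  ext y
  constructor
  · rintro ⟨x, rfl⟩
    rw [Set.mem_ofPred_eq, mem_push]
    rw [mem_iff_pt]
    exact ⟨x.pt, rfl⟩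
  · intro hy
    exact exists_push_of_mem f y hy

theorem isOpenEmbedding_push {X Y : Over SpecC} (f : X ⟶ Y) [IsOpenImmersion f.left] :
    IsOpenEmbedding (Pt.push f) := by
  refine ⟨⟨⟨le_antisymm (continuous_iff_le_induced.1 (continuous_push f)) ?_⟩,
    push_injective f⟩, ?_⟩
  · rw [← continuous_id_iff_le]
    let t : TopologicalSpace (Pt X) := TopologicalSpace.induced (Pt.push f) inferInstance
    have hf : Continuous[t, _] (Pt.push f) := continuous_induced_dom
    refine continuous_generateFrom_iff.2 ?_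
    rintro _ ⟨U, g, V, hV, rfl⟩
    have h1 := (isOpen_value (X := Y) (f.left ''ᵁ U) ((f.left.appIso U).inv g) hV).preimage hf
    convert h1 using 1
    ext x
    have hU : f.left ⁻¹ᵁ f.left ''ᵁ U = U := Scheme.Hom.preimage_image_eq _ _
    have hmem : (x.push f).Mem (f.left ''ᵁ U) ↔ x.Mem U := by rw [mem_push, hU]
    have hval : ∀ (h : (x.push f).Mem (f.left ''ᵁ U)) (h' : x.Mem U),
        (x.push f).value h ((f.left.appIso U).inv g) = x.value h' g := by
      intro h h'
      rw [value_push]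
      have h2 : f.left.app (f.left ''ᵁ U) ((f.left.appIso U).inv g) =
          X.left.presheaf.map (eqToHom hU).op g := by
        rw [← CommRingCat.comp_apply, Scheme.Hom.appIso_inv_app]
      rw [h2]
      exact value_res x _ (eqToHom hU) g
    constructor
    · rintro ⟨h, h'⟩
      exact ⟨hmem.2 h, by rwa [hval (hmem.2 h) h]⟩
    · rintro ⟨h, h'⟩
      rw [hval h (hmem.1 h)] at h'
      exact ⟨hmem.1 h, h'⟩
  · rw [range_push]
    exact isOpen_mem _

/-! ### Affine schemes -/

/-- The complex points of a commutative `ℂ`-algebra, with the weak topology. -/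
def Sp (A : Type) [CommRing A] [Algebra ℂ A] : Type := A →ₐ[ℂ] ℂ

/-- The homomorphism defined by a point. -/
def Sp.hom {A : Type} [CommRing A] [Algebra ℂ A] (φ : Sp A) : A →ₐ[ℂ] ℂ := φ

noncomputable instance (A : Type) [CommRing A] [Algebra ℂ A] : TopologicalSpace (Sp A) :=
  TopologicalSpace.induced (fun (φ : A →ₐ[ℂ] ℂ) (a : A) => φ a) inferInstance

/-- The affine scheme of a `ℂ`-algebra. -/
noncomputable def specOver (A : Type) [CommRing A] [Algebra ℂ A] : Over SpecC :=
  Over.mk (Spec.map (CommRingCat.ofHom (algebraMap ℂ A)))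

/-- The morphism of affine schemes defined by a homomorphism of algebras. -/
noncomputable def specMap {A B : Type} [CommRing A] [Algebra ℂ A] [CommRing B] [Algebra ℂ B]
    (f : A →ₐ[ℂ] B) : specOver B ⟶ specOver A :=
  Over.homMk (Spec.map (CommRingCat.ofHom f.toRingHom)) (by
    show Spec.map _ ≫ Spec.map _ = Spec.map _
    rw [← Spec.map_comp, ← CommRingCat.ofHom_comp]
    congr 2
    ext
    exact f.commutes _)

section affine

variable {A : Type} [CommRing A] [Algebra ℂ A]

/-- The complex point defined by a homomorphism. -/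
noncomputable def ptOf (φ : A →ₐ[ℂ] ℂ) : Pt (specOver A) :=
  Pt.mk' (X := specOver A) (Spec.map (CommRingCat.ofHom φ.toRingHom)) (by
    show Spec.map _ ≫ Spec.map _ = 𝟙 _
    rw [← Spec.map_comp, ← CommRingCat.ofHom_comp, ← Spec.map_id]
    congr 1
    ext z
    exact φ.commutes z)

/-- The global function defined by an element. -/
noncomputable def glob (a : A) : Γ((specOver A).left, ⊤) := (Scheme.ΓSpecIso (.of A)).inv a

omit [Algebra ℂ A] in
theorem value_inv_eq (s : Spec (.of A) ⟶ SpecC) (x : Pt (Over.mk s))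
    (φ : CommRingCat.of A ⟶ CommRingCat.of ℂ) (h : x.mor = Spec.map φ) (a : A) :
    x.value (mem_top x) ((Scheme.ΓSpecIso (.of A)).inv a) = φ a := by
  have h1 : x.value (mem_top x) ((Scheme.ΓSpecIso (.of A)).inv a) =
      (Scheme.ΓSpecIso (.of ℂ)).hom ((Spec.map φ).appTop ((Scheme.ΓSpecIso (.of A)).inv a)) := by
    simp only [Pt.value, h]
    rfl
  rw [h1, ← CommRingCat.comp_apply, ← CommRingCat.comp_apply,
    Scheme.ΓSpecIso_naturality, ← Category.assoc]
  simp

theorem value_glob_eq (x : Pt (specOver A)) (φ : CommRingCat.of A ⟶ CommRingCat.of ℂ)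
    (h : x.mor = Spec.map φ) (a : A) :
    x.value (mem_top x) (glob a) = φ a := by
  have h1 : x.value (mem_top x) (glob a) =
      (Scheme.ΓSpecIso (.of ℂ)).hom ((Spec.map φ).appTop (glob a)) := by
    simp only [Pt.value, h]
    rfl
  rw [h1, glob, ← CommRingCat.comp_apply, ← CommRingCat.comp_apply,
    Scheme.ΓSpecIso_naturality, ← Category.assoc]
  simp

theorem ptOf_value (φ : A →ₐ[ℂ] ℂ) (a : A) :
    (ptOf φ).value (mem_top _) (glob a) = φ a :=
  value_glob_eq (ptOf φ) _ rfl a

theorem ptOf_injective : Function.Injective (ptOf (A := A)) := by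
  intro φ ψ h
  ext a
  rw [← ptOf_value, h, ptOf_value]

theorem ptOf_surjective : Function.Surjective (ptOf (A := A)) := by
  intro x
  let f : CommRingCat.of A ⟶ CommRingCat.of ℂ := Spec.preimage x.mor
  have hf : Spec.map f = x.mor := Spec.map_preimage _
  have h1 : Spec.map f ≫ Spec.map (CommRingCat.ofHom (algebraMap ℂ A)) = 𝟙 _ := by
    rw [hf]
    exact pt_mor_hom x
  rw [← Spec.map_comp, ← Spec.map_id] at h1
  have h2 := Spec.map_injective h1
  refine ⟨{ toRingHom := f.hom, commutes' := fun z => ?_ }, ?_⟩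
  · exact congrArg (fun g : CommRingCat.of ℂ ⟶ CommRingCat.of ℂ => g.hom z) h2
  · apply Pt.ext_mor
    exact hf

/-- the complex point of a point of `Sp A` -/
noncomputable def spPt (φ : Sp A) : Pt (specOver A) := ptOf (Sp.hom φ)

theorem isHomeomorph_spPt : IsHomeomorph (spPt (A := A)) := by
  have hU : IsAffineOpen (⊤ : (specOver A).left.Opens) := by
    have : IsAffine (specOver A).left := inferInstanceAs (IsAffine (Spec (.of A)))
    exact isAffineOpen_top _
  let j : Pt (specOver A) → {x : Pt (specOver A) // x.Mem ⊤} := fun x => ⟨x, mem_top _⟩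
  have hj : IsInducing j := by
    have : IsInducing (Subtype.val ∘ j) := IsInducing.id
    exact IsInducing.of_comp (continuous_id.subtype_mk _) continuous_subtype_val this
  have h1 : IsInducing (fun x : Pt (specOver A) => evU ⊤ (j x)) := (isInducing_evU hU).comp hj
  have h2 : IsInducing (fun (x : Pt (specOver A)) (a : A) =>
      x.value (mem_top _) (glob a)) := by
    let e : (Γ((specOver A).left, ⊤) → ℂ) ≃ₜ (A → ℂ) :=
      (Homeomorph.piCongrLeft (Y := fun _ => ℂ)
        (Scheme.ΓSpecIso (.of A)).symm.commRingCatIsoToRingEquiv.toEquiv).symm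
    have h3 := e.isInducing.comp h1
    convert h3 using 1
    ext x a
    rfl
  have h3 : IsInducing (spPt (A := A)) := by
    rw [← h2.of_comp_iff]
    refine ⟨?_⟩
    have : ((fun (x : Pt (specOver A)) (a : A) => x.value (mem_top _) (glob a)) ∘
        (spPt (A := A))) = fun (φ : A →ₐ[ℂ] ℂ) (a : A) => φ a := by
      ext φ a
      exact ptOf_value φ a
    rw [this]
    rfl
  exact isHomeomorph_iff_isEmbedding_surjective.2 ⟨⟨h3, ptOf_injective⟩, ptOf_surjective⟩

end affine

/-- Restriction of points along a homomorphism of algebras. -/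
noncomputable def Sp.comap {A B : Type} [CommRing A] [Algebra ℂ A] [CommRing B] [Algebra ℂ B]
    (f : A →ₐ[ℂ] B) : Sp B → Sp A := fun φ => AlgHom.comp (Sp.hom φ) f

theorem continuous_sp_eval {A : Type} [CommRing A] [Algebra ℂ A] (a : A) :
    Continuous fun φ : Sp A => (Sp.hom φ) a :=
  (continuous_apply a).comp continuous_induced_dom

theorem continuous_to_sp {T A : Type} [TopologicalSpace T] [CommRing A] [Algebra ℂ A]
    (f : T → Sp A) (h : ∀ a : A, Continuous fun t => (Sp.hom (f t)) a) :
    Continuous f :=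
  continuous_induced_rng.2 (continuous_pi h)

theorem spPt_comap {A B : Type} [CommRing A] [Algebra ℂ A] [CommRing B] [Algebra ℂ B]
    (f : A →ₐ[ℂ] B) (φ : Sp B) : spPt (Sp.comap f φ) = (spPt φ).push (specMap f) := by
  apply Pt.ext_mor
  show Spec.map _ = Spec.map _ ≫ Spec.map _
  rw [← Spec.map_comp, ← CommRingCat.ofHom_comp]
  rfl

end Pool.Agent.W481
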