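import Pool.Agent.W481.Cover
import Pool.Agent.W481.SchemeTop

/-!
Good sequences of classes of paths.
-/

open CategoryTheory CategoryTheory.Limits AlgebraicGeometry Topology

namespace Pool.Agent.W481

/-- A nonprincipal ultrafilter on `ℕ`. -/
noncomputable abbrev UU : Filter ℕ := (Filter.hyperfilter ℕ : Ultrafilter ℕ)

theorem exists_lam : ∃ l : ℂ →ₗ[ℚ] ℚ, l (2 * Real.pi * Complex.I) = 1 := by
  have h0 : (2 * Real.pi * Complex.I : ℂ) ≠ 0 := Complex.two_pi_I_ne_zero
  obtain ⟨l, hl⟩ := (LinearMap.toSpanSingleton ℚ ℂ (2 * Real.pi * Complex.I)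
    ).exists_leftInverse_of_injective (by
      rw [LinearMap.ker_eq_bot]
      intro a b hab
      simpa [h0, Rat.smul_def] using hab)
  refine ⟨l, ?_⟩
  have := LinearMap.congr_fun hl 1
  simpa using this

/-- A `ℚ`-linear map from the complex numbers to the rational numbers which maps `2πi` to `1`. -/
noncomputable def lam : ℂ →ₗ[ℚ] ℚ := exists_lam.choose

theorem lam_two_pi_I : lam (2 * Real.pi * Complex.I) = 1 := exists_lam.choose_spec

/-- `x` is divisible by `ℓ` in the localisation of `ℤ` at the prime `ℓ`. -/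
def Dv (ℓ : ℕ) (x : ℚ) : Prop := ∃ a b : ℤ, ¬ (ℓ : ℤ) ∣ b ∧ x * b = ℓ * a

theorem Dv_zero {ℓ : ℕ} (hl : ℓ.Prime) : Dv ℓ 0 := by
  refine ⟨0, 1, ?_, by simp⟩
  intro h
  exact hl.one_lt.ne' (by exact_mod_cast Int.eq_one_of_dvd_one (by positivity) h)

theorem Dv_add {ℓ : ℕ} (hl : ℓ.Prime) {x y : ℚ} (hx : Dv ℓ x) (hy : Dv ℓ y) : Dv ℓ (x + y) := by
  obtain ⟨a, b, hb, h⟩ := hx
  obtain ⟨c, d, hd, h'⟩ := hy
  refine ⟨a * d + c * b, b * d, ?_, ?_⟩
  · intro hh
    rcases (Nat.prime_iff_prime_int.1 hl).dvd_or_dvd hh with h1 | h1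
    · exact hb h1
    · exact hd h1
  · push_cast
    linear_combination (d : ℚ) * h + (b : ℚ) * h'

theorem Dv_neg {ℓ : ℕ} {x : ℚ} (hx : Dv ℓ x) : Dv ℓ (-x) := by
  obtain ⟨a, b, hb, h⟩ := hx
  refine ⟨-a, b, hb, ?_⟩
  push_cast
  linear_combination -h

theorem continuous_value {X : Over SpecC} (g : Γ(X.left, ⊤)) :
    Continuous fun x : Pt X => x.value (mem_top x) g := by
  refine ⟨fun V hV => ?_⟩
  refine TopologicalSpace.isOpen_generateFrom_of_mem ⟨⊤, g, V, hV, ?_⟩
  ext x
  simp [mem_top]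

/-- The continuous function defined by an invertible regular function. -/
noncomputable def unitFun {X : Over SpecC} (u : Γ(X.left, ⊤)ˣ) : C(Pt X, Cx) where
  toFun x := ⟨x.value (mem_top x) u, (u.isUnit.map (x.value (mem_top x))).ne_zero⟩
  continuous_toFun := (continuous_value (u : Γ(X.left, ⊤))).subtype_mk _

theorem unitFun_push {X Y : Over SpecC} (f : X ⟶ Y) (u : Γ(Y.left, ⊤)ˣ) :
    (unitFun u).comp (pushC f) = unitFun (Units.map (f.left.appTop.hom : _ →* _) u) := by
  ext x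
  exact value_push f x ⊤ (mem_top _) u

/-- A sequence `p` of classes of paths is good if for all finite étale covers `f : Z ⟶ X`, all
invertible functions `u` on `Z` and all points `z` above `x`, for almost all primes `ℓ`, and for
almost all `j` (in the sense of the ultrafilter), the value of `lam` at the variation of `log u`
along the lift of `p j` is divisible by `ℓ` at `ℓ`. -/
def Good {X : Over SpecC} {x y : Pt X} (p : ℕ → PH x y) : Prop :=
  ∀ (Z : Over SpecC) (f : Z ⟶ X), Etale f.left → IsFinite f.left → ∀ (u : Γ(Z.left, ⊤)ˣ)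
    (z : Pt Z) (hz : z.push f = x), ∃ K : ℕ, ∀ ℓ : ℕ, ℓ.Prime → K ≤ ℓ → ∀ᶠ j in UU,
      ∀ (w : Pt Z) (hw : w.push f = y) (q : PH z w),
        PHmap (pushC f) hz hw q = p j → Dv ℓ (lam (dl (unitFun u) q))

theorem good_congr {X : Over SpecC} {x y : Pt X} {p q : ℕ → PH x y} (h : p =ᶠ[UU] q)
    (hp : Good p) : Good q := by
  intro Z f h1 h2 u z hz
  obtain ⟨K, hK⟩ := hp Z f h1 h2 u z hz
  refine ⟨K, fun ℓ hl hKl => ?_⟩
  filter_upwards [hK ℓ hl hKl, h] with j hj hj' w hw q' hq'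
  exact hj w hw q' (hq'.trans hj'.symm)

theorem good_refl {X : Over SpecC} (x : Pt X) :
    Good (fun _ => Path.Homotopic.Quotient.refl x) := by
  intro Z f h1 h2 u z hz
  refine ⟨0, fun ℓ hl _ => Filter.Eventually.of_forall fun j w hw q hq => ?_⟩
  have hc := (cover_main f h1 h2).1
  have h3 := PH_lift_unique (pushC f) hc hz hw hz q (.refl z)
    (hq.trans (PHmap_refl (pushC f) hz).symm)
  have hwz : w = z := congrArg Sigma.fst h3
  subst hwz
  have h4 : q = .refl w := eq_of_heq (Sigma.mk.inj_iff.1 h3).2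
  rw [h4, dl_refl, map_zero]
  exact Dv_zero hl

theorem good_symm {X : Over SpecC} {x y : Pt X} {p : ℕ → PH x y} (hp : Good p) :
    Good (fun j => (p j).symm) := by
  intro Z f h1 h2 u z hz
  obtain ⟨hc, hfin⟩ := cover_main f h1 h2
  choose e he r hr using fun j => PH_lift_exists (pushC f) hc (e := z) hz (p j).symm
  obtain ⟨w₀, hw₀⟩ : ∃ w₀, ∀ᶠ j in UU, e j = w₀ := by
    have h3 : ∀ᶠ j in UU, e j ∈ pushC f ⁻¹' {x} := Filter.Eventually.of_forall he
    have h4 := (Ultrafilter.eventually_exists_mem_iff (f := Filter.hyperfilter ℕ)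
      (hfin x) (P := fun w j => e j = w)).1 (h3.mono fun j hj => ⟨e j, hj, rfl⟩)
    obtain ⟨w, -, hw⟩ := h4
    exact ⟨w, hw⟩
  have hw₀' : w₀.push f = x := by
    obtain ⟨j, hj⟩ := hw₀.exists
    rw [← hj]
    exact he j
  obtain ⟨K, hK⟩ := hp Z f h1 h2 u w₀ hw₀'
  refine ⟨K, fun ℓ hl hKl => ?_⟩
  filter_upwards [hK ℓ hl hKl, hw₀] with j hj hj' w hw q hq
  have h5 := PH_lift_unique (pushC f) hc hz (he j) hw (r j) q ((hr j).trans hq.symm)
  have h6 : w = w₀ := by
    rw [← hj']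
    exact (congrArg Sigma.fst h5).symm
  subst h6
  have h7 := hj z hz q.symm (by
    have h8 := PHmap_symm (pushC f) hz hw q
    rw [hq] at h8
    refine h8.trans ?_
    generalize p j = g
    induction g using Path.Homotopic.Quotient.ind with | mk g
    show Path.Homotopic.Quotient.mk g.symm.symm = _
    simp)
  rw [dl_symm, map_neg] at h7
  simpa using Dv_neg h7

theorem good_trans {X : Over SpecC} {x y y' : Pt X} {p : ℕ → PH x y} {p' : ℕ → PH y y'}
    (hp : Good p) (hp' : Good p') : Good (fun j => (p j).trans (p' j)) := by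
  intro Z f h1 h2 u z hz
  obtain ⟨hc, hfin⟩ := cover_main f h1 h2
  choose e he r hr using fun j => PH_lift_exists (pushC f) hc (e := z) hz (p j)
  obtain ⟨w₀, hw₀⟩ : ∃ w₀, ∀ᶠ j in UU, e j = w₀ := by
    have h3 : ∀ᶠ j in UU, e j ∈ pushC f ⁻¹' {y} := Filter.Eventually.of_forall he
    have h4 := (Ultrafilter.eventually_exists_mem_iff (f := Filter.hyperfilter ℕ)
      (hfin y) (P := fun w j => e j = w)).1 (h3.mono fun j hj => ⟨e j, hj, rfl⟩)
    obtain ⟨w, -, hw⟩ := h4
    exact ⟨w, hw⟩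
  have hw₀' : w₀.push f = y := by
    obtain ⟨j, hj⟩ := hw₀.exists
    rw [← hj]
    exact he j
  obtain ⟨K, hK⟩ := hp Z f h1 h2 u z hz
  obtain ⟨K', hK'⟩ := hp' Z f h1 h2 u w₀ hw₀'
  refine ⟨max K K', fun ℓ hl hKl => ?_⟩
  filter_upwards [hK ℓ hl (le_trans (le_max_left _ _) hKl),
    hK' ℓ hl (le_trans (le_max_right _ _) hKl), hw₀] with j hj hjj hj' w hw q hq
  subst hj'
  obtain ⟨e', he', r', hr'⟩ := PH_lift_exists (pushC f) hc (e := e j) hw₀' (p' j)
  have h5 := PH_lift_unique (pushC f) hc hz he' hw ((r j).trans r') q (by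
    rw [hq, PHmap_trans (pushC f) hz (he j) he', hr, hr'])
  have h6 : e' = w := congrArg Sigma.fst h5
  subst h6
  have h7 : (r j).trans r' = q := eq_of_heq (Sigma.mk.inj_iff.1 h5).2
  rw [← h7, dl_trans, map_add]
  exact Dv_add hl (hj _ (he j) _ (hr j)) (hjj _ he' _ hr')

theorem exists_base_change {X Y Z : Over SpecC} (f : X ⟶ Y) (g : Z ⟶ Y) (hg : Etale g.left)
    (hg' : IsFinite g.left) (x : Pt X) (z : Pt Z) (h : x.push f = z.push g) :
    ∃ (W : Over SpecC) (a : W ⟶ X) (b : W ⟶ Z) (w : Pt W), a ≫ f = b ≫ g ∧ Etale a.left ∧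
      IsFinite a.left ∧ w.push a = x ∧ w.push b = z := by
  let W : Over SpecC := Over.mk (pullback.fst f.left g.left ≫ X.hom)
  have hw : pullback.fst f.left g.left ≫ X.hom = pullback.snd f.left g.left ≫ Z.hom := by
    rw [← Over.w f, ← Over.w g, ← Category.assoc, ← Category.assoc, pullback.condition]
  let a : W ⟶ X := Over.homMk (pullback.fst f.left g.left) rfl
  let b : W ⟶ Z := Over.homMk (pullback.snd f.left g.left) hw.symm
  have hxz : x.mor ≫ f.left = z.mor ≫ g.left := congrArg Pt.mor h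
  let w : Pt W := Over.homMk (U := Over.mk (𝟙 SpecC)) (V := W)
    (pullback.lift x.mor z.mor hxz) (by
      have hx : x.mor ≫ X.hom = 𝟙 SpecC := Over.w (show Over.mk (𝟙 SpecC) ⟶ X from x)
      show pullback.lift x.mor z.mor hxz ≫ pullback.fst f.left g.left ≫ X.hom = 𝟙 SpecC
      rw [← Category.assoc, pullback.lift_fst]
      exact hx)
  refine ⟨W, a, b, w, ?_, ?_, ?_, ?_, ?_⟩
  · ext1
    exact pullback.condition
  · exact inferInstanceAs (Etale (pullback.fst f.left g.left))
  · exact inferInstanceAs (IsFinite (pullback.fst f.left g.left))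
  · apply Over.OverMorphism.ext
    exact pullback.lift_fst _ _ _
  · apply Over.OverMorphism.ext
    exact pullback.lift_snd _ _ _

theorem good_map {X Y : Over SpecC} (f : X ⟶ Y) {x y : Pt X} {x' y' : Pt Y}
    (hx : x.push f = x') (hy : y.push f = y') {p : ℕ → PH x y} (hp : Good p) :
    Good (fun j => PHmap (pushC f) hx hy (p j)) := by
  intro Z g h1 h2 u z hz
  obtain ⟨W, a, b, w, hab, ha1, ha2, hwa, hwb⟩ :=
    exists_base_change f g h1 h2 x z (hx.trans hz.symm)
  obtain ⟨hc, -⟩ := cover_main g h1 h2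
  obtain ⟨hc', -⟩ := cover_main a ha1 ha2
  obtain ⟨K, hK⟩ := hp W a ha1 ha2 (Units.map (b.left.appTop.hom : _ →* _) u) w hwa
  refine ⟨K, fun ℓ hl hKl => ?_⟩
  filter_upwards [hK ℓ hl hKl] with j hj v hv q hq
  obtain ⟨e, he, r, hr⟩ := PH_lift_exists (pushC a) hc' (e := w) hwa (p j)
  have h3 := hj e he r hr
  have hcomp : (pushC f).comp (pushC a) = (pushC g).comp (pushC b) := by
    ext t
    show (t.push a).push f = (t.push b).push g
    have e1 : (t.push a).push f = t.push (a ≫ f) := Category.assoc _ _ _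
    have e2 : (t.push b).push g = t.push (b ≫ g) := Category.assoc _ _ _
    rw [e1, e2, hab]
  have hy' : (pushC g) ((pushC b) e) = y' := by
    have := congrArg (fun F : C(Pt W, Pt Y) => F e) hcomp
    simp only [ContinuousMap.comp_apply] at this
    rw [← this, show (pushC a) e = y from he]
    exact hy
  have hwb' : (pushC b) w = z := hwb
  have hwa' : (pushC a) w = x := hwa
  have hx' : (pushC f) x = x' := hx
  have hyy : (pushC f) y = y' := hy
  have hz' : (pushC g) z = x' := hz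
  have hr' : PHmap (pushC a) hwa' he r = p j := hr
  have h4 := PH_lift_unique (pushC g) hc hz' hy' hv (PHmap (pushC b) hwb' rfl r) q (by
    refine Eq.trans ?_ hq.symm
    rw [PHmap_comp]
    refine Eq.trans ?_ (congrArg (PHmap (pushC f) hx' hyy) hr')
    rw [PHmap_comp]
    exact (PHmap_congr hcomp _ _ _).symm)
  have h5 : (pushC b) e = v := congrArg Sigma.fst h4
  subst h5
  have h6 : PHmap (pushC b) hwb' rfl r = q := eq_of_heq (Sigma.mk.inj_iff.1 h4).2
  rw [← h6, dl_map, unitFun_push]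
  exact h3

end Pool.Agent.W481
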