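import Pool.Agent.W481.TensorPt
import Pool.Agent.W481.CurveAna
import Pool.Agent.W327.F4.CurveCover

/-!
Good sequences of classes of paths coming from curves.
-/

open CategoryTheory CategoryTheory.Limits AlgebraicGeometry Topology TensorProduct

namespace Pool.Agent.W481

/-- the point of `X` defined by a point of an affine chart -/
noncomputable def chartC {A : Type} [CommRing A] [Algebra ℂ A] {X : Over SpecC}
    (i : specOver A ⟶ X) : C(Sp A, Pt X) :=
  (pushC i).comp ⟨spPt, isHomeomorph_spPt.continuous⟩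

/-- restriction of points, as a continuous map -/
noncomputable def comapC {A B : Type} [CommRing A] [Algebra ℂ A] [CommRing B] [Algebra ℂ B]
    (f : A →ₐ[ℂ] B) : C(Sp B, Sp A) := ⟨Sp.comap f, continuous_comap f⟩

theorem glob_surjective {A : Type} [CommRing A] [Algebra ℂ A] :
    Function.Surjective (glob (A := A)) :=
  (Scheme.ΓSpecIso (.of A)).symm.commRingCatIsoToRingEquiv.surjective

theorem unit_chart {B : Type} [CommRing B] [Algebra ℂ B] {Z : Over SpecC} (j : specOver B ⟶ Z)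
    (u : Γ(Z.left, ⊤)) : ∃ v : B, ∀ χ : Sp B, (chartC j χ).value (mem_top _) u = χ.hom v := by
  obtain ⟨v, hv⟩ := glob_surjective (A := B) (j.left.app ⊤ u)
  refine ⟨v, fun χ => ?_⟩
  have h1 : (chartC j χ).value (mem_top _) u =
      (spPt χ).value (mem_top _) (j.left.app ⊤ u) := value_push j (spPt χ) ⊤ (mem_top _) u
  refine h1.trans ((congrArg _ hv.symm).trans ?_)
  exact ptOf_value χ.hom v

theorem good_of_curve {A S : Type} [CommRing A] [Algebra ℂ A] [CommRing S] [Algebra ℂ S]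
    [Algebra (Polynomial ℂ) S] [IsScalarTower ℂ (Polynomial ℂ) S]
    [Algebra.Etale (Polynomial ℂ) S] [Algebra A S] [IsScalarTower ℂ A S] {X : Over SpecC}
    (i : specOver A ⟶ X) [IsOpenImmersion i.left] (y₀ y₁ : Sp S) (hne : Nonempty (PH y₀ y₁)) :
    ∃ p : ℕ → PH (chartC i (comapC (IsScalarTower.toAlgHom ℂ A S) y₀))
      (chartC i (comapC (IsScalarTower.toAlgHom ℂ A S) y₁)), Good p := by
  obtain ⟨b, hb, hgen⟩ := W327.F4.generic_finite S
  obtain ⟨hpr, hcov, hfin⟩ := W327.F4.curve_cover S b hb hgen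
    (fun φ => φ.hom (algebraMap (Polynomial ℂ) S Polynomial.X)) (fun _ => rfl)
  obtain ⟨p, hp⟩ := curve_analytic _ hpr b hb hcov hfin y₁ hne
  let κ : C(Sp S, Pt X) := (chartC i).comp (comapC (IsScalarTower.toAlgHom ℂ A S))
  refine ⟨fun j => PHmap κ rfl rfl (p j), ?_⟩
  intro Z f h1 h2 u z hz
  obtain ⟨B, _, _, _, _, j, hj, hsq, hfB, hetB, hlift⟩ := exists_cover_chart f h2 A i inferInstance
  have hetB' : Algebra.Etale A B := hetB h1
  let incR : B →ₐ[ℂ] S ⊗[A] B :=
    { (Algebra.TensorProduct.includeRight : B →ₐ[A] S ⊗[A] B).toRingHom with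
      commutes' := fun c => by
        show (1 : S) ⊗ₜ[A] (algebraMap ℂ B c) = (algebraMap ℂ S c) ⊗ₜ[A] (1 : B)
        rw [IsScalarTower.algebraMap_apply ℂ A B, IsScalarTower.algebraMap_apply ℂ A S,
          Algebra.algebraMap_eq_smul_one (A := B), TensorProduct.tmul_smul,
          TensorProduct.smul_tmul', ← Algebra.algebraMap_eq_smul_one] }
  have hincR : ∀ y, incR y = (1 : S) ⊗ₜ[A] y := fun y => rfl
  let π : C(Sp (S ⊗[A] B), Sp S) := comapC (IsScalarTower.toAlgHom ℂ S (S ⊗[A] B))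
  obtain ⟨hπ, hπf⟩ := etale_covering (A := S) (B := S ⊗[A] B)
  let μ : C(Sp (S ⊗[A] B), Pt Z) := (chartC j).comp (comapC incR)
  have hAB : ∀ e : Sp (S ⊗[A] B), comapC (IsScalarTower.toAlgHom ℂ A B) (comapC incR e) =
      comapC (IsScalarTower.toAlgHom ℂ A S) (π e) := by
    intro e
    refine AlgHom.ext fun a => ?_
    show e.hom ((1 : S) ⊗ₜ[A] (algebraMap A B a)) = e.hom ((algebraMap A S a) ⊗ₜ[A] (1 : B))
    rw [Algebra.algebraMap_eq_smul_one (A := B), TensorProduct.tmul_smul,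
      TensorProduct.smul_tmul', ← Algebra.algebraMap_eq_smul_one]
  have hchart : ∀ χ : Sp B, (chartC j χ).push f =
      chartC i (comapC (IsScalarTower.toAlgHom ℂ A B) χ) := by
    intro χ
    have e1 : (chartC j χ).push f = (spPt χ).push (j ≫ f) := Category.assoc _ _ _
    have e2 : chartC i (comapC (IsScalarTower.toAlgHom ℂ A B) χ) =
        ((spPt χ).push (specMap (IsScalarTower.toAlgHom ℂ A B))).push i :=
      congrArg (Pt.push i) (spPt_comap _ χ)
    have e3 : ((spPt χ).push (specMap (IsScalarTower.toAlgHom ℂ A B))).push i =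
        (spPt χ).push (specMap (IsScalarTower.toAlgHom ℂ A B) ≫ i) := Category.assoc _ _ _
    rw [e1, e2, e3, hsq]
  have hcomp : (pushC f).comp μ = κ.comp π := by
    ext e
    exact (hchart _).trans (congrArg (chartC i) (hAB e))
  -- the unit
  obtain ⟨v, hv⟩ := unit_chart j (u : Γ(Z.left, ⊤))
  obtain ⟨v', hv'⟩ := unit_chart j ((u⁻¹ : Γ(Z.left, ⊤)ˣ) : Γ(Z.left, ⊤))
  have hgenB : W327.F4.GenInt b (S ⊗[A] B) :=
    W327.F4.GenInt.of_finite b hb S (S ⊗[A] B) hgen
  obtain ⟨k, P, hP, hPv⟩ := hgenB (incR v)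
  obtain ⟨k', P', hP', hPv'⟩ := hgenB (incR v')
  have hevP : ∀ (e : Sp (S ⊗[A] B)) (x : S ⊗[A] B) (Q : Polynomial (Polynomial ℂ)),
      Polynomial.aeval x Q = 0 → (Q.map (Polynomial.evalRingHom
        ((π e).hom (algebraMap (Polynomial ℂ) S Polynomial.X)))).eval (e.hom x) = 0 := by
    intro e x Q hQ
    have h3 : (e.hom : S ⊗[A] B →+* ℂ) (Polynomial.aeval x Q) = 0 := by
      rw [hQ, map_zero]
    rw [Polynomial.aeval_def, Polynomial.hom_eval₂, Polynomial.eval₂_eq_eval_map] at h3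
    have h4 : (e.hom : S ⊗[A] B →+* ℂ).comp (algebraMap (Polynomial ℂ) (S ⊗[A] B)) =
        Polynomial.evalRingHom ((π e).hom (algebraMap (Polynomial ℂ) S Polynomial.X)) := by
      refine Polynomial.ringHom_ext (fun a => ?_) ?_
      · have h5 : algebraMap (Polynomial ℂ) (S ⊗[A] B) (Polynomial.C a) =
            algebraMap ℂ (S ⊗[A] B) a :=
          (IsScalarTower.algebraMap_apply ℂ (Polynomial ℂ) (S ⊗[A] B) a).symm
        rw [RingHom.comp_apply, h5]
        refine (e.hom.commutes a).trans ?_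
        simp
      · simp only [RingHom.comp_apply, Polynomial.coe_evalRingHom, Polynomial.eval_X]
        rfl
    rw [h4] at h3
    exact h3
  have huE : ∀ e, (((unitFun u).comp μ) e).1 = e.hom (incR v) := fun e => hv _
  have huE' : ∀ e, (((unitFun u).comp μ) e).1⁻¹ = e.hom (incR v') := by
    intro e
    have h3 : (μ e).value (mem_top _) ((u⁻¹ : Γ(Z.left, ⊤)ˣ) : Γ(Z.left, ⊤)) =
      e.hom (incR v') := hv' _
    rw [← h3]
    refine inv_eq_of_mul_eq_one_right ?_
    show (μ e).value (mem_top _) (u : Γ(Z.left, ⊤)) * _ = 1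
    rw [← map_mul, Units.mul_inv, map_one]
  have hzx : ∃ e₀ : Sp (S ⊗[A] B), π e₀ = y₀ ∧ μ e₀ = z := by
    obtain ⟨w, hw⟩ := hlift z (spPt (comapC (IsScalarTower.toAlgHom ℂ A S) y₀)) hz
    obtain ⟨χ, rfl⟩ := ptOf_surjective w
    have h3 : comapC (IsScalarTower.toAlgHom ℂ A B) χ =
        comapC (IsScalarTower.toAlgHom ℂ A S) y₀ := by
      have h4 : chartC i (comapC (IsScalarTower.toAlgHom ℂ A B) χ) =
          chartC i (comapC (IsScalarTower.toAlgHom ℂ A S) y₀) := by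
        rw [← hchart χ, ← hz]
        exact congrArg (Pt.push f) hw
      exact ptOf_injective (push_injective i h4)
    obtain ⟨e, he1, he2⟩ := exists_tensor_pt (A := A) y₀ χ (fun a =>
      (congrArg (fun ψ : A →ₐ[ℂ] ℂ => ψ a) h3).symm)
    refine ⟨e, AlgHom.ext he1, ?_⟩
    rw [← hw]
    exact congrArg (chartC j) (show comapC incR e = χ from AlgHom.ext he2)
  obtain ⟨e₀, he₀, hμ₀⟩ := hzx
  obtain ⟨K, hK⟩ := hp (Sp (S ⊗[A] B)) π hπ hπf ((unitFun u).comp μ) P P' k k' hP hP'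
    (fun e => by rw [huE]; exact hevP e _ P hPv) (fun e => by rw [huE']; exact hevP e _ P' hPv')
    e₀ he₀
  refine ⟨K, fun ℓ hl hKl => ?_⟩
  have hev : ∀ᶠ j in UU, ℓ ≤ j := by
    have h3 : ∀ᶠ j in Filter.cofinite, ℓ ≤ j := by
      rw [Nat.cofinite_eq_atTop]
      exact Filter.eventually_ge_atTop ℓ
    exact Filter.hyperfilter_le_cofinite h3
  filter_upwards [hev] with m hm w hw q hq
  obtain ⟨e₁, he₁, r, hr⟩ := PH_lift_exists π hπ he₀ (p m)
  have h3 := hK ℓ hl hKl m hm e₁ he₁ r hr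
  obtain ⟨hc, -⟩ := cover_main f h1 h2
  have hμe : (pushC f) (μ e₁) = κ y₁ := by
    rw [← he₁]
    exact congrArg (fun F : C(Sp (S ⊗[A] B), Pt X) => F e₁) hcomp
  have hz' : (pushC f) z = κ y₀ := hz
  have hw' : (pushC f) w = κ y₁ := hw
  have h4 := PH_lift_unique (pushC f) hc hz' hμe hw' (PHmap μ hμ₀ rfl r) q (by
    refine Eq.trans ?_ hq.symm
    rw [PHmap_comp]
    refine Eq.trans ?_ (congrArg (PHmap κ rfl rfl) hr)
    rw [PHmap_comp]
    exact PHmap_congr hcomp _ _ _)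
  have h5 : μ e₁ = w := congrArg Sigma.fst h4
  subst h5
  have h6 : PHmap μ hμ₀ rfl r = q := eq_of_heq (Sigma.mk.inj_iff.1 h4).2
  rw [← h6, dl_map]
  exact h3

end Pool.Agent.W481
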