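import Pool.Agent.W481.LocalGood
import Pool.Agent.W327.F4.Conn

/-!
Near a point of a smooth scheme there are good sequences of classes of paths.
-/

open CategoryTheory CategoryTheory.Limits AlgebraicGeometry Topology TensorProduct

namespace Pool.Agent.W481

/-- the point of affine space with given coordinates -/
noncomputable def affPt {n : ℕ} (v : Fin n → ℂ) : Sp (MvPolynomial (Fin n) ℂ) :=
  MvPolynomial.aeval v

theorem affPt_hom {n : ℕ} (v : Fin n → ℂ) (p : MvPolynomial (Fin n) ℂ) :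
    (affPt v).hom p = MvPolynomial.eval v p := by
  show MvPolynomial.aeval v p = _
  rw [MvPolynomial.aeval_def]
  rfl

/-- the coordinates of a point of affine space -/
noncomputable def coord {n : ℕ} (ψ : Sp (MvPolynomial (Fin n) ℂ)) : Fin n → ℂ :=
  fun k => ψ.hom (MvPolynomial.X k)

theorem affPt_coord {n : ℕ} (ψ : Sp (MvPolynomial (Fin n) ℂ)) : affPt (coord ψ) = ψ := by
  refine MvPolynomial.algHom_ext fun k => ?_
  show (affPt (coord ψ)).hom (MvPolynomial.X k) = _
  rw [affPt_hom, MvPolynomial.eval_X]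
  rfl

theorem continuous_affPt {n : ℕ} : Continuous (affPt (n := n)) := by
  refine continuous_to_sp _ fun p => ?_
  simp only [affPt_hom]
  exact MvPolynomial.continuous_eval p

theorem continuous_coord {n : ℕ} : Continuous (coord (n := n)) :=
  continuous_pi fun _ => continuous_sp_eval _

theorem line_good {n : ℕ} {A : Type} [CommRing A] [Algebra ℂ A]
    [Algebra (MvPolynomial (Fin n) ℂ) A] [IsScalarTower ℂ (MvPolynomial (Fin n) ℂ) A]
    [Algebra.Etale (MvPolynomial (Fin n) ℂ) A] {X : Over SpecC} (i : specOver A ⟶ X)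
    [IsOpenImmersion i.left] (v w : Fin n → ℂ) (γ : C(unitInterval, Sp A))
    (hγ : ∀ τ, Sp.comap (IsScalarTower.toAlgHom ℂ (MvPolynomial (Fin n) ℂ) A) (γ τ) =
      affPt (fun k => v k + (τ : ℝ) * w k)) :
    ∃ p : ℕ → PH (chartC i (γ 0)) (chartC i (γ 1)), Good p := by
  let L : MvPolynomial (Fin n) ℂ →ₐ[ℂ] Polynomial ℂ := MvPolynomial.aeval
    (fun k => Polynomial.C (v k) + Polynomial.X * Polynomial.C (w k))
  let _ : Algebra (MvPolynomial (Fin n) ℂ) (Polynomial ℂ) := L.toRingHom.toAlgebra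
  have hst : IsScalarTower ℂ (MvPolynomial (Fin n) ℂ) (Polynomial ℂ) :=
    IsScalarTower.of_algebraMap_eq fun c => (L.commutes c).symm
  let S := Polynomial ℂ ⊗[MvPolynomial (Fin n) ℂ] A
  let _ : Algebra A S := Algebra.TensorProduct.rightAlgebra
  have hst2 : IsScalarTower ℂ A S := by
    refine IsScalarTower.of_algebraMap_eq fun c => ?_
    show (algebraMap ℂ (Polynomial ℂ) c) ⊗ₜ[MvPolynomial (Fin n) ℂ] (1 : A) =
      (1 : Polynomial ℂ) ⊗ₜ[MvPolynomial (Fin n) ℂ] (algebraMap ℂ A c)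
    rw [IsScalarTower.algebraMap_apply ℂ (MvPolynomial (Fin n) ℂ) A,
      IsScalarTower.algebraMap_apply ℂ (MvPolynomial (Fin n) ℂ) (Polynomial ℂ),
      Algebra.algebraMap_eq_smul_one (A := A), TensorProduct.tmul_smul,
      TensorProduct.smul_tmul', ← Algebra.algebraMap_eq_smul_one]
  have hex : ∀ τ : unitInterval, ∃ e : Sp S,
      (∀ x : Polynomial ℂ, e.hom (x ⊗ₜ 1) = x.eval ((τ : ℝ) : ℂ)) ∧
      (∀ y : A, e.hom (1 ⊗ₜ y) = (γ τ).hom y) := by
    intro τ
    refine exists_tensor_pt (A := MvPolynomial (Fin n) ℂ) (S := Polynomial ℂ) (B := A)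
      (Polynomial.aeval ((τ : ℝ) : ℂ)) (γ τ) fun a => ?_
    have h1 := congrArg (fun ψ : MvPolynomial (Fin n) ℂ →ₐ[ℂ] ℂ => ψ a) (hγ τ)
    have h2 : (γ τ).hom (algebraMap (MvPolynomial (Fin n) ℂ) A a) =
        MvPolynomial.eval (fun k => v k + (τ : ℝ) * w k) a := h1.trans (affPt_hom _ a)
    rw [h2]
    have h3 : (Polynomial.aeval ((τ : ℝ) : ℂ)).comp L =
        (MvPolynomial.aeval (fun k => v k + (τ : ℝ) * w k) : MvPolynomial (Fin n) ℂ →ₐ[ℂ] ℂ) := by
      refine MvPolynomial.algHom_ext fun k => ?_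
      simp only [L, AlgHom.comp_apply, MvPolynomial.aeval_X, map_add, map_mul, Polynomial.aeval_C,
        Polynomial.aeval_X]
      rfl
    have h4 := congrArg (fun ψ : MvPolynomial (Fin n) ℂ →ₐ[ℂ] ℂ => ψ a) h3
    refine h4.trans ?_
    show MvPolynomial.aeval _ a = _
    rw [MvPolynomial.aeval_def]
    rfl
  choose F hF1 hF2 using hex
  have hFc : Continuous F := by
    refine continuous_to_tensor F (fun x => ?_) (fun y => ?_)
    · simp only [hF1]
      fun_prop
    · simp only [hF2]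
      exact (continuous_sp_eval y).comp γ.continuous
  have hFγ : ∀ τ, comapC (IsScalarTower.toAlgHom ℂ A S) (F τ) = γ τ := fun τ =>
    AlgHom.ext fun y => hF2 τ y
  have hgood := good_of_curve (S := S) i (F 0) (F 1) ⟨.mk ⟨⟨F, hFc⟩, rfl, rfl⟩⟩
  rw [hFγ, hFγ] at hgood
  exact hgood

theorem local_good (X : Over SpecC) (hX : Smooth X.hom) (x : Pt X) :
    ∀ᶠ y in 𝓝 x, ∃ p : ℕ → PH x y, Good p := by
  obtain ⟨n, A, _, _, _, _, ⟨P⟩, i, hi, φ₀, rfl⟩ := W327.F4.smooth_chart X hX x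
  have hst : Algebra.IsStandardEtale (MvPolynomial (Fin n) ℂ) A := ⟨⟨P⟩⟩
  let q := Sp.comap (IsScalarTower.toAlgHom ℂ (MvPolynomial (Fin n) ℂ) A)
  have hq : IsLocalHomeomorph q := isLocalHomeomorph_comap
  obtain ⟨e, he, hqe⟩ := hq φ₀
  have hqe' : ∀ φ, q φ = e φ := fun φ => congrFun hqe φ
  have h0 : affPt (coord (q φ₀)) ∈ e.target := by
    rw [affPt_coord, hqe']
    exact e.map_source he
  obtain ⟨r, hr, hball⟩ := Metric.isOpen_iff.1 (e.open_target.preimage continuous_affPt) _ h0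
  have hemb : IsOpenEmbedding (chartC i) :=
    (isOpenEmbedding_push i).comp isHomeomorph_spPt.isOpenEmbedding
  have hnh : ∀ᶠ φ in 𝓝 φ₀, φ ∈ e.source ∧ coord (q φ) ∈ Metric.ball (coord (q φ₀)) r := by
    refine Filter.Eventually.and (e.open_source.mem_nhds he) ?_
    exact (continuous_coord.comp (continuous_comap _)).continuousAt.eventually
      (Metric.ball_mem_nhds _ hr)
  show ∀ᶠ y in 𝓝 (chartC i φ₀), ∃ p : ℕ → PH (chartC i φ₀) y, Good p
  rw [← hemb.map_nhds_eq, Filter.eventually_map]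
  filter_upwards [hnh] with φ₁ hφ₁
  obtain ⟨hs, hb⟩ := hφ₁
  have hmem : ∀ τ : unitInterval, affPt (fun k => coord (q φ₀) k + (τ : ℝ) *
      (coord (q φ₁) k - coord (q φ₀) k)) ∈ e.target := by
    intro τ
    refine hball ?_
    rw [Metric.mem_ball, dist_eq_norm] at hb ⊢
    refine lt_of_le_of_lt ?_ hb
    have h1 : (fun k => coord (q φ₀) k + (τ : ℝ) * (coord (q φ₁) k - coord (q φ₀) k)) -
        coord (q φ₀) = ((τ : ℝ) : ℂ) • (coord (q φ₁) - coord (q φ₀)) := by
      funext k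
      simp
    rw [h1, norm_smul]
    have h2 : ‖((τ : ℝ) : ℂ)‖ ≤ 1 := by
      rw [Complex.norm_real, Real.norm_of_nonneg τ.2.1]
      exact τ.2.2
    exact mul_le_of_le_one_left (norm_nonneg _) h2
  let γ : C(unitInterval, Sp A) := ⟨fun τ => e.symm (affPt (fun k => coord (q φ₀) k + (τ : ℝ) *
      (coord (q φ₁) k - coord (q φ₀) k))), e.continuousOn_symm.comp_continuous
        (continuous_affPt.comp (by fun_prop)) hmem⟩
  have hγ0 : γ 0 = φ₀ := by
    have h1 : affPt (fun k => coord (q φ₀) k + (((0 : unitInterval) : ℝ) : ℂ) *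
      (coord (q φ₁) k - coord (q φ₀) k)) = e φ₀ := by
      rw [← hqe', ← affPt_coord (q φ₀)]
      congr 1
      funext k
      simp [affPt_coord]
    show e.symm _ = _
    rw [h1]
    exact e.left_inv he
  have hγ1 : γ 1 = φ₁ := by
    have h1 : affPt (fun k => coord (q φ₀) k + (((1 : unitInterval) : ℝ) : ℂ) *
      (coord (q φ₁) k - coord (q φ₀) k)) = e φ₁ := by
      rw [← hqe', ← affPt_coord (q φ₁)]
      congr 1
      funext k
      simp [affPt_coord]
    show e.symm _ = _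
    rw [h1]
    exact e.left_inv hs
  have hgood := line_good i (coord (q φ₀)) (fun k => coord (q φ₁) k - coord (q φ₀) k) γ (by
    intro τ
    exact (hqe' _).trans (e.right_inv (hmem τ)))
  rw [hγ0, hγ1] at hgood
  exact hgood

end Pool.Agent.W481
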