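import Pool.Agent.W481.Functor
import Pool.Agent.W481.Gm

/-!
There is no natural transformation from the topological fundamental groupoid to a twist of
the functor `piGood`.
-/

open CategoryTheory CategoryTheory.Limits AlgebraicGeometry Topology

namespace Pool.Agent.W481

/-- the coordinate on the conjugate of the multiplicative group -/
noncomputable def gmTσ (σ : ℂ ≃+* ℂ) : Γ((Gm.conj σ).sch.left, ⊤)ˣ := gmT

theorem value_gmTσ (σ : ℂ ≃+* ℂ) (z : {z : ℂ // z ≠ 0}) :
    (unitFun (gmTσ σ) (conjPt σ (gmPt z))).1 = σ z.1 := by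
  have h1 : (conjPt σ (gmPt z)).mor = Spec.map (CommRingCat.ofHom
      ((σ : ℂ →+* ℂ).comp (Sp.hom (gmEval z)).toRingHom)) := by
    rw [CommRingCat.ofHom_comp, Spec.map_comp]
    rfl
  have h2 := value_inv_eq (A := GmRing) (Spec.map (CommRingCat.ofHom (algebraMap ℂ GmRing)) ≫
    specAut σ.symm) (conjPt σ (gmPt z)) _ h1 GmRing.T
  refine Eq.trans h2 ?_
  show σ ((Sp.hom (gmEval z)) GmRing.T) = _
  rw [gmEval_T]

theorem unitFun_gmPow (σ : ℂ ≃+* ℂ) (n : ℕ) (w : Pt (Gm.conj σ).sch) :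
    (((unitFun (gmTσ σ)).comp (pushC (conjHom σ (gmPow n)))) w).1 =
      (unitFun (gmTσ σ) w).1 ^ n := by
  have h1 : (((unitFun (gmTσ σ)).comp (pushC (conjHom σ (gmPow n)))) w).1 =
      w.value (mem_top w) ((gmPow n).left.appTop gmT.val) :=
    value_push (conjHom σ (gmPow n)) w ⊤ (mem_top _) (gmTσ σ).val
  have h2 : (gmPow n).left.appTop gmT.val = gmT.val ^ n := by
    have h3 := congrArg (fun g => g.hom GmRing.T)
      (Scheme.ΓSpecIso_inv_naturality (CommRingCat.ofHom (gmPowHom n).toRingHom))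
    refine Eq.trans h3.symm ?_
    show (Scheme.ΓSpecIso (.of GmRing)).inv (gmPowHom n GmRing.T) =
      (Scheme.ΓSpecIso (.of GmRing)).inv GmRing.T ^ n
    rw [gmPowHom_T, map_pow]
  rw [h1]
  refine (congrArg (w.value (mem_top w)) h2).trans ?_
  exact map_pow (w.value (mem_top w)) _ n

/-- the standard path on the multiplicative group -/
noncomputable def gmPath (n : ℕ) : C(unitInterval, Pt Gm.sch) where
  toFun t := gmPt ⟨Complex.exp (2 * Real.pi * Complex.I * (t : ℝ) / n), Complex.exp_ne_zero _⟩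
  continuous_toFun := continuous_gmPt.comp (Continuous.subtype_mk (by fun_prop) _)

theorem naturality_rel {π : Pi1Like} {σ : ℂ ≃+* ℂ} (ε : TopNat π σ) {X Y : CVar}
    (f : X.sch ⟶ Y.sch) {x y : Pt X.sch} {x' y' : Pt Y.sch} (hx : pushC f x = x')
    (hy : pushC f y = y') (h1 : (conjPt σ x).push (conjHom σ f) = conjPt σ x')
    (h2 : (conjPt σ y).push (conjHom σ f) = conjPt σ y') (p : PH x y) :
    π.map (X := X.conj σ) (Y := Y.conj σ) (conjHom σ f) h1 h2 (ε.app X p) =
      ε.app Y (PHmap (pushC f) hx hy p) := by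
  subst hx hy
  rw [PHmap_rfl]
  exact ε.naturality f p

theorem Dv_int {ℓ : ℕ} (hl : ℓ.Prime) {k : ℤ} (h : Dv ℓ k) : (ℓ : ℤ) ∣ k := by
  obtain ⟨a, b, hb, h⟩ := h
  have h1 : k * b = ℓ * a := by exact_mod_cast h
  rcases (Nat.prime_iff_prime_int.1 hl).dvd_or_dvd (Dvd.intro a h1.symm) with h2 | h2
  · exact h2
  · exact absurd h2 hb

theorem no_topNat (σ : ℂ ≃+* ℂ) (ε : TopNat piGood σ) : False := by
  let one : {z : ℂ // z ≠ 0} := ⟨1, one_ne_zero⟩
  let a : Pt Gm.sch := gmPt one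
  let A : Pt (Gm.conj σ).sch := conjPt σ a
  let ω : Path a a :=
    { gmPath 1 with
      source' := by
        show gmPt _ = gmPt _
        congr 1
        simp [one]
      target' := by
        show gmPt _ = gmPt _
        congr 1
        simp [one] }
  let T : C(Pt (Gm.conj σ).sch, Cx) := unitFun (gmTσ σ)
  rcases hε : ε.app Gm (.mk ω) with ⟨g, p, hp, hpg⟩
  obtain ⟨K, hK⟩ := hp (Gm.conj σ).sch (𝟙 _) (by
    rw [Over.id_left]; infer_instance) (by rw [Over.id_left]; infer_instance) (gmTσ σ) A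
      (Category.comp_id _)
  obtain ⟨ℓ, hKl, hl⟩ := Nat.exists_infinite_primes K
  have hl0 : (ℓ : ℂ) ≠ 0 := Nat.cast_ne_zero.2 hl.ne_zero
  let ζ : {z : ℂ // z ≠ 0} := ⟨Complex.exp (2 * Real.pi * Complex.I / ℓ), Complex.exp_ne_zero _⟩
  let b : Pt Gm.sch := gmPt ζ
  let B : Pt (Gm.conj σ).sch := conjPt σ b
  let ω' : Path a b :=
    { gmPath ℓ with
      source' := by
        show gmPt _ = gmPt _
        congr 1
        simp [one]
      target' := by
        show gmPt _ = gmPt _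
        congr 1
        simp [ζ] }
  have ha : pushC (gmPow ℓ) a = a := by
    show (gmPt one).push (gmPow ℓ) = gmPt one
    rw [gmPt_push]
    congr 1
    simp [one]
  have hb : pushC (gmPow ℓ) b = a := by
    show (gmPt ζ).push (gmPow ℓ) = gmPt one
    rw [gmPt_push]
    congr 1
    refine Subtype.ext ?_
    show Complex.exp (2 * Real.pi * Complex.I / ℓ) ^ ℓ = 1
    rw [← Complex.exp_nat_mul, mul_div_cancel₀ _ hl0, Complex.exp_two_pi_mul_I]
  have hA : A.push (conjHom σ (gmPow ℓ)) = A :=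
    (conjPt_push σ (gmPow ℓ) a).trans (congrArg (conjPt σ) ha)
  have hB : B.push (conjHom σ (gmPow ℓ)) = A :=
    (conjPt_push σ (gmPow ℓ) b).trans (congrArg (conjPt σ) hb)
  have hω : PHmap (pushC (gmPow ℓ)) ha hb (.mk ω') = .mk ω := by
    rw [PHmap_mk]
    congr 1
    ext t
    show (gmPt _).push (gmPow ℓ) = gmPt _
    rw [gmPt_push]
    congr 1
    refine Subtype.ext ?_
    show Complex.exp (2 * Real.pi * Complex.I * (t : ℝ) / ℓ) ^ ℓ =
      Complex.exp (2 * Real.pi * Complex.I * (t : ℝ) / (1 : ℕ))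
    rw [← Complex.exp_nat_mul, mul_div_cancel₀ _ hl0, Nat.cast_one, div_one]
  have hnat := naturality_rel ε (gmPow ℓ) ha hb hA hB (.mk ω')
  rw [hω] at hnat
  rcases hε' : ε.app Gm (.mk ω') with ⟨g', q, hq, hqg⟩
  rw [hε, hε'] at hnat
  subst hpg
  subst hqg
  have hA' : pushC (conjHom σ (gmPow ℓ)) A = A := hA
  have hB' : pushC (conjHom σ (gmPow ℓ)) B = A := hB
  have hev : ∀ᶠ j in UU, PHmap (pushC (conjHom σ (gmPow ℓ))) hA' hB' (q j) = p j :=
    Filter.Germ.coe_eq.1 (congrArg Subtype.val hnat)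
  obtain ⟨j, hj, hj'⟩ := (hev.and (hK ℓ hl hKl)).exists
  have h1 := hj' A (Category.comp_id _) (p j) (by
    exact (PHmap_congr (pushC_id _) _ _ (p j)).trans (PHmap_id _))
  -- the variation of the logarithm along `p j` and `q j`
  have h2 : dl T (p j) = ℓ * dl T (q j) :=
    (congrArg (dl T) hj.symm).trans ((dl_map (pushC (conjHom σ (gmPow ℓ))) T hA' hB' (q j)).trans
      (dl_pow T _ ℓ (fun w => unitFun_gmPow σ ℓ w) (q j)))
  have h3 : Complex.exp (dl T (p j)) = 1 :=
    (exp_dl T (p j)).trans (div_self (T A).2)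
  obtain ⟨k, hk⟩ := Complex.exp_eq_one_iff.1 h3
  generalize dl T (p j) = P at h1 h2 h3 hk
  have h4 : Complex.exp (dl T (q j)) = σ ζ.1 := by
    refine (exp_dl T (q j)).trans ?_
    have e1 : (T (conjPt σ (gmPt ζ))).1 = σ ζ.1 := value_gmTσ σ ζ
    have e2 : (T (conjPt σ (gmPt one))).1 = σ 1 := value_gmTσ σ one
    show (T (conjPt σ (gmPt ζ))).1 / (T (conjPt σ (gmPt one))).1 = _
    rw [e1, e2, map_one, div_one]
  have h5 : lam P = k := by
    rw [hk]
    have : (k : ℂ) * (2 * Real.pi * Complex.I) = (k : ℚ) • (2 * Real.pi * Complex.I : ℂ) := by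
      rw [Rat.smul_def]
      push_cast
      ring
    rw [this, map_smul, lam_two_pi_I, smul_eq_mul, mul_one]
  have h6 : Dv ℓ (k : ℚ) := by
    rw [← h5]
    exact h1
  obtain ⟨m, hm⟩ := Dv_int hl h6
  have h7 : dl T (q j) = m * (2 * Real.pi * Complex.I) := by
    have h8 : (ℓ : ℂ) * dl T (q j) = ℓ * (m * (2 * Real.pi * Complex.I)) := by
      rw [← h2, hk, hm]
      push_cast
      ring
    exact mul_left_cancel₀ hl0 h8
  have h9 : σ ζ.1 = 1 := by
    rw [← h4, h7]
    exact Complex.exp_int_mul_two_pi_mul_I m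
  have h10 : ζ.1 = 1 := by
    have := congrArg σ.symm h9
    simpa using this
  have h11 : Complex.exp (2 * Real.pi * Complex.I / ℓ) = 1 := h10
  have h12 := (Complex.isPrimitiveRoot_exp ℓ hl.ne_zero).pow_eq_one_iff_dvd 1
  rw [pow_one] at h12
  exact hl.one_lt.ne' (Nat.dvd_one.1 (h12.1 h11))

end Pool.Agent.W481
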