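import Pool.Agent.W481.Defs

/-!
Homotopy classes of paths: lifting along covering maps, and the variation of the logarithm of a
nowhere vanishing continuous function along a path.
-/

open Topology

namespace Pool.Agent.W481

section PH

variable {T S R : Type} [TopologicalSpace T] [TopologicalSpace S] [TopologicalSpace R]

/-- The image of a class of paths, with relaxed end points. -/
def PHmap (f : C(T, S)) {x y : T} {x' y' : S} (hx : f x = x') (hy : f y = y') (p : PH x y) :
    PH x' y' :=
  (p.map f).cast hx.symm hy.symm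

theorem PHmap_rfl (f : C(T, S)) {x y : T} (p : PH x y) : PHmap f rfl rfl p = p.map f := by
  simp [PHmap]

theorem PHmap_mk (f : C(T, S)) {x y : T} {x' y' : S} (hx : f x = x') (hy : f y = y')
    (p : Path x y) : PHmap f hx hy (.mk p) = .mk ((p.map f.continuous).cast hx.symm hy.symm) := rfl

theorem PHmap_refl (f : C(T, S)) {x : T} {x' : S} (hx : f x = x') :
    PHmap f hx hx (.refl x) = .refl x' := by
  subst hx
  rfl

theorem PHmap_trans (f : C(T, S)) {x y z : T} {x' y' z' : S} (hx : f x = x') (hy : f y = y')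
    (hz : f z = z') (p : PH x y) (q : PH y z) :
    PHmap f hx hz (p.trans q) = (PHmap f hx hy p).trans (PHmap f hy hz q) := by
  subst hx hy hz
  simp only [PHmap_rfl]
  induction p using Path.Homotopic.Quotient.ind with | mk p
  induction q using Path.Homotopic.Quotient.ind with | mk q
  rw [← Path.Homotopic.Quotient.mk_trans, ← Path.Homotopic.Quotient.mk_map,
    ← Path.Homotopic.Quotient.mk_map, ← Path.Homotopic.Quotient.mk_map,
    ← Path.Homotopic.Quotient.mk_trans]
  congr 1
  exact Path.map_trans p q f.continuous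

theorem PHmap_symm (f : C(T, S)) {x y : T} {x' y' : S} (hx : f x = x') (hy : f y = y')
    (p : PH x y) : PHmap f hy hx p.symm = (PHmap f hx hy p).symm := by
  subst hx hy
  simp only [PHmap_rfl]
  induction p using Path.Homotopic.Quotient.ind with | mk p
  rfl

theorem PHmap_comp (f : C(T, S)) (g : C(S, R)) {x y : T} {x' y' : S} {x'' y'' : R}
    (hx : f x = x') (hy : f y = y') (hx' : g x' = x'') (hy' : g y' = y'')
    (p : PH x y) : PHmap g hx' hy' (PHmap f hx hy p) =
      PHmap (g.comp f) (by simp [hx, hx']) (by simp [hy, hy']) p := by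
  subst hx hy hx' hy'
  simp only [PHmap_rfl]
  rw [Path.Homotopic.Quotient.map_comp]

theorem PHmap_congr {f g : C(T, S)} (h : f = g) {x y : T} {x' y' : S}
    (hx : f x = x') (hy : f y = y') (p : PH x y) :
    PHmap f hx hy p = PHmap g (h ▸ hx) (h ▸ hy) p := by
  subst h
  rfl

theorem PHmap_id {x y : T} (p : PH x y) : PHmap (ContinuousMap.id T) rfl rfl p = p := by
  rw [PHmap_rfl]
  induction p using Path.Homotopic.Quotient.ind with | mk p
  rfl

theorem PH_refl_trans {x y : T} (p : PH x y) :
    Path.Homotopic.Quotient.trans (.refl x) p = p := by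
  induction p using Path.Homotopic.Quotient.ind with | mk p
  exact Path.Homotopic.Quotient.eq.2 ⟨Path.Homotopy.reflTrans p⟩

theorem PH_trans_refl {x y : T} (p : PH x y) :
    Path.Homotopic.Quotient.trans p (.refl y) = p := by
  induction p using Path.Homotopic.Quotient.ind with | mk p
  exact Path.Homotopic.Quotient.eq.2 ⟨Path.Homotopy.transRefl p⟩

theorem PH_assoc {x y z w : T} (p : PH x y) (q : PH y z) (r : PH z w) :
    (p.trans q).trans r = p.trans (q.trans r) := by
  induction p using Path.Homotopic.Quotient.ind with | mk p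
  induction q using Path.Homotopic.Quotient.ind with | mk q
  induction r using Path.Homotopic.Quotient.ind with | mk r
  exact Path.Homotopic.Quotient.eq.2 ⟨Path.Homotopy.transAssoc p q r⟩

theorem PH_trans_symm {x y : T} (p : PH x y) : p.trans p.symm = .refl x := by
  induction p using Path.Homotopic.Quotient.ind with | mk p
  exact (Path.Homotopic.Quotient.eq.2 ⟨Path.Homotopy.reflTransSymm p⟩).symm

theorem PH_symm_trans {x y : T} (p : PH x y) : p.symm.trans p = .refl y := by
  induction p using Path.Homotopic.Quotient.ind with | mk p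
  exact (Path.Homotopic.Quotient.eq.2 ⟨Path.Homotopy.reflSymmTrans p⟩).symm

end PH

section Lift

variable {E B : Type} [TopologicalSpace E] [TopologicalSpace B]

theorem PH_lift_exists (f : C(E, B)) (hf : IsCoveringMap f) {e : E} {b b' : B} (he : f e = b)
    (p : PH b b') : ∃ (e' : E) (he' : f e' = b') (q : PH e e'), PHmap f he he' q = p := by
  subst he
  refine ⟨(hf.monodromy p ⟨e, rfl⟩).1, (hf.monodromy p ⟨e, rfl⟩).2,
    hf.liftPathQuotient p ⟨e, rfl⟩, ?_⟩
  have h := hf.map_liftPathQuotient p ⟨e, rfl⟩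
  calc PHmap f rfl _ (hf.liftPathQuotient p ⟨e, rfl⟩)
      = (((hf.liftPathQuotient p ⟨e, rfl⟩).map ⟨f, hf.continuous⟩).cast rfl
          (hf.monodromy p ⟨e, rfl⟩).2.symm) := rfl
    _ = (p.cast rfl (hf.monodromy p ⟨e, rfl⟩).2).cast rfl (hf.monodromy p ⟨e, rfl⟩).2.symm :=
        congrArg (fun z => Path.Homotopic.Quotient.cast z _ _) h
    _ = p := by
        induction p using Path.Homotopic.Quotient.ind
        rfl

theorem PH_lift_unique (f : C(E, B)) (hf : IsCoveringMap f) {e e₁ e₂ : E} {b b' : B}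
    (he : f e = b) (he₁ : f e₁ = b') (he₂ : f e₂ = b') (q₁ : PH e e₁) (q₂ : PH e e₂)
    (h : PHmap f he he₁ q₁ = PHmap f he he₂ q₂) :
    (⟨e₁, q₁⟩ : Σ z, PH e z) = ⟨e₂, q₂⟩ := by
  subst he he₁
  have h1 := hf.monodromy_map q₁
  have h2 : hf.monodromy (q₁.map ⟨f, hf.continuous⟩) ⟨e, rfl⟩ = ⟨e₂, he₂⟩ := by
    refine hf.monodromy_eq_of_map_eq (ex := ⟨e, rfl⟩) (ey := ⟨e₂, he₂⟩) q₂ ?_
    rw [PHmap_rfl] at h
    have h' : (q₁.map f).cast rfl he₂ = q₂.map f := by
      rw [h, PHmap, Path.Homotopic.Quotient.cast_cast, Path.Homotopic.Quotient.cast_rfl_rfl]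
    exact h'.symm
  rw [h1] at h2
  have h3 : e₁ = e₂ := congrArg Subtype.val h2
  subst h3
  have h4 := hf.injective_path_homotopic_map e e₁ (a₁ := q₁) (a₂ := q₂)
  rw [h4]
  rw [PHmap_rfl, PHmap_rfl] at h
  exact h

end Lift


section dl

/-- The space of nonzero complex numbers. -/
abbrev Cx : Type := {z : ℂ // z ≠ 0}

variable {T S : Type} [TopologicalSpace T] [TopologicalSpace S]

/-- The variation along `p` of the logarithm of the nowhere vanishing function `u`. -/
noncomputable def dl (u : C(T, Cx)) {x y : T} (p : PH x y) : ℂ :=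
  (Complex.isCoveringMap_exp.monodromy (p.map u)
    ⟨Complex.log (u x).1, Subtype.ext (Complex.exp_log (u x).2)⟩).1 - Complex.log (u x).1

theorem monodromy_exp_eq (u : C(T, Cx)) {x y : T} (γ : Path x y) (g : C(unitInterval, ℂ))
    (hg : ∀ t, Complex.exp (g t) = (u (γ t)).1) (z : ℂ) (hz : Complex.exp z = (u x).1) :
    (Complex.isCoveringMap_exp.monodromy ((Path.Homotopic.Quotient.mk γ).map u)
      ⟨z, Subtype.ext hz⟩).1 = g 1 - g 0 + z := by
  have h := (Complex.isCoveringMap_exp.eq_liftPath_iff' (Γ := ⟨fun t => g t - g 0 + z, by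
    fun_prop⟩) (γ := (γ.map u.continuous).toContinuousMap) (e := z)
      (γ_0 := by
        refine Subtype.ext ?_
        simp [hz])).2 ⟨?_, ?_⟩
  · exact (congrArg (fun f : C(unitInterval, ℂ) => f 1) h).symm
  · funext t
    refine Subtype.ext ?_
    simp only [ContinuousMap.coe_mk, Function.comp_apply, Complex.exp_add, Complex.exp_sub, hg, hz]
    have := (u x).2
    simp [Path.source, this]
  · simp

theorem dl_mk (u : C(T, Cx)) {x y : T} (γ : Path x y) (g : C(unitInterval, ℂ))
    (hg : ∀ t, Complex.exp (g t) = (u (γ t)).1) : dl u (.mk γ) = g 1 - g 0 := by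
  rw [dl, monodromy_exp_eq u γ g hg _ (Complex.exp_log (u x).2)]
  ring

theorem exists_log (u : C(T, Cx)) {x y : T} (γ : Path x y) :
    ∃ g : C(unitInterval, ℂ), ∀ t, Complex.exp (g t) = (u (γ t)).1 := by
  obtain ⟨g, hg, -⟩ := Complex.isCoveringMap_exp.exists_path_lifts
    (γ.map u.continuous).toContinuousMap (Complex.log (u x).1) (by
      refine Subtype.ext ?_
      simp [Complex.exp_log (u x).2])
  exact ⟨g, fun t => congrArg Subtype.val (congrFun hg t)⟩

theorem exp_dl (u : C(T, Cx)) {x y : T} (p : PH x y) :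
    Complex.exp (dl u p) = (u y).1 / (u x).1 := by
  induction p using Path.Homotopic.Quotient.ind with | mk γ
  obtain ⟨g, hg⟩ := exists_log u γ
  rw [dl_mk u γ g hg, Complex.exp_sub, hg, hg]
  simp

theorem dl_refl (u : C(T, Cx)) (x : T) : dl u (.refl x) = 0 := by
  rw [← Path.Homotopic.Quotient.mk_refl,
    dl_mk u (Path.refl x) (ContinuousMap.const _ (Complex.log (u x).1))]
  · simp
  · intro t
    simp [Complex.exp_log (u x).2]

theorem dl_map (f : C(T, S)) (u : C(S, Cx)) {x y : T} {x' y' : S} (hx : f x = x')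
    (hy : f y = y') (p : PH x y) : dl u (PHmap f hx hy p) = dl (u.comp f) p := by
  subst hx hy
  induction p using Path.Homotopic.Quotient.ind with | mk γ
  obtain ⟨g, hg⟩ := exists_log (u.comp f) γ
  rw [dl_mk (u.comp f) γ g hg, PHmap_mk]
  exact dl_mk u _ g hg

theorem dl_trans (u : C(T, Cx)) {x y z : T} (p : PH x y) (q : PH y z) :
    dl u (p.trans q) = dl u p + dl u q := by
  induction p using Path.Homotopic.Quotient.ind with | mk γ
  induction q using Path.Homotopic.Quotient.ind with | mk δ
  obtain ⟨g, hg⟩ := exists_log u γ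
  obtain ⟨k, hk⟩ := exists_log u δ
  have e1 : Complex.exp (k 0) = (u y).1 := by simp [hk]
  have e2 : Complex.exp (g 1) = (u y).1 := by simp [hg]
  let G : Path (g 0) (g 1) := ⟨g, rfl, rfl⟩
  let K : Path (g 1) (k 1 + (g 1 - k 0)) := ⟨⟨fun t => k t + (g 1 - k 0), by fun_prop⟩,
    by simp, by simp⟩
  have h3 := dl_mk u (γ.trans δ) (G.trans K).toContinuousMap (fun t => ?_)
  · rw [← Path.Homotopic.Quotient.mk_trans, h3, dl_mk u γ g hg, dl_mk u δ k hk]
    simp
    ring
  · simp only [Path.coe_toContinuousMap, Path.trans_apply]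
    split_ifs with ht
    · exact hg _
    · simp only [K, Path.coe_mk_mk, Complex.exp_add, Complex.exp_sub, e1, e2, hk]
      have := (u y).2
      field_simp

theorem dl_symm (u : C(T, Cx)) {x y : T} (p : PH x y) : dl u p.symm = - dl u p := by
  have h := dl_trans u p p.symm
  rw [PH_trans_symm, dl_refl] at h
  linear_combination -h

theorem dl_pow (u v : C(T, Cx)) (n : ℕ) (h : ∀ t, (v t).1 = (u t).1 ^ n) {x y : T} (p : PH x y) :
    dl v p = n * dl u p := by
  induction p using Path.Homotopic.Quotient.ind with | mk γ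
  obtain ⟨g, hg⟩ := exists_log u γ
  rw [dl_mk u γ g hg, dl_mk v γ (⟨fun t => n * g t, by fun_prop⟩) (fun t => by
    simp [Complex.exp_nat_mul, hg, h])]
  simp
  ring

end dl

end Pool.Agent.W481
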