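import Pool.Agent.W481.AnaDefs

/-!
Sections of local homeomorphisms to the complex line over convex open sets.
-/

open Topology

namespace Pool.Agent.W481

variable {Y : Type} [TopologicalSpace Y] {pr : Y → ℂ} {Δ : Set ℂ} {σ : ℂ → Y}

/-- The restriction of a section to its domain. -/
def Sec.res (hs : Sec pr Δ σ) : C(Δ, Y) := ⟨Δ.domRestrict σ, hs.cont.domRestrict⟩

theorem Sec.res_apply (hs : Sec pr Δ σ) (s : Δ) : hs.res s = σ s := rfl

theorem Sec.exists_path (hs : Sec pr Δ σ) {s₀ s : ℂ} (h₀ : s₀ ∈ Δ) (h : s ∈ Δ) :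
    ∃ γ : Path (σ s₀) (σ s), ∀ τ, γ τ ∈ σ '' Δ := by
  have hc : IsPathConnected Δ := hs.convex.isPathConnected ⟨s₀, h₀⟩
  obtain ⟨p, hp⟩ := hc.joinedIn s₀ h₀ s h
  refine ⟨⟨⟨fun τ => σ (p τ), hs.cont.comp_continuous p.continuous hp⟩, by simp, by simp⟩,
    fun τ => ⟨p τ, hp τ, rfl⟩⟩

theorem Sec.homotopic (hs : Sec pr Δ σ) (hc : Continuous pr) {t t' : Y} (γ γ' : Path t t')
    (h : ∀ τ, γ τ ∈ σ '' Δ) (h' : ∀ τ, γ' τ ∈ σ '' Δ) : γ.Homotopic γ' := by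
  have key : ∀ y ∈ σ '' Δ, pr y ∈ Δ ∧ σ (pr y) = y := by
    rintro y ⟨s, hs', rfl⟩
    rw [hs.sec s hs']
    exact ⟨hs', rfl⟩
  have ht : t ∈ σ '' Δ := by simpa using h 0
  have ht' : t' ∈ σ '' Δ := by simpa using h 1
  have : ContractibleSpace Δ := hs.convex.contractibleSpace ⟨_, (key t ht).1⟩
  let L : ∀ (g : Path t t') (_ : ∀ τ, g τ ∈ σ '' Δ),
      Path (⟨pr t, (key t ht).1⟩ : Δ) ⟨pr t', (key t' ht').1⟩ := fun g hg =>
    ⟨⟨fun τ => ⟨pr (g τ), (key _ (hg τ)).1⟩, by fun_prop⟩, by simp, by simp⟩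
  have h1 : (L γ h).Homotopic (L γ' h') := SimplyConnectedSpace.paths_homotopic _ _
  have h2 := h1.map hs.res
  obtain ⟨F⟩ := h2
  have e : ∀ (g : Path t t') (hg : ∀ τ, g τ ∈ σ '' Δ), g =
      ((L g hg).map hs.res.continuous).cast (key t ht).2.symm (key t' ht').2.symm := by
    intro g hg
    ext τ
    exact (key _ (hg τ)).2.symm
  rw [e γ h, e γ' h']
  exact ⟨F.cast rfl rfl⟩

theorem Sec.isOpenEmbedding_res (hs : Sec pr Δ σ) (hpr : IsLocalHomeomorph pr) :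
    IsOpenEmbedding hs.res := by
  refine hpr.isOpenEmbedding_of_comp ?_ hs.res.continuous
  have : pr ∘ hs.res = (Subtype.val : Δ → ℂ) := by
    ext s
    exact hs.sec s s.2
  rw [this]
  exact hs.isOpen.isOpenEmbedding_subtypeVal

theorem Sec.isOpen_image (hs : Sec pr Δ σ) (hpr : IsLocalHomeomorph pr) : IsOpen (σ '' Δ) := by
  have h := (hs.isOpenEmbedding_res hpr).isOpen_range
  convert h using 1
  ext y
  constructor
  · rintro ⟨x, hx, rfl⟩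
    exact ⟨⟨x, hx⟩, rfl⟩
  · rintro ⟨x, rfl⟩
    exact ⟨x, x.2, rfl⟩

theorem exists_sec (hpr : IsLocalHomeomorph pr) (y : Y) :
    ∃ (Δ : Set ℂ) (σ : ℂ → Y), Sec pr Δ σ ∧ pr y ∈ Δ ∧ σ (pr y) = y := by
  obtain ⟨e, he, rfl⟩ := hpr y
  obtain ⟨r, hr, hb⟩ := Metric.isOpen_iff.1 e.open_target (e y) (e.map_source he)
  refine ⟨Metric.ball (e y) r, e.symm, ⟨Metric.isOpen_ball, convex_ball _ _,
    e.continuousOn_symm.mono hb, fun s hs => e.right_inv (hb hs)⟩, Metric.mem_ball_self hr,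
    e.left_inv he⟩

end Pool.Agent.W481
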