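import Pool.Agent.W982.TA.Rat

/-!
# Min-max area triangulations: integer and rational points
-/

set_option autoImplicit false

namespace Pool.Agent.W982.TA.Q

theorem qt_inj : Function.Injective qt := by
  intro p q h
  simp only [qt, Prod.mk.injEq, Int.cast_inj] at h
  exact Prod.ext h.1 h.2

theorem pt_qt (p : Pt) : pt (qt p) = emb p := by
  simp [pt, qt, emb]

theorem ri_qt (p q : Pt) : ri (qt p) (qt q) = oseg p q := by
  simp [ri, oseg, pt_qt]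

theorem area_qt (a b c : Pt) : area (qt a) (qt b) (qt c) = ((|dt a b c| : ℤ) : ℚ) / 2 := by
  simp [area, qt, dt]

theorem isSeg_qt (S : Finset Pt) (p q : Pt) :
    IsSeg (S.image qt) (qt p) (qt q) ↔ TA.IsSeg S p q := by
  simp only [IsSeg, TA.IsSeg, Finset.mem_image, ri_qt, forall_exists_index, and_imp,
    forall_apply_eq_imp_iff₂, pt_qt, ne_eq]
  constructor
  · rintro ⟨⟨a, ha, ha'⟩, ⟨b, hb, hb'⟩, h1, h2⟩
    rw [← qt_inj ha', ← qt_inj hb']
    refine ⟨ha, hb, fun h => h1 ?_, ?_⟩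
    · rw [← ha', ← hb', h]
    · rw [qt_inj ha', qt_inj hb']
      exact h2
  · rintro ⟨h1, h2, h3, h4⟩
    exact ⟨⟨p, h1, rfl⟩, ⟨q, h2, rfl⟩, fun h => h3 (qt_inj h), h4⟩

theorem isSeg_ex (S : Finset Pt) (p q : ℚ × ℚ) (h : IsSeg (S.image qt) p q) :
    ∃ a b, p = qt a ∧ q = qt b := by
  obtain ⟨h1, h2, -, -⟩ := h
  obtain ⟨a, -, rfl⟩ := Finset.mem_image.1 h1
  obtain ⟨b, -, rfl⟩ := Finset.mem_image.1 h2
  exact ⟨a, b, rfl, rfl⟩

theorem s_qt (p q p' q' : Pt) : s(qt p, qt q) = s(qt p', qt q') ↔ s(p, q) = s(p', q') := by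
  rw [← Sym2.map_mk qt p q, ← Sym2.map_mk qt p' q']
  exact (Sym2.map.injective qt_inj).eq_iff

theorem tri_iff (S : Finset Pt) (T : Set (Sym2 Pt)) (T' : Set (Sym2 (ℚ × ℚ)))
    (h1 : ∀ p q, s(p, q) ∈ T ↔ s(qt p, qt q) ∈ T')
    (h2 : ∀ p' q', s(p', q') ∈ T' → ∃ p q, p' = qt p ∧ q' = qt q) :
    TA.IsTriangulation S T ↔ IsTriangulation (S.image qt) T' := by
  constructor
  · intro h
    refine ⟨?_, ?_, ?_⟩
    · intro p' q' hm
      obtain ⟨p, q, rfl, rfl⟩ := h2 p' q' hm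
      rw [isSeg_qt]
      exact h.seg p q ((h1 p q).2 hm)
    · intro a' b' c' d' hm hm' hne
      obtain ⟨a, b, rfl, rfl⟩ := h2 a' b' hm
      obtain ⟨c, d, rfl, rfl⟩ := h2 c' d' hm'
      rw [ri_qt, ri_qt]
      refine h.noncross a b c d ((h1 _ _).2 hm) ((h1 _ _).2 hm') ?_
      intro he
      exact hne ((s_qt a b c d).2 he)
    · intro p' q' hs hd
      obtain ⟨p, q, rfl, rfl⟩ := isSeg_ex S p' q' hs
      rw [← h1]
      rw [isSeg_qt] at hs
      refine h.maximal p q hs ?_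
      intro a b hm hne
      have h3 := hd (qt a) (qt b) ((h1 a b).1 hm) (fun he => hne ((s_qt p q a b).1 he))
      rw [ri_qt, ri_qt] at h3
      exact h3
  · intro h
    refine ⟨?_, ?_, ?_⟩
    · intro p q hm
      rw [← isSeg_qt]
      exact h.seg _ _ ((h1 p q).1 hm)
    · intro a b c d hm hm' hne
      have h3 := h.noncross (qt a) (qt b) (qt c) (qt d) ((h1 _ _).1 hm) ((h1 _ _).1 hm')
        (fun he => hne ((s_qt a b c d).1 he))
      rw [ri_qt, ri_qt] at h3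
      exact h3
    · intro p q hs hd
      rw [h1]
      rw [← isSeg_qt] at hs
      refine h.maximal _ _ hs ?_
      intro a' b' hm hne
      obtain ⟨a, b, rfl, rfl⟩ := h2 a' b' hm
      rw [ri_qt, ri_qt]
      refine hd a b ((h1 a b).2 hm) ?_
      intro he
      exact hne ((s_qt p q a b).2 he)

theorem isTri_iff (S : Finset Pt) (T : Set (Sym2 Pt)) (T' : Set (Sym2 (ℚ × ℚ)))
    (h1 : ∀ p q, s(p, q) ∈ T ↔ s(qt p, qt q) ∈ T') (a b c : Pt) :
    IsTri S T a b c ↔ IsTriangle (S.image qt) T' (qt a) (qt b) (qt c) := by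
  simp only [IsTri, IsTriangle, h1, area_qt, Finset.mem_image, forall_exists_index, and_imp,
    forall_apply_eq_imp_iff₂, pt_qt, qt_inj.eq_iff]
  have h3 : ((|dt a b c| : ℤ) : ℚ) / 2 ≠ 0 ↔ dt a b c ≠ 0 := by
    simp
  rw [h3]

theorem bound_iff (S : Finset Pt) (A : ℚ) (T : Set (Sym2 Pt)) (T' : Set (Sym2 (ℚ × ℚ)))
    (h1 : ∀ p q, s(p, q) ∈ T ↔ s(qt p, qt q) ∈ T')
    (h2 : ∀ p' q', s(p', q') ∈ T' → ∃ p q, p' = qt p ∧ q' = qt q) :
    (∀ a b c, IsTri S T a b c → ((|dt a b c| : ℤ) : ℚ) / 2 ≤ A) ↔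
      ∀ a b c, IsTriangle (S.image qt) T' a b c → area a b c ≤ A := by
  constructor
  · intro h a' b' c' ht
    obtain ⟨a, b, rfl, rfl⟩ := h2 _ _ ht.1
    obtain ⟨b₂, c, hb, rfl⟩ := h2 _ _ ht.2.1
    rw [area_qt]
    exact h a b c ((isTri_iff S T T' h1 a b c).2 ht)
  · intro h a b c ht
    rw [← area_qt]
    exact h _ _ _ ((isTri_iff S T T' h1 a b c).1 ht)

theorem q1 : TaskQ1 := by
  intro S A
  constructor
  · rintro ⟨T, hT, hA⟩
    have h1 : ∀ p q, s(p, q) ∈ T ↔ s(qt p, qt q) ∈ Sym2.map qt '' T := by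
      intro p q
      rw [← Sym2.map_mk qt p q]
      exact ((Sym2.map.injective qt_inj).mem_set_image).symm
    have h2 : ∀ p' q', s(p', q') ∈ Sym2.map qt '' T → ∃ p q, p' = qt p ∧ q' = qt q := by
      rintro p' q' ⟨z, hz, he⟩
      induction z with
      | _ a b =>
        rw [Sym2.map_mk, Sym2.eq_iff] at he
        rcases he with ⟨h3, h4⟩ | ⟨h3, h4⟩
        · exact ⟨a, b, h3.symm, h4.symm⟩
        · exact ⟨b, a, h4.symm, h3.symm⟩
    exact ⟨_, (tri_iff S T _ h1 h2).1 hT, (bound_iff S A T _ h1 h2).1 hA⟩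
  · rintro ⟨T', hT, hA⟩
    have h1 : ∀ p q, s(p, q) ∈ Sym2.map qt ⁻¹' T' ↔ s(qt p, qt q) ∈ T' := by
      intro p q
      rfl
    have h2 : ∀ p' q', s(p', q') ∈ T' → ∃ p q, p' = qt p ∧ q' = qt q := by
      intro p' q' hm
      exact isSeg_ex S _ _ (hT.seg _ _ hm)
    exact ⟨_, (tri_iff S _ T' h1 h2).2 hT, (bound_iff S A _ T' h1 h2).2 hA⟩

end Pool.Agent.W982.TA.Q

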