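import Pool.Agent.W481.Good

/-!
Complex points of tensor products of algebras.
-/

open Topology TensorProduct

namespace Pool.Agent.W481

variable {A S B : Type} [CommRing A] [CommRing S] [CommRing B] [Algebra ℂ S] [Algebra ℂ B]
  [Algebra ℂ A] [Algebra A S] [Algebra A B] [IsScalarTower ℂ A S] [IsScalarTower ℂ A B]

omit [IsScalarTower ℂ A B] in
theorem exists_tensor_pt (φ : Sp S) (χ : Sp B)
    (h : ∀ a : A, φ.hom (algebraMap A S a) = χ.hom (algebraMap A B a)) :
    ∃ e : Sp (S ⊗[A] B), (∀ x, e.hom (x ⊗ₜ 1) = φ.hom x) ∧ (∀ y, e.hom (1 ⊗ₜ y) = χ.hom y) := by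
  let _ : Algebra A ℂ := (φ.hom.toRingHom.comp (algebraMap A S)).toAlgebra
  let f : S →ₐ[A] ℂ := { φ.hom.toRingHom with commutes' := fun a => rfl }
  let g : B →ₐ[A] ℂ := { χ.hom.toRingHom with commutes' := fun a => (h a).symm }
  let m : S ⊗[A] B →ₐ[A] ℂ := Algebra.TensorProduct.productMap f g
  have hm : ∀ x y, m (x ⊗ₜ y) = φ.hom x * χ.hom y := fun x y =>
    Algebra.TensorProduct.productMap_apply_tmul f g x y
  refine ⟨{ m.toRingHom with commutes' := fun c => ?_ }, fun x => ?_, fun y => ?_⟩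
  · show m ((algebraMap ℂ S c) ⊗ₜ 1) = c
    rw [hm, map_one, mul_one]
    exact φ.hom.commutes c
  · show m (x ⊗ₜ 1) = _
    rw [hm, map_one, mul_one]
  · show m (1 ⊗ₜ y) = _
    rw [hm, map_one, one_mul]

omit [IsScalarTower ℂ A B] in
theorem continuous_to_tensor {T : Type} [TopologicalSpace T] (F : T → Sp (S ⊗[A] B))
    (h1 : ∀ x : S, Continuous fun t => (F t).hom (x ⊗ₜ 1))
    (h2 : ∀ y : B, Continuous fun t => (F t).hom (1 ⊗ₜ y)) : Continuous F := by
  refine continuous_to_sp F fun w => ?_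
  induction w with
  | zero => simpa using continuous_const
  | tmul x y =>
    have : (fun t => (F t).hom (x ⊗ₜ y)) = fun t => (F t).hom (x ⊗ₜ 1) * (F t).hom (1 ⊗ₜ y) := by
      funext t
      rw [← map_mul, Algebra.TensorProduct.tmul_mul_tmul, mul_one, one_mul]
    rw [this]
    exact (h1 x).mul (h2 y)
  | add a b ha hb =>
    have : (fun t => (F t).hom (a + b)) = fun t => (F t).hom a + (F t).hom b := by
      funext t
      exact map_add _ _ _
    rw [this]
    exact ha.add hb

end Pool.Agent.W481
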